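import Pool.Agent.Q324.SC.SSE

set_option autoImplicit false

/-!
Self correction for the word problem of Artin groups.
-/

namespace Pool.Agent.Q324.SC.Art

open Pool.Agent.Q324.SC Pool.Agent.Q324.SC.Mat

/-- the alternating product `s t s ⋯` with `m` factors -/
def alt {G : Type} [Monoid G] : G → G → ℕ → G
  | _, _, 0 => 1
  | s, t, m + 1 => s * alt t s m

lemma map_alt {G H : Type} [Monoid G] [Monoid H] (φ : G →* H) (m : ℕ) :
    ∀ s t : G, φ (alt s t m) = alt (φ s) (φ t) m := by
  induction m with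
  | zero => intro s t; exact φ.map_one
  | succ m ih => intro s t; rw [alt, alt, map_mul, ih]

lemma alt_one {G : Type} [Monoid G] (s : G) (k : ℕ) : alt s 1 (2 * k) = s ^ k ∧ alt 1 s (2 * k) = s ^ k := by
  induction k with
  | zero => exact ⟨by simp [alt], by simp [alt]⟩
  | succ k ih =>
    have e : 2 * (k + 1) = 2 * k + 1 + 1 := by ring
    rw [e]
    constructor
    · rw [alt, alt, ih.1, one_mul, pow_succ']
    · rw [alt, alt, ih.2, one_mul, pow_succ']

/-- label of the pair `i ≠ j`; the values `0` and `1` stand for `∞` -/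
def lab (l : List ℕ) (i j : ℕ) : ℕ := if i < j then l.getD (tri j + i) 0 else l.getD (tri i + j) 0

lemma lab_symm {l : List ℕ} {i j : ℕ} (h : i ≠ j) : lab l i j = lab l j i := by
  unfold lab
  rcases Nat.lt_or_gt_of_ne h with h1 | h1
  · rw [if_pos h1, if_neg (by omega)]
  · rw [if_neg (by omega), if_pos h1]

/-- the relators of the Artin group of rank `n` with labels `l` -/
def rels (n : ℕ) (l : List ℕ) : Set (FreeGroup (Fin n)) :=
  {r | ∃ i j : Fin n, i ≠ j ∧ 2 ≤ lab l i j ∧
    r = alt (FreeGroup.of i) (FreeGroup.of j) (lab l i j)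
      * (alt (FreeGroup.of j) (FreeGroup.of i) (lab l i j))⁻¹}

/-- the Artin group -/
abbrev Artin (n : ℕ) (l : List ℕ) : Type := PresentedGroup (rels n l)

/-- the standard generators, `1` for numbers that are too large -/
def gen (n : ℕ) (l : List ℕ) (i : ℕ) : Artin n l := if h : i < n then PresentedGroup.of ⟨i, h⟩ else 1

/-- the value of a word: `(i, true)` is the generator `i`, `(i, false)` its inverse -/
def val {G : Type} [Group G] (g : ℕ → G) (w : List (ℕ × Bool)) : G :=
  (w.map (fun x => if x.2 then g x.1 else (g x.1)⁻¹)).prod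

lemma gen_rel (n : ℕ) (l : List ℕ) {i j : ℕ} (hi : i < n) (hj : j < n) (hij : i ≠ j)
    (h : 2 ≤ lab l i j) : alt (gen n l i) (gen n l j) (lab l i j) = alt (gen n l j) (gen n l i) (lab l i j) := by
  have h1 : (PresentedGroup.mk (rels n l)) (alt (FreeGroup.of (⟨i, hi⟩ : Fin n)) (FreeGroup.of ⟨j, hj⟩) (lab l i j)
      * (alt (FreeGroup.of (⟨j, hj⟩ : Fin n)) (FreeGroup.of ⟨i, hi⟩) (lab l i j))⁻¹) = 1 := by
    refine PresentedGroup.one_of_mem ?_
    exact ⟨⟨i, hi⟩, ⟨j, hj⟩, by simpa using hij, h, rfl⟩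
  rw [map_mul, map_inv, mul_inv_eq_one, map_alt, map_alt] at h1
  unfold gen
  rw [dif_pos hi, dif_pos hj]
  exact h1

/-- homomorphisms from Artin groups -/
lemma exists_hom {n : ℕ} {l : List ℕ} {H : Type} [Group H] (h : ℕ → H)
    (hr : ∀ i j, i < j → j < n → 2 ≤ lab l i j → alt (h i) (h j) (lab l i j) = alt (h j) (h i) (lab l i j)) :
    ∃ φ : Artin n l →* H, ∀ i < n, φ (gen n l i) = h i := by
  have h1 : ∀ r ∈ rels n l, (FreeGroup.lift (fun i : Fin n => h i)) r = 1 := by
    rintro r ⟨i, j, hij, h2, rfl⟩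
    rw [map_mul, map_inv, mul_inv_eq_one, map_alt, map_alt, FreeGroup.lift_apply_of,
      FreeGroup.lift_apply_of]
    rcases Nat.lt_or_gt_of_ne (fun h => hij (Fin.ext h)) with h3 | h3
    · exact hr i j h3 j.2 h2
    · have h4 : lab l i j = lab l j i := lab_symm (fun h => hij (Fin.ext h))
      rw [h4] at h2 ⊢
      exact (hr j i h3 i.2 h2).symm
  refine ⟨PresentedGroup.toGroup h1, fun i hi => ?_⟩
  unfold gen
  rw [dif_pos hi, PresentedGroup.toGroup.of]

lemma val_map {G H : Type} [Group G] [Group H] (φ : G →* H) (g : ℕ → G) (h : ℕ → H)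
    (w : List (ℕ × Bool)) (hw : ∀ x ∈ w, φ (g x.1) = h x.1) : φ (val g w) = val h w := by
  unfold val
  rw [map_list_prod, List.map_map]
  congr 1
  refine List.map_congr_left fun x hx => ?_
  simp only [Function.comp]
  split
  · exact hw x hx
  · rw [map_inv, hw x hx]

/-- the smaller Artin group is a retract of the larger one if all new labels are even or `∞` -/
lemma retract {n N : ℕ} {l l' : List ℕ} (hN : n ≤ N)
    (h1 : ∀ i j, i < j → j < n → lab l' i j = lab l i j)
    (h2 : ∀ i j, i < j → n ≤ j → j < N → Even (lab l' i j)) {w : List (ℕ × Bool)}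
    (hw : ∀ x ∈ w, x.1 < n) : val (gen N l') w = 1 ↔ val (gen n l) w = 1 := by
  constructor
  · obtain ⟨φ, hφ⟩ := exists_hom (n := N) (l := l') (gen n l) (by
      intro i j hij hj h3
      rcases Nat.lt_or_ge j n with hjn | hjn
      · rw [h1 i j hij hjn] at h3 ⊢
        exact gen_rel n l (hij.trans hjn) hjn hij.ne h3
      · have h4 : gen n l j = 1 := by unfold gen; rw [dif_neg (by omega)]
        obtain ⟨k, hk⟩ := h2 i j hij hjn hj
        have hk2 : lab l' i j = 2 * k := by omega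
        rw [h4, hk2, (alt_one _ k).1, (alt_one _ k).2])
    intro h
    have h3 := val_map φ (gen N l') (gen n l) w (fun x hx => hφ x.1 ((hw x hx).trans_le hN))
    rw [h, map_one] at h3
    exact h3.symm
  · obtain ⟨φ, hφ⟩ := exists_hom (n := n) (l := l) (gen N l') (by
      intro i j hij hj h3
      rw [← h1 i j hij hj] at h3 ⊢
      exact gen_rel N l' ((hij.trans hj).trans_le hN) (hj.trans_le hN) hij.ne h3)
    intro h
    have h3 := val_map φ (gen n l) (gen N l') w (fun x hx => hφ x.1 (hw x hx))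
    rw [h, map_one] at h3
    exact h3.symm

/-- inputs: rank, labels, word -/
abbrev Inp := ℕ × List ℕ × List (ℕ × Bool)

/-- one label for each pair, and the word uses the generators only -/
def Valid (p : Inp) : Prop := p.2.1.length = tri p.1 ∧ ∀ x ∈ p.2.2, x.1 < p.1

/-- the word problem for all Artin groups -/
def WP (p : Inp) : Prop := Valid p ∧ val (gen p.1 p.2.1) p.2.2 = 1

/-- the label lists of rank `n` with entries at most `H` -/
def Labels (n H : ℕ) : Set (List ℕ) := {l | l.length = tri n ∧ ∀ x ∈ l, x ≤ H}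

/-- `A` errs on `p` -/
def Errs (A : Inp → Bool) (p : Inp) : Prop := ¬ (A p = true ↔ WP p)

/-- new labels -/
def nl (l : List ℕ) (n N M k : ℕ) : List ℕ := (List.range (tri N)).map fun s =>
  bif decide (s + 1 ≤ tri n) then l.getD s 0 else 2 * dig M k (s - tri n)

lemma nl_length (l : List ℕ) (n N M k : ℕ) : (nl l n N M k).length = tri N := by simp [nl]

lemma nl_getD {l : List ℕ} {n N M k s : ℕ} (hs : s < tri N) : (nl l n N M k).getD s 0
    = bif decide (s + 1 ≤ tri n) then l.getD s 0 else 2 * dig M k (s - tri n) := by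
  unfold nl
  rw [List.getD_eq_getElem _ _ (by simpa using hs)]
  simp

lemma idx_lt {i j N : ℕ} (hij : i < j) (hj : j < N) : tri j + i < tri N := by
  have h1 := tri_mono (a := j + 1) (b := N) hj
  rw [tri_succ] at h1
  omega

lemma lab_old {l : List ℕ} {n N M k i j : ℕ} (hN : n ≤ N) (hij : i < j) (hj : j < n) :
    lab (nl l n N M k) i j = lab l i j := by
  unfold lab
  rw [if_pos hij, if_pos hij, nl_getD (idx_lt hij (hj.trans_le hN))]
  have h1 := idx_lt hij hj
  have h2 : decide (tri j + i + 1 ≤ tri n) = true := by rw [decide_eq_true_eq]; omega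
  rw [h2]
  rfl

lemma lab_new {l : List ℕ} {n N M k i j : ℕ} (hij : i < j) (hn : n ≤ j) (hj : j < N) :
    Even (lab (nl l n N M k) i j) := by
  unfold lab
  rw [if_pos hij, nl_getD (idx_lt hij hj)]
  have h1 := tri_mono hn
  have h2 : decide (tri j + i + 1 ≤ tri n) = false := by rw [decide_eq_false_iff_not]; omega
  rw [h2]
  exact even_two_mul _

lemma nl_wp {p : Inp} (hp : Valid p) {N : ℕ} (hN : p.1 ≤ N) (M k : ℕ) :
    WP (N, nl p.2.1 p.1 N M k, p.2.2) ↔ WP p := by
  have h1 := retract (l := p.2.1) (l' := nl p.2.1 p.1 N M k) hN (fun i j hij hj => lab_old hN hij hj)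
    (fun i j hij hn hj => lab_new hij hn hj) hp.2
  constructor
  · intro h
    exact ⟨hp, h1.1 h.2⟩
  · intro h
    exact ⟨⟨nl_length _ _ _ _ _, fun x hx => (hp.2 x hx).trans_le hN⟩, h1.2 h.2⟩

lemma nl_inj {l : List ℕ} {n N M k k' : ℕ} (hN : n ≤ N)
    (hk : k < (M + 1) ^ (tri N - tri n)) (hk' : k' < (M + 1) ^ (tri N - tri n))
    (h : nl l n N M k = nl l n N M k') : k = k' := by
  have hd := tri_mono hN
  rw [eq_sum_dig M _ k hk, eq_sum_dig M _ k' hk']
  refine Finset.sum_congr rfl fun s hs => ?_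
  rw [Finset.mem_range] at hs
  congr 1
  have h1 := nl_getD (l := l) (n := n) (N := N) (M := M) (k := k) (s := tri n + s) (by omega)
  rw [h, nl_getD (by omega)] at h1
  have h2 : decide (tri n + s + 1 ≤ tri n) = false := by rw [decide_eq_false_iff_not]; omega
  rw [h2] at h1
  simp only [cond_false, Nat.add_sub_cancel_left] at h1
  omega

lemma nl_mem (l : List ℕ) (n N M k : ℕ) : nl l n N M k ∈ Labels N (l.sum + 2 * M) := by
  refine ⟨nl_length _ _ _ _ _, fun x hx => ?_⟩
  unfold nl at hx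
  obtain ⟨s, -, rfl⟩ := List.mem_map.1 hx
  cases decide (s + 1 ≤ tri n)
  · have := dig_le M k (s - tri n)
    simp only [cond_false]
    omega
  · simp only [cond_true]
    rcases Nat.lt_or_ge s l.length with h | h
    · rw [List.getD_eq_getElem _ _ h]
      exact (List.le_sum_of_mem (List.getElem_mem h)).trans (Nat.le_add_right _ _)
    · rw [List.getD_eq_default _ _ h]
      exact Nat.zero_le _

/-- range of the new labels -/
def mm (l : List ℕ) (F K : ℕ) : ℕ := 2 * K * (2 * (l.sum + 1)) ^ F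

lemma vote {A : Inp → Bool} {p : Inp} (hp : Valid p) {N F K : ℕ} (hN : p.1 ≤ N)
    (hF : F = tri N - tri p.1) (hF1 : 1 ≤ F)
    (h : ∀ H : ℕ, {l | l ∈ Labels N H ∧ Errs A (N, l, p.2.2)}.encard
      ≤ ((K * (H + 1) ^ (F - 1) : ℕ) : ℕ∞)) :
    ((mm p.2.1 F K + 1) ^ F
      < 2 * cnt (fun k => A (N, nl p.2.1 p.1 N (mm p.2.1 F K) k, p.2.2)) ((mm p.2.1 F K + 1) ^ F))
      ↔ WP p := by
  classical
  obtain ⟨M, hM⟩ : ∃ M, M = mm p.2.1 F K := ⟨_, rfl⟩
  rw [← hM]
  obtain ⟨W, hW⟩ : ∃ W, W = (Finset.range ((M + 1) ^ F)).filter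
    (fun k => A (N, nl p.2.1 p.1 N M k, p.2.2) ≠ decide (WP p)) := ⟨_, rfl⟩
  have g1 : (W.card : ℕ∞) ≤ ((K * (p.2.1.sum + 2 * M + 1) ^ (F - 1) : ℕ) : ℕ∞) := by
    refine le_trans ?_ (h (p.2.1.sum + 2 * M))
    rw [← Set.encard_coe_eq_coe_finsetCard]
    have h3 : Set.InjOn (fun k => nl p.2.1 p.1 N M k) (W : Set ℕ) := by
      intro k hk k' hk' hkk
      rw [hW, Finset.mem_coe, Finset.mem_filter, Finset.mem_range] at hk hk'
      rw [hF] at hk hk'
      exact nl_inj hN hk.1 hk'.1 hkk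
    rw [← h3.encard_image]
    refine Set.encard_le_encard ?_
    rintro _ ⟨k, hk, rfl⟩
    rw [hW, Finset.mem_coe, Finset.mem_filter, Finset.mem_range] at hk
    refine ⟨nl_mem _ _ _ _ _, ?_⟩
    intro h4
    rw [nl_wp hp hN] at h4
    apply hk.2
    rw [Bool.eq_iff_iff, decide_eq_true_eq]
    exact h4
  have g2 : W.card ≤ K * (p.2.1.sum + 2 * M + 1) ^ (F - 1) := by exact_mod_cast g1
  have g3 : p.2.1.sum + 2 * M + 1 ≤ 2 * (p.2.1.sum + 1) * (M + 1) := by
    have e : 2 * (p.2.1.sum + 1) * (M + 1)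
        = p.2.1.sum + 2 * M + 1 + (2 * (p.2.1.sum * M) + p.2.1.sum + 1) := by ring
    rw [e]
    exact Nat.le_add_right _ _
  have g4 : W.card ≤ K * (2 * (p.2.1.sum + 1)) ^ (F - 1) * (M + 1) ^ (F - 1) := by
    refine g2.trans ?_
    rw [mul_assoc, ← mul_pow]
    exact Nat.mul_le_mul_left _ (Nat.pow_le_pow_left g3 _)
  have g5 : 2 * (K * (2 * (p.2.1.sum + 1)) ^ (F - 1) * (M + 1) ^ (F - 1)) < (M + 1) ^ F := by
    have e1 : (M + 1) ^ F = (M + 1) * (M + 1) ^ (F - 1) := by
      rw [← pow_succ']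
      congr 1
      omega
    rw [e1, ← mul_assoc]
    refine Nat.mul_lt_mul_of_pos_right ?_ (by positivity)
    have e2 : 2 * (K * (2 * (p.2.1.sum + 1)) ^ (F - 1)) ≤ M := by
      rw [hM]
      unfold mm
      rw [← mul_assoc]
      exact Nat.mul_le_mul_left _ (Nat.pow_le_pow_right (by omega) (by omega))
    omega
  rw [hW] at g4
  exact (majority g4 g5).trans (by simp)

/-! ### computability -/

theorem nl_primrec : Primrec (fun x : List ℕ × ℕ × ℕ × ℕ × ℕ =>
    nl x.1 x.2.1 x.2.2.1 x.2.2.2.1 x.2.2.2.2) := by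
  unfold nl tri dig
  refine pmap (by fun_prop) ?_
  have h1 : Primrec (fun x : (List ℕ × ℕ × ℕ × ℕ × ℕ) × ℕ => x.1.1.getD x.2 0) :=
    (Primrec.list_getD (0 : ℕ)).comp (by fun_prop) (by fun_prop)
  exact pcond (by fun_prop) h1 (by fun_prop)

set_option maxHeartbeats 400000 in
theorem nl_comp {α : Type*} [Primcodable α] {l : α → List ℕ} {n N M k : α → ℕ}
    (hl : Computable l) (hn : Computable n) (hN : Computable N) (hM : Computable M)
    (hk : Computable k) : Computable (fun a => nl (l a) (n a) (N a) (M a) (k a)) := by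
  have h1 : Computable (fun a => (l a, n a, N a, M a, k a)) :=
    hl.pair (hn.pair (hN.pair (hM.pair hk)))
  exact Computable.comp (f := fun x : List ℕ × ℕ × ℕ × ℕ × ℕ =>
    nl x.1 x.2.1 x.2.2.1 x.2.2.2.1 x.2.2.2.2) (g := fun a => (l a, n a, N a, M a, k a))
    nl_primrec.to_comp h1

theorem mm_primrec : Primrec (fun x : List ℕ × ℕ × ℕ => mm x.1 x.2.1 x.2.2) := by
  unfold mm
  fun_prop

theorem valid_primrec : PrimrecPred Valid := by
  have h1 : PrimrecPred (fun p : Inp => p.2.1.length = tri p.1) := by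
    unfold tri
    exact Primrec.eq.comp (by fun_prop) (by fun_prop)
  have h2 : PrimrecPred (fun p : Inp => (p.2.2.map (fun x => x.1 + 1 - p.1)).sum = 0) := by
    refine Primrec.eq.comp (psum (pmap (by fun_prop) ?_)) (by fun_prop)
    fun_prop
  refine (h1.and h2).of_eq fun p => ?_
  unfold Valid
  refine and_congr_right fun _ => ?_
  rw [List.sum_eq_zero_iff]
  constructor
  · intro h x hx
    have := h _ (List.mem_map.2 ⟨x, hx, rfl⟩)
    omega
  · intro h y hy
    obtain ⟨x, hx, rfl⟩ := List.mem_map.1 hy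
    have := h x hx
    omega

attribute [local irreducible] nl mm cnt

set_option maxHeartbeats 400000 in
/-- **Self correction for the word problem of Artin groups.** -/
theorem artin_correct {A : Inp → Bool} {N : ℕ → ℕ} {K : ℕ × List (ℕ × Bool) → ℕ}
    (hA : Computable A) (hN : Computable N) (hK : Computable K) (hN1 : ∀ n, n + 2 ≤ N n)
    (h : ∀ (n : ℕ) (w : List (ℕ × Bool)) (H : ℕ),
      {l | l ∈ Labels (N n) H ∧ Errs A (N n, l, w)}.encard
        ≤ ((K (n, w) * (H + 1) ^ (tri (N n) - tri n - 1) : ℕ) : ℕ∞)) : ComputablePred WP := by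
  classical
  have c0 : Computable (fun p : Inp => p.1) := Computable.fst
  have cl : Computable (fun p : Inp => p.2.1) := Computable.fst.comp Computable.snd
  have cw : Computable (fun p : Inp => p.2.2) := Computable.snd.comp Computable.snd
  have c1 : Computable (fun p : Inp => N p.1) := hN.comp c0
  have c2 : Computable (fun p : Inp => K (p.1, p.2.2)) := hK.comp (c0.pair cw)
  obtain ⟨F, hF⟩ : ∃ F : Inp → ℕ, F = fun p => tri (N p.1) - tri p.1 := ⟨_, rfl⟩
  have c3 : Computable F := by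
    rw [hF]
    have : Primrec (fun x : ℕ × ℕ => tri x.1 - tri x.2) := by
      unfold tri
      fun_prop
    exact this.to_comp.comp (c1.pair c0)
  have c4 : Computable (fun p : Inp => mm p.2.1 (F p) (K (p.1, p.2.2))) :=
    Computable.comp (f := fun x : List ℕ × ℕ × ℕ => mm x.1 x.2.1 x.2.2)
      (g := fun p : Inp => (p.2.1, F p, K (p.1, p.2.2))) mm_primrec.to_comp (cl.pair (c3.pair c2))
  have c5 : Computable (fun p : Inp => (mm p.2.1 (F p) (K (p.1, p.2.2)) + 1) ^ F p) := by
    have h1 : Primrec (fun p : ℕ × ℕ => (p.1 + 1) ^ p.2) := by fun_prop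
    exact h1.to_comp.comp (c4.pair c3)
  have c6 : Computable (fun x : Inp × ℕ => A (N x.1.1,
      nl x.1.2.1 x.1.1 (N x.1.1) (mm x.1.2.1 (F x.1) (K (x.1.1, x.1.2.2))) x.2, x.1.2.2)) := by
    refine hA.comp ((c1.comp Computable.fst).pair (Computable.pair ?_ (cw.comp Computable.fst)))
    exact nl_comp (cl.comp Computable.fst) (c0.comp Computable.fst) (c1.comp Computable.fst)
      (c4.comp Computable.fst) Computable.snd
  have c7 : Computable (fun p : Inp => cnt (fun k => A (N p.1,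
      nl p.2.1 p.1 (N p.1) (mm p.2.1 (F p) (K (p.1, p.2.2))) k, p.2.2))
      ((mm p.2.1 (F p) (K (p.1, p.2.2)) + 1) ^ F p)) :=
    cnt_comp (f := fun (p : Inp) k => A (N p.1,
      nl p.2.1 p.1 (N p.1) (mm p.2.1 (F p) (K (p.1, p.2.2))) k, p.2.2)) c6 c5
  have c8 : Computable (fun p : Inp => decide (Valid p) && decide (
      (mm p.2.1 (F p) (K (p.1, p.2.2)) + 1) ^ F p < 2 * cnt (fun k => A (N p.1,
      nl p.2.1 p.1 (N p.1) (mm p.2.1 (F p) (K (p.1, p.2.2))) k, p.2.2))
      ((mm p.2.1 (F p) (K (p.1, p.2.2)) + 1) ^ F p))) := by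
    have h1 : Computable (fun p : Inp => decide (Valid p)) := by
      have := valid_primrec.decide.to_comp
      exact this.of_eq fun p => by simp
    have h2 : Primrec (fun x : ℕ × ℕ => decide (x.1 + 1 ≤ 2 * x.2)) := by fun_prop
    have h3 := h2.to_comp.comp (c5.pair c7)
    exact Primrec.and.to_comp.comp h1 (h3.of_eq fun p => rfl)
  refine ⟨inferInstance, ?_⟩
  refine c8.of_eq fun p => ?_
  have key : Valid p → (((mm p.2.1 (F p) (K (p.1, p.2.2)) + 1) ^ F p < 2 * cnt (fun k => A (N p.1,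
      nl p.2.1 p.1 (N p.1) (mm p.2.1 (F p) (K (p.1, p.2.2))) k, p.2.2))
      ((mm p.2.1 (F p) (K (p.1, p.2.2)) + 1) ^ F p)) ↔ WP p) := by
    intro hv
    have hF2 : F p = tri (N p.1) - tri p.1 := by rw [hF]
    refine vote hv (by have := hN1 p.1; omega) hF2 ?_ (fun H => by rw [hF2]; exact h p.1 p.2.2 H)
    rw [hF2]
    have h1 := tri_mono (hN1 p.1)
    rw [tri_succ, tri_succ] at h1
    omega
  rw [Bool.eq_iff_iff, Bool.and_eq_true, decide_eq_true_eq, decide_eq_true_eq, decide_eq_true_eq]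
  constructor
  · rintro ⟨hv, hp⟩
    exact (key hv).1 hp
  · intro hp
    exact ⟨hp.1, (key hp.1).2 hp⟩

end Pool.Agent.Q324.SC.Art
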