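import Mathlib

set_option autoImplicit false

/-!
Primitive recursion of list and integer operations, with automation.
-/

namespace Pool.Agent.Q324.SC

open Encodable

attribute [fun_prop] Primrec

section basic

variable {α β γ σ : Type*} [Primcodable α] [Primcodable β] [Primcodable γ] [Primcodable σ]

@[fun_prop] theorem pid : Primrec (fun x : α => x) := Primrec.id
@[fun_prop] theorem pconst (b : β) : Primrec (fun _ : α => b) := Primrec.const b
@[fun_prop] theorem pcomp {f : β → γ} {g : α → β} (hf : Primrec f) (hg : Primrec g) :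
    Primrec (fun x => f (g x)) := hf.comp hg
@[fun_prop] theorem pfst {f : α → β × γ} (hf : Primrec f) :
    Primrec (fun x => (f x).1) := Primrec.fst.comp hf
@[fun_prop] theorem psnd {f : α → β × γ} (hf : Primrec f) :
    Primrec (fun x => (f x).2) := Primrec.snd.comp hf
@[fun_prop] theorem ppair {f : α → β} {g : α → γ} (hf : Primrec f) (hg : Primrec g) :
    Primrec (fun x => (f x, g x)) := hf.pair hg
@[fun_prop] theorem padd {f g : α → ℕ} (hf : Primrec f) (hg : Primrec g) :
    Primrec (fun x => f x + g x) := Primrec.nat_add.comp hf hg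
@[fun_prop] theorem psub {f g : α → ℕ} (hf : Primrec f) (hg : Primrec g) :
    Primrec (fun x => f x - g x) := Primrec.nat_sub.comp hf hg
@[fun_prop] theorem pmul {f g : α → ℕ} (hf : Primrec f) (hg : Primrec g) :
    Primrec (fun x => f x * g x) := Primrec.nat_mul.comp hf hg
@[fun_prop] theorem pdiv {f g : α → ℕ} (hf : Primrec f) (hg : Primrec g) :
    Primrec (fun x => f x / g x) := Primrec.nat_div.comp hf hg
@[fun_prop] theorem pmod {f g : α → ℕ} (hf : Primrec f) (hg : Primrec g) :
    Primrec (fun x => f x % g x) := Primrec.nat_mod.comp hf hg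
@[fun_prop] theorem pmin {f g : α → ℕ} (hf : Primrec f) (hg : Primrec g) :
    Primrec (fun x => min (f x) (g x)) := Primrec.nat_min.comp hf hg
@[fun_prop] theorem pmax {f g : α → ℕ} (hf : Primrec f) (hg : Primrec g) :
    Primrec (fun x => max (f x) (g x)) := Primrec.nat_max.comp hf hg
@[fun_prop] theorem psucc {f : α → ℕ} (hf : Primrec f) :
    Primrec (fun x => Nat.succ (f x)) := Primrec.succ.comp hf
@[fun_prop] theorem pcons {f : α → β} {g : α → List β} (hf : Primrec f) (hg : Primrec g) :
    Primrec (fun x => f x :: g x) := Primrec.list_cons.comp hf hg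
@[fun_prop] theorem pappend {f g : α → List β} (hf : Primrec f) (hg : Primrec g) :
    Primrec (fun x => f x ++ g x) := Primrec.list_append.comp hf hg
@[fun_prop] theorem plength {f : α → List β} (hf : Primrec f) :
    Primrec (fun x => (f x).length) := Primrec.list_length.comp hf
@[fun_prop] theorem prange {f : α → ℕ} (hf : Primrec f) :
    Primrec (fun x => List.range (f x)) := Primrec.list_range.comp hf
@[fun_prop] theorem pencode {f : α → β} (hf : Primrec f) :
    Primrec (fun x => encode (f x)) := Primrec.encode.comp hf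
@[fun_prop] theorem pcond {c : α → Bool} {f g : α → β} (hc : Primrec c) (hf : Primrec f)
    (hg : Primrec g) : Primrec (fun x => bif c x then f x else g x) :=
  Primrec.cond hc hf hg
@[fun_prop] theorem pble {f g : α → ℕ} (hf : Primrec f) (hg : Primrec g) :
    Primrec (fun x => decide (f x ≤ g x)) := by
  have h : PrimrecPred (fun x => f x ≤ g x) := Primrec.nat_le.comp hf hg
  exact h.decide
@[fun_prop] theorem pbeq {f g : α → β} [DecidableEq β] (hf : Primrec f) (hg : Primrec g) :
    Primrec (fun x => decide (f x = g x)) := by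
  have h : PrimrecPred (fun x => f x = g x) := Primrec.eq.comp hf hg
  exact h.decide
@[fun_prop] theorem pand {f g : α → Bool} (hf : Primrec f) (hg : Primrec g) :
    Primrec (fun x => f x && g x) := Primrec.and.comp hf hg

theorem pmap {f : α → List β} {g : α → β → σ} (hf : Primrec f)
    (hg : Primrec (fun x : α × β => g x.1 x.2)) : Primrec (fun a => (f a).map (g a)) :=
  Primrec.list_map hf hg

theorem pflatMap {f : α → List β} {g : α → β → List σ} (hf : Primrec f)
    (hg : Primrec (fun x : α × β => g x.1 x.2)) : Primrec (fun a => (f a).flatMap (g a)) :=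
  Primrec.list_flatMap hf hg

@[fun_prop] theorem psum {f : α → List ℕ} (hf : Primrec f) : Primrec (fun a => (f a).sum) := by
  have h : Primrec (fun L : List ℕ => L.foldr (fun t s => t + s) 0) := by
    apply Primrec.list_foldr (h := fun (_ : List ℕ) (p : ℕ × ℕ) => p.1 + p.2)
      Primrec.id (Primrec.const 0)
    exact Primrec.nat_add.comp (Primrec.fst.comp Primrec.snd) (Primrec.snd.comp Primrec.snd)
  have h2 : Primrec (fun L : List ℕ => L.sum) := h
  exact h2.comp hf

@[fun_prop] theorem ppow {f g : α → ℕ} (hf : Primrec f) (hg : Primrec g) :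
    Primrec (fun x => f x ^ g x) := by
  have h : Primrec₂ (fun a b : ℕ => a ^ b) := by
    have h : Primrec₂ (fun (a b : ℕ) => Nat.rec (motive := fun _ => ℕ) 1 (fun _ ih => ih * a) b) := by
      exact Primrec.nat_rec (f := fun _ : ℕ => (1 : ℕ)) (g := fun (a : ℕ) (p : ℕ × ℕ) => p.2 * a)
        (Primrec.const 1) (Primrec.nat_mul.comp (Primrec.snd.comp Primrec.snd) Primrec.fst)
    refine h.of_eq ?_
    intro a b
    induction b with
    | zero => rfl
    | succ n ih => rw [pow_succ, ← ih]
  exact h.comp hf hg

end basic

section integers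

variable {α : Type*} [Primcodable α]

lemma encode_ofNat (n : ℕ) : encode ((n : ℤ)) = 2 * n := rfl
lemma encode_negSucc (n : ℕ) : encode (Int.negSucc n) = 2 * n + 1 := rfl

@[fun_prop] theorem ptoNat {f : α → ℤ} (hf : Primrec f) : Primrec (fun x => (f x).toNat) := by
  have h : Primrec (fun z : ℤ => bif decide (encode z % 2 = 0) then encode z / 2 else 0) := by
    fun_prop
  refine (h.of_eq (g := Int.toNat) ?_).comp hf
  intro z
  rcases z with n | n
  · rw [Int.ofNat_eq_natCast, encode_ofNat, Int.toNat_natCast]
    simp
  · rw [encode_negSucc]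
    simp [Nat.add_mod]

@[fun_prop] theorem pnegToNat {f : α → ℤ} (hf : Primrec f) : Primrec (fun x => (-(f x)).toNat) := by
  have h : Primrec (fun z : ℤ => bif decide (encode z % 2 = 0) then 0 else (encode z + 1) / 2) := by
    fun_prop
  refine (h.of_eq (g := fun z : ℤ => (-z).toNat) ?_).comp hf
  intro z
  rcases z with n | n
  · rw [Int.ofNat_eq_natCast, encode_ofNat]
    simp
  · rw [encode_negSucc, Int.neg_negSucc]
    have h1 : (2 * n + 1 + 1) / 2 = n + 1 := by omega
    have h2 : decide ((2 * n + 1) % 2 = 0) = false := by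
      rw [decide_eq_false_iff_not]
      omega
    rw [h1, h2]
    rfl

@[fun_prop] theorem pnatAbs {f : α → ℤ} (hf : Primrec f) : Primrec (fun x => (f x).natAbs) := by
  have h : Primrec (fun x => (f x).toNat + (-(f x)).toNat) := by fun_prop
  refine h.of_eq ?_
  intro x
  omega

@[fun_prop] theorem psubNatNat {f g : α → ℕ} (hf : Primrec f) (hg : Primrec g) :
    Primrec (fun x => Int.subNatNat (f x) (g x)) := by
  rw [← Primrec.encode_iff]
  have h : Primrec (fun x => bif decide (g x ≤ f x) then 2 * (f x - g x)
      else 2 * (g x - f x - 1) + 1) := by fun_prop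
  refine h.of_eq ?_
  intro x
  by_cases hx : g x ≤ f x
  · rw [Int.subNatNat_of_le hx, encode_ofNat]
    simp [hx]
  · rw [Int.subNatNat_of_lt (by omega), encode_negSucc]
    simp only [hx, decide_false, cond_false, Nat.pred_eq_sub_one]

end integers

/-- maximum of the first values -/
def gmax (f : ℕ → ℕ) (m : ℕ) : ℕ := Nat.rec (motive := fun _ => ℕ) 0 (fun k a => max a (f k)) m

lemma le_gmax (f : ℕ → ℕ) {m k : ℕ} (h : k < m) : f k ≤ gmax f m := by
  induction m with
  | zero => omega
  | succ m ih =>
    have h1 : gmax f (m + 1) = max (gmax f m) (f m) := rfl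
    rw [h1]
    rcases Nat.lt_succ_iff_lt_or_eq.1 h with h | h
    · exact (ih h).trans (le_max_left _ _)
    · rw [h]
      exact le_max_right _ _

theorem gmax_comp {α : Type*} [Primcodable α] {f : α → ℕ → ℕ} {m : α → ℕ}
    (hf : Computable (fun x : α × ℕ => f x.1 x.2)) (hm : Computable m) :
    Computable (fun a => gmax (f a) (m a)) := by
  refine Computable.nat_rec (f := m) (g := fun _ => 0) (h := fun a p => max p.2 (f a p.1)) hm
    (Computable.const 0) ?_
  have h1 : Computable (fun x : α × ℕ × ℕ => max x.2.2 (f x.1 x.2.1)) :=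
    Primrec.nat_max.to_comp.comp (Computable.snd.comp Computable.snd)
      (hf.comp (Computable.fst.pair (Computable.fst.comp Computable.snd)))
  exact h1

end Pool.Agent.Q324.SC
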