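import Pool.Agent.Q324.SC.Comp

set_option autoImplicit false

namespace Pool.Agent.Q324.SC

section

variable {α β : Type*} [Primcodable α] [Primcodable β]

@[fun_prop] theorem piadd {f g : α → ℤ} (hf : Primrec f) (hg : Primrec g) :
    Primrec (fun x => f x + g x) := by
  have h : Primrec (fun x => Int.subNatNat ((f x).toNat + (g x).toNat)
      ((-(f x)).toNat + (-(g x)).toNat)) := by fun_prop
  refine h.of_eq fun x => ?_
  rw [Int.subNatNat_eq_coe]
  push_cast
  omega

@[fun_prop] theorem pisub {f g : α → ℤ} (hf : Primrec f) (hg : Primrec g) :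
    Primrec (fun x => f x - g x) := by
  have h : Primrec (fun x => Int.subNatNat ((f x).toNat + (-(g x)).toNat)
      ((-(f x)).toNat + (g x).toNat)) := by fun_prop
  refine h.of_eq fun x => ?_
  rw [Int.subNatNat_eq_coe]
  push_cast
  omega

@[fun_prop] theorem pimul {f g : α → ℤ} (hf : Primrec f) (hg : Primrec g) :
    Primrec (fun x => f x * g x) := by
  have h : Primrec (fun x => Int.subNatNat
      ((f x).toNat * (g x).toNat + (-(f x)).toNat * (-(g x)).toNat)
      ((f x).toNat * (-(g x)).toNat + (-(f x)).toNat * (g x).toNat)) := by fun_prop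
  refine h.of_eq fun x => ?_
  rw [Int.subNatNat_eq_coe]
  push_cast
  obtain ⟨a, ha⟩ : ∃ a, a = f x := ⟨_, rfl⟩
  obtain ⟨b, hb⟩ : ∃ b, b = g x := ⟨_, rfl⟩
  rw [← ha, ← hb]
  obtain ⟨p, hp⟩ : ∃ p : ℤ, p = ((a.toNat : ℕ) : ℤ) := ⟨_, rfl⟩
  obtain ⟨q, hq⟩ : ∃ q : ℤ, q = (((-a).toNat : ℕ) : ℤ) := ⟨_, rfl⟩
  obtain ⟨r, hr⟩ : ∃ r : ℤ, r = ((b.toNat : ℕ) : ℤ) := ⟨_, rfl⟩
  obtain ⟨s, hs⟩ : ∃ s : ℤ, s = (((-b).toNat : ℕ) : ℤ) := ⟨_, rfl⟩
  have h1 : a = p - q := by omega
  have h2 : b = r - s := by omega
  rw [← hp, ← hq, ← hr, ← hs, h1, h2]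
  ring

@[fun_prop] theorem picast {f : α → ℕ} (hf : Primrec f) : Primrec (fun x => ((f x : ℕ) : ℤ)) := by
  have h : Primrec (fun x => Int.subNatNat (f x) 0) := by fun_prop
  refine h.of_eq fun x => ?_
  rw [Int.subNatNat_eq_coe]
  simp

@[fun_prop] theorem pisum {f : α → List ℤ} (hf : Primrec f) : Primrec (fun a => (f a).sum) := by
  have h : Primrec (fun L : List ℤ => L.foldr (fun t s => t + s) 0) := by
    apply Primrec.list_foldr (h := fun (_ : List ℤ) (p : ℤ × ℤ) => p.1 + p.2)
      Primrec.id (Primrec.const 0)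
    have : Primrec (fun x : List ℤ × ℤ × ℤ => x.2.1 + x.2.2) := by fun_prop
    exact this
  have h2 : Primrec (fun L : List ℤ => L.sum) := h
  exact h2.comp hf

@[fun_prop] theorem pgetD {f : α → List ℤ} {g : α → ℕ} (hf : Primrec f) (hg : Primrec g) :
    Primrec (fun x => (f x).getD (g x) 0) := (Primrec.list_getD (0 : ℤ)).comp hf hg

@[fun_prop] theorem preverse {f : α → List β} (hf : Primrec f) :
    Primrec (fun x => (f x).reverse) := Primrec.list_reverse.comp hf

end

/-- number of the first values that are true -/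
def cnt (f : ℕ → Bool) (m : ℕ) : ℕ :=
  Nat.rec (motive := fun _ => ℕ) 0 (fun k a => bif f k then a + 1 else a) m

lemma cnt_eq (f : ℕ → Bool) (m : ℕ) : cnt f m = ((Finset.range m).filter (fun k => f k = true)).card := by
  induction m with
  | zero => rfl
  | succ m ih =>
    have h1 : cnt f (m + 1) = bif f m then cnt f m + 1 else cnt f m := rfl
    rw [h1, ih, Finset.range_add_one, Finset.filter_insert]
    cases h : f m
    · simp
    · simp

theorem cnt_comp {α : Type*} [Primcodable α] {f : α → ℕ → Bool} {m : α → ℕ}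
    (hf : Computable (fun x : α × ℕ => f x.1 x.2)) (hm : Computable m) :
    Computable (fun a => cnt (f a) (m a)) := by
  refine Computable.nat_rec (f := m) (g := fun _ => 0)
    (h := fun a p => bif f a p.1 then p.2 + 1 else p.2) hm (Computable.const 0) ?_
  have h1 : Computable (fun x : α × ℕ × ℕ => bif f x.1 x.2.1 then x.2.2 + 1 else x.2.2) :=
    Computable.cond (hf.comp (Computable.fst.pair (Computable.fst.comp Computable.snd)))
      (Computable.succ.comp (Computable.snd.comp Computable.snd))
      (Computable.snd.comp Computable.snd)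
  exact h1

/-- Majority vote. -/
lemma majority {N w : ℕ} {f : ℕ → Bool} {b : Bool}
    (hw : ((Finset.range N).filter (fun k => f k ≠ b)).card ≤ w) (h : 2 * w < N) :
    (N < 2 * cnt f N) ↔ b = true := by
  rw [cnt_eq]
  cases b
  · have h2 : (Finset.range N).filter (fun k => f k ≠ false)
      = (Finset.range N).filter (fun k => f k = true) := by
      refine Finset.filter_congr fun k _ => ?_
      cases f k <;> simp
    rw [h2] at hw
    simp only [Bool.false_eq_true, iff_false]
    omega
  · have h1 := Finset.card_filter_add_card_filter_not (s := Finset.range N) (fun k => f k = true)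
    rw [Finset.card_range] at h1
    have h2 : (Finset.range N).filter (fun k => f k ≠ true)
      = (Finset.range N).filter (fun k => ¬ f k = true) := rfl
    rw [h2] at hw
    simp only [iff_true]
    omega

end Pool.Agent.Q324.SC
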