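import Mathlib
import Pool.Agent.Q324.SC.Comp
import Pool.Agent.Q324.SC.IntOps

/-!
# Stellar subdivisions of facets, combinatorially

A pure complex is given by the list of its facets. The subdivision of a facet is computable, it can
be undone, and there are many different iterated subdivisions.
-/

set_option autoImplicit false

namespace Pool.Agent.Q324.SC.Tri

open Nat

/-- A complex, given by the list of its facets. -/
abbrev Cx : Type := List (List ℕ)

/-- the maximum of a list -/
def fm (l : List ℕ) : ℕ := l.foldr max 0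

lemma le_fm {l : List ℕ} {i : ℕ} (h : i ∈ l) : i ≤ fm l := by
  induction l with
  | nil => simp at h
  | cons a l ih =>
    have e : fm (a :: l) = max a (fm l) := rfl
    rcases List.mem_cons.1 h with h | h
    · rw [e, h]; exact le_max_left _ _
    · rw [e]; exact (ih h).trans (le_max_right _ _)

lemma fm_mem {l : List ℕ} (h : l ≠ []) : fm l ∈ l := by
  induction l with
  | nil => simp at h
  | cons a l ih =>
    have e : fm (a :: l) = max a (fm l) := rfl
    rcases eq_or_ne l [] with h1 | h1
    · rw [e, h1]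
      simp [fm]
    · rcases max_choice a (fm l) with h2 | h2
      · rw [e, h2]; exact List.mem_cons_self
      · rw [e, h2]; exact List.mem_cons_of_mem _ (ih h1)

/-- The smallest number that is larger than all vertices. -/
def top (K : Cx) : ℕ := fm K.flatten + 1

lemma lt_top {K : Cx} {s : List ℕ} {i : ℕ} (hs : s ∈ K) (hi : i ∈ s) : i < top K :=
  Nat.lt_succ_of_le (le_fm (List.mem_flatten.2 ⟨s, hs, hi⟩))

/-- The facet `s` with `u` replaced by the new vertex `v`. -/
def cone (s : List ℕ) (v u : ℕ) : List ℕ := s.filter (fun w => w != u) ++ [v]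

lemma mem_cone {s : List ℕ} {v u w : ℕ} : w ∈ cone s v u ↔ (w ∈ s ∧ w ≠ u) ∨ w = v := by
  simp [cone]

/-- The stellar subdivision of the facet with the number `c`. -/
def sub (K : Cx) (c : ℕ) : Cx := (List.range K.length).flatMap fun i =>
  bif decide (i = c) then (K.getD i []).map (cone (K.getD i []) (top K)) else [K.getD i []]

/-- A pure 4-dimensional complex with vertex set `{0, ..., n - 1}`, given by the list of its facets:
the facets are pairwise different, and each facet is the increasing list of its five vertices. -/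
structure Valid (K : Cx) : Prop where
  ne : K ≠ []
  nodup : K.Nodup
  sorted : ∀ s ∈ K, s.Pairwise (· < ·)
  len : ∀ s ∈ K, s.length = 5
  seg : ∀ s ∈ K, ∀ i ∈ s, ∀ j < i, ∃ t ∈ K, j ∈ t

lemma getD_mem {K : Cx} {c : ℕ} (h : c < K.length) : K.getD c [] ∈ K := by
  rw [List.getD_eq_getElem _ _ h]
  exact List.getElem_mem h

lemma getD_inj {K : Cx} (hK : K.Nodup) {c c' : ℕ} (h : c < K.length) (h' : c' < K.length)
    (e : K.getD c [] = K.getD c' []) : c = c' := by
  rw [List.getD_eq_getElem _ _ h, List.getD_eq_getElem _ _ h'] at e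
  exact (hK.getElem_inj_iff).1 e

lemma mem_sub {K : Cx} (hK : K.Nodup) {c : ℕ} (hc : c < K.length) {t : List ℕ} :
    t ∈ sub K c ↔ (t ∈ K ∧ t ≠ K.getD c []) ∨
      ∃ u ∈ K.getD c [], t = cone (K.getD c []) (top K) u := by
  unfold sub
  rw [List.mem_flatMap]
  constructor
  · rintro ⟨i, hi, ht⟩
    rw [List.mem_range] at hi
    by_cases h : i = c
    · subst h
      simp only [decide_true, cond_true, List.mem_map] at ht
      obtain ⟨u, hu, rfl⟩ := ht
      exact Or.inr ⟨u, hu, rfl⟩
    · simp only [h, decide_false, cond_false, List.mem_singleton] at ht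
      subst ht
      exact Or.inl ⟨getD_mem hi, fun e => h (getD_inj hK hi hc e)⟩
  · rintro (⟨h1, h2⟩ | ⟨u, hu, rfl⟩)
    · obtain ⟨i, hi, rfl⟩ := List.getElem_of_mem h1
      refine ⟨i, List.mem_range.2 hi, ?_⟩
      have h3 : i ≠ c := by
        rintro rfl
        exact h2 (List.getD_eq_getElem _ _ hi).symm
      simp only [h3, decide_false, cond_false, List.mem_singleton]
      exact (List.getD_eq_getElem _ _ hi).symm
    · refine ⟨c, List.mem_range.2 hc, ?_⟩
      simp only [decide_true, cond_true, List.mem_map]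
      exact ⟨u, hu, rfl⟩

lemma five {s : List ℕ} (h5 : s.length = 5) (hs : s.Nodup) (j : ℕ) : ∃ u ∈ s, u ≠ j := by
  by_contra hc
  push Not at hc
  rcases s with _ | ⟨a, _ | ⟨b, s⟩⟩
  · simp at h5
  · simp at h5
  · have h1 := hc a (by simp)
    have h2 := hc b (by simp)
    rw [h1, h2] at hs
    simp at hs

lemma cover {K : Cx} (hK : Valid K) {c : ℕ} (hc : c < K.length) {j : ℕ} {t : List ℕ} (ht : t ∈ K)
    (hj : j ∈ t) : ∃ t' ∈ sub K c, j ∈ t' := by
  by_cases h : t = K.getD c []
  · subst h
    obtain ⟨u, hu, huj⟩ := five (hK.len _ ht) ((hK.sorted _ ht).imp ne_of_lt) j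
    exact ⟨_, (mem_sub hK.nodup hc).2 (Or.inr ⟨u, hu, rfl⟩), mem_cone.2 (Or.inl ⟨hj, huj.symm⟩)⟩
  · exact ⟨t, (mem_sub hK.nodup hc).2 (Or.inl ⟨ht, h⟩), hj⟩

lemma cone_sorted {s : List ℕ} {v u : ℕ} (hs : s.Pairwise (· < ·)) (hv : ∀ w ∈ s, w < v) :
    (cone s v u).Pairwise (· < ·) := by
  unfold cone
  rw [List.pairwise_append]
  refine ⟨hs.filter _, by simp, ?_⟩
  intro a ha b hb
  rw [List.mem_singleton] at hb
  rw [hb]
  exact hv a (List.mem_of_mem_filter ha)

lemma cone_length {s : List ℕ} {v u : ℕ} (hs : s.Nodup) (hu : u ∈ s) :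
    (cone s v u).length = s.length := by
  unfold cone
  rw [List.length_append, ← hs.erase_eq_filter, List.length_erase_of_mem hu, List.length_singleton]
  have := List.length_pos_of_mem hu
  omega

lemma cone_inj {s : List ℕ} {v u u' : ℕ} (hu : u ∈ s) (hv : u ≠ v)
    (h : cone s v u = cone s v u') : u = u' := by
  by_contra hne
  have h1 : u ∈ cone s v u' := mem_cone.2 (Or.inl ⟨hu, hne⟩)
  rw [← h, mem_cone] at h1
  rcases h1 with h1 | h1
  · exact h1.2 rfl
  · exact hv h1

lemma top_mem {K : Cx} (hK : Valid K) {j : ℕ} (hj : j < top K) : ∃ t ∈ K, j ∈ t := by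
  have h1 : K.flatten ≠ [] := by
    obtain ⟨s, hs⟩ := List.exists_mem_of_ne_nil _ hK.ne
    obtain ⟨u, hu, _⟩ := five (hK.len _ hs) ((hK.sorted _ hs).imp ne_of_lt) 0
    exact List.ne_nil_of_mem (List.mem_flatten.2 ⟨s, hs, hu⟩)
  obtain ⟨s, hs, hm⟩ := List.mem_flatten.1 (fm_mem h1)
  rcases Nat.lt_or_ge j (fm K.flatten) with h | h
  · exact hK.seg s hs _ hm _ h
  · have : j = fm K.flatten := by unfold top at hj; omega
    exact ⟨s, hs, this ▸ hm⟩

lemma sub_valid {K : Cx} (hK : Valid K) {c : ℕ} (hc : c < K.length) : Valid (sub K c) := by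
  have hS := getD_mem hc
  have hSn : (K.getD c []).Nodup := (hK.sorted _ hS).imp ne_of_lt
  have hv : ∀ w ∈ K.getD c [], w < top K := fun w hw => lt_top hS hw
  refine ⟨?_, ?_, ?_, ?_, ?_⟩
  · obtain ⟨u, hu, _⟩ := five (hK.len _ hS) hSn 0
    exact List.ne_nil_of_mem ((mem_sub hK.nodup hc).2 (Or.inr ⟨u, hu, rfl⟩))
  · unfold sub
    rw [List.nodup_flatMap]
    constructor
    · intro i hi
      rw [List.mem_range] at hi
      by_cases h : i = c
      · subst h
        simp only [decide_true, cond_true]
        refine List.Nodup.map_on ?_ hSn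
        intro u hu u' _ e
        exact cone_inj hu (hv u hu).ne e
      · simp [h]
    · have h1 : (List.range K.length).Pairwise (fun a b => a < b ∧ b < K.length) := by
        rw [List.pairwise_iff_getElem]
        intro a b ha hb hab
        simp only [List.getElem_range]
        exact ⟨hab, by simpa using hb⟩
      refine h1.imp ?_
      rintro i j ⟨hij, hj⟩
      rw [Function.onFun, List.disjoint_left]
      intro t h2 h3
      by_cases hi : i = c
      · subst hi
        have hjc : j ≠ i := by omega
        simp only [decide_true, cond_true, List.mem_map] at h2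
        simp only [hjc, decide_false, cond_false, List.mem_singleton] at h3
        obtain ⟨u, hu, rfl⟩ := h2
        have h4 : top K ∈ K.getD j [] := by
          rw [← h3]
          exact mem_cone.2 (Or.inr rfl)
        exact absurd (lt_top (getD_mem hj) h4) (lt_irrefl _)
      · simp only [hi, decide_false, cond_false, List.mem_singleton] at h2
        by_cases hjc : j = c
        · subst hjc
          simp only [decide_true, cond_true, List.mem_map] at h3
          obtain ⟨u, hu, rfl⟩ := h3
          have h4 : top K ∈ K.getD i [] := by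
            rw [← h2]
            exact mem_cone.2 (Or.inr rfl)
          exact absurd (lt_top (getD_mem (by omega)) h4) (lt_irrefl _)
        · simp only [hjc, decide_false, cond_false, List.mem_singleton] at h3
          have := getD_inj hK.nodup (by omega) hj (h2.symm.trans h3)
          omega
  · intro t ht
    rcases (mem_sub hK.nodup hc).1 ht with h | ⟨u, _, rfl⟩
    · exact hK.sorted _ h.1
    · exact cone_sorted (hK.sorted _ hS) hv
  · intro t ht
    rcases (mem_sub hK.nodup hc).1 ht with h | ⟨u, hu, rfl⟩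
    · exact hK.len _ h.1
    · rw [cone_length hSn hu]
      exact hK.len _ hS
  · intro t ht i hi j hj
    have h1 : ∃ t ∈ K, j ∈ t := by
      rcases (mem_sub hK.nodup hc).1 ht with h | ⟨u, hu, rfl⟩
      · exact hK.seg _ h.1 i hi j hj
      · rcases mem_cone.1 hi with h2 | h2
        · exact hK.seg _ hS i h2.1 j hj
        · rw [h2] at hj
          exact top_mem hK hj
    obtain ⟨t', ht', hj'⟩ := h1
    exact cover hK hc ht' hj'

lemma sub_length {K : Cx} (hK : Valid K) {c : ℕ} (hc : c < K.length) :
    (sub K c).length = K.length + 4 := by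
  have h5 := hK.len _ (getD_mem hc)
  unfold sub
  rw [List.length_flatMap]
  have h1 : ∀ n, ((List.range n).map fun i => (bif decide (i = c) then
      (K.getD i []).map (cone (K.getD i []) (top K)) else [K.getD i []]).length).sum
      = n + if c < n then 4 else 0 := by
    intro n
    induction n with
    | zero => simp
    | succ n ih =>
      rw [List.range_succ, List.map_append, List.sum_append, ih]
      clear ih
      by_cases h : n = c
      · have h3 : ¬ c < n := by omega
        have h4 : c < n + 1 := by omega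
        rw [if_neg h3, if_pos h4]
        subst h
        rw [List.getD_eq_getElem?_getD] at h5
        simp [h5]
      · have h2 : (c < n + 1) ↔ (c < n) := by omega
        simp only [h2]
        simp [h]
        split_ifs <;> omega
  rw [h1, if_pos hc]

lemma top_congr {K L : Cx} (h : K.toFinset = L.toFinset) : top K = top L := by
  have key : ∀ {K L : Cx}, K.toFinset = L.toFinset → fm K.flatten ≤ fm L.flatten := by
    intro K L h
    rcases eq_or_ne K.flatten [] with h1 | h1
    · rw [h1]; exact Nat.zero_le _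
    · obtain ⟨s, hs, hm⟩ := List.mem_flatten.1 (fm_mem h1)
      have : s ∈ L.toFinset := h ▸ List.mem_toFinset.2 hs
      exact le_fm (List.mem_flatten.2 ⟨s, List.mem_toFinset.1 this, hm⟩)
  unfold top
  rw [le_antisymm (key h) (key h.symm)]

lemma top_sub {K : Cx} (hK : Valid K) {c : ℕ} (hc : c < K.length) : top (sub K c) = top K + 1 := by
  have hS := getD_mem hc
  obtain ⟨u, hu, _⟩ := five (hK.len _ hS) ((hK.sorted _ hS).imp ne_of_lt) 0
  have h1 : top K < top (sub K c) :=
    lt_top ((mem_sub hK.nodup hc).2 (Or.inr ⟨u, hu, rfl⟩)) (mem_cone.2 (Or.inr rfl))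
  have h2 : fm (sub K c).flatten ≤ top K := by
    have h3 : (sub K c).flatten ≠ [] :=
      List.ne_nil_of_mem (List.mem_flatten.2
        ⟨_, (mem_sub hK.nodup hc).2 (Or.inr ⟨u, hu, rfl⟩), mem_cone.2 (Or.inr rfl)⟩)
    obtain ⟨s, hs, hm⟩ := List.mem_flatten.1 (fm_mem h3)
    rcases (mem_sub hK.nodup hc).1 hs with h | ⟨w, hw, rfl⟩
    · exact (lt_top h.1 hm).le
    · rcases mem_cone.1 hm with h | h
      · exact (lt_top hS h.1).le
      · exact h.le
  unfold top at *
  omega

lemma eq_of_same {s t : List ℕ} (hs : s.Pairwise (· < ·)) (ht : t.Pairwise (· < ·))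
    (h : ∀ x, x ∈ s ↔ x ∈ t) : s = t := by
  refine List.Perm.eq_of_pairwise (le := (· < ·)) ?_ hs ht
    ((List.perm_ext_iff_of_nodup (hs.imp ne_of_lt) (ht.imp ne_of_lt)).2 h)
  intro a b _ _ h1 h2
  exact absurd h1 (lt_asymm h2)

/-- The last subdivision can be read off. -/
lemma sub_inj {K L : Cx} (hK : Valid K) (hL : Valid L) {c c' : ℕ} (hc : c < K.length)
    (hc' : c' < L.length) (h : (sub K c).toFinset = (sub L c').toFinset) :
    K.toFinset = L.toFinset ∧ K.getD c [] = L.getD c' [] := by
  have hv : top K = top L := by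
    have := top_congr h
    rw [top_sub hK hc, top_sub hL hc'] at this
    omega
  have hm : ∀ t, t ∈ sub K c ↔ t ∈ sub L c' := by
    intro t
    rw [← List.mem_toFinset, h, List.mem_toFinset]
  have key : ∀ {K L : Cx} {c c' : ℕ}, Valid K → Valid L → c < K.length → c' < L.length →
      top K = top L → (∀ t, t ∈ sub K c → t ∈ sub L c') →
      ∀ w, w ∈ K.getD c [] → w ∈ L.getD c' [] := by
    intro K L c c' hK hL hc hc' hv hm w hw
    have hS := getD_mem hc
    obtain ⟨u, hu, huw⟩ := five (hK.len _ hS) ((hK.sorted _ hS).imp ne_of_lt) w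
    have h1 := hm _ ((mem_sub hK.nodup hc).2 (Or.inr ⟨u, hu, rfl⟩))
    have h2 : top L ∈ cone (K.getD c []) (top K) u := mem_cone.2 (Or.inr hv.symm)
    have h3 : w ∈ cone (K.getD c []) (top K) u := mem_cone.2 (Or.inl ⟨hw, huw.symm⟩)
    rcases (mem_sub hL.nodup hc').1 h1 with h4 | ⟨u', hu', h4⟩
    · exact absurd (lt_top h4.1 h2) (lt_irrefl _)
    · rw [h4, mem_cone] at h3
      rcases h3 with h3 | h3
      · exact h3.1
      · exact absurd h3 (by rw [← hv]; exact (lt_top hS hw).ne)
  have hS : K.getD c [] = L.getD c' [] :=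
    eq_of_same (hK.sorted _ (getD_mem hc)) (hL.sorted _ (getD_mem hc')) fun x =>
      ⟨key hK hL hc hc' hv (fun t => (hm t).1) x, key hL hK hc' hc hv.symm (fun t => (hm t).2) x⟩
  refine ⟨?_, hS⟩
  have key2 : ∀ {K L : Cx} {c c' : ℕ}, Valid K → Valid L → c < K.length → c' < L.length →
      top K = top L → (∀ t, t ∈ sub K c → t ∈ sub L c') → K.getD c [] = L.getD c' [] →
      ∀ t, t ∈ K → t ∈ L := by
    intro K L c c' hK hL hc hc' hv hm hS t ht
    by_cases h1 : t = K.getD c []
    · rw [h1, hS]
      exact getD_mem hc'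
    · rcases (mem_sub hL.nodup hc').1 (hm t ((mem_sub hK.nodup hc).2 (Or.inl ⟨ht, h1⟩))) with h2 | ⟨u, _, h2⟩
      · exact h2.1
      · have h3 : top K ∈ t := by
          rw [h2, hv]
          exact mem_cone.2 (Or.inr rfl)
        exact absurd (lt_top ht h3) (lt_irrefl _)
  ext t
  rw [List.mem_toFinset, List.mem_toFinset]
  exact ⟨key2 hK hL hc hc' hv (fun t => (hm t).1) hS t,
    key2 hL hK hc' hc hv.symm (fun t => (hm t).2) hS.symm t⟩

/-- One step of the iteration. -/
def step (x : Cx × ℕ) : Cx × ℕ := (sub x.1 (x.2 % x.1.length), x.2 / x.1.length)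

/-- The `m`-fold subdivision with code `k`. -/
def desc (K : Cx) (m k : ℕ) : Cx × ℕ := (fun x => step x)^[m] (K, k)

lemma desc_succ (K : Cx) (m k : ℕ) : desc K (m + 1) k = step (desc K m k) := by
  unfold desc
  rw [Function.iterate_succ_apply']

/-- The number of the codes. -/
def P (f m : ℕ) : ℕ := Nat.rec (motive := fun _ => ℕ) 1 (fun i a => a * (f + 4 * i)) m

lemma P_succ (f m : ℕ) : P f (m + 1) = P f m * (f + 4 * m) := rfl

lemma desc_basic {K : Cx} (hK : Valid K) (m k : ℕ) : Valid (desc K m k).1 ∧
    (desc K m k).1.length = K.length + 4 * m ∧ (desc K m k).2 = k / P K.length m := by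
  induction m with
  | zero => exact ⟨hK, rfl, by simp [desc, P]⟩
  | succ m ih =>
    obtain ⟨h1, h2, h3⟩ := ih
    rw [desc_succ]
    have hc : (desc K m k).2 % (desc K m k).1.length < (desc K m k).1.length := by
      refine Nat.mod_lt _ ?_
      exact List.length_pos_iff.2 h1.ne
    refine ⟨sub_valid h1 hc, ?_, ?_⟩
    · have h4 : (step (desc K m k)).1.length = (desc K m k).1.length + 4 := sub_length h1 hc
      rw [h4, h2]
      ring
    · have h4 : (step (desc K m k)).2 = (desc K m k).2 / (desc K m k).1.length := rfl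
      rw [h4, h2, h3, P_succ, Nat.div_div_eq_div_mul]

/-- Different codes give different complexes. -/
lemma desc_inj {K : Cx} (hK : Valid K) (m : ℕ) : ∀ k k',
    (desc K m k).1.toFinset = (desc K m k').1.toFinset →
    k % P K.length m = k' % P K.length m ∧ (desc K m k).1 = (desc K m k').1 := by
  induction m with
  | zero => intro k k' _; exact ⟨by simp [P, Nat.mod_one], rfl⟩
  | succ m ih =>
    intro k k' h
    obtain ⟨h1, h2, h3⟩ := desc_basic hK m k
    obtain ⟨h1', h2', h3'⟩ := desc_basic hK m k'
    rw [desc_succ, desc_succ] at h ⊢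
    have hc : (desc K m k).2 % (desc K m k).1.length < (desc K m k).1.length :=
      Nat.mod_lt _ (List.length_pos_iff.2 h1.ne)
    have hc' : (desc K m k').2 % (desc K m k').1.length < (desc K m k').1.length :=
      Nat.mod_lt _ (List.length_pos_iff.2 h1'.ne)
    obtain ⟨h4, h5⟩ := sub_inj h1 h1' hc hc' h
    obtain ⟨h6, h7⟩ := ih k k' h4
    have h8 : (desc K m k).2 % (desc K m k).1.length = (desc K m k').2 % (desc K m k').1.length := by
      rw [← h7] at h5 hc' ⊢
      exact getD_inj h1.nodup hc hc' h5
    constructor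
    · rw [h2, h2', h3, h3'] at h8
      rw [P_succ, Nat.mod_mul, Nat.mod_mul, h6, h8]
    · show sub _ _ = sub _ _
      rw [h8, h7]

end Pool.Agent.Q324.SC.Tri
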