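import Mathlib
import Pool.Agent.Q324.SC.TriComb

/-!
# Stellar subdivisions of facets, geometrically
-/

set_option autoImplicit false

namespace Pool.Agent.Q324.SC.Tri

open Set

/-- The geometric realization, as in the frozen statement. -/
def Real (K : Cx) : Set (ℕ → ℝ) :=
  {x : ℕ → ℝ | ∃ σ ∈ K, (∀ i, 0 ≤ x i) ∧ (∀ i, i ∉ σ → x i = 0) ∧ ∑ i ∈ σ.toFinset, x i = 1}

/-- From the subdivision to the complex. -/
noncomputable def phi (S : Finset ℕ) (v : ℕ) (x : ℕ → ℝ) : ℕ → ℝ := fun i =>
  if i = v then 0 else if i ∈ S then x i + x v / 5 else x i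

/-- the smallest coordinate -/
noncomputable def mu (S : Finset ℕ) (hS : S.Nonempty) (y : ℕ → ℝ) : ℝ := S.inf' hS y

/-- From the complex to its subdivision. -/
noncomputable def psi (S : Finset ℕ) (hS : S.Nonempty) (v : ℕ) (y : ℕ → ℝ) : ℕ → ℝ := fun i =>
  if i = v then 5 * mu S hS y else if i ∈ S then y i - mu S hS y else y i

lemma phi_cont (S : Finset ℕ) (v : ℕ) : Continuous (phi S v) := by
  refine continuous_pi fun i => ?_
  unfold phi
  split_ifs <;> fun_prop

lemma mu_cont (S : Finset ℕ) (hS : S.Nonempty) : Continuous (mu S hS) := by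
  unfold mu
  exact Continuous.finset_inf'_apply hS fun i _ => continuous_apply i

lemma psi_cont (S : Finset ℕ) (hS : S.Nonempty) (v : ℕ) : Continuous (psi S hS v) := by
  refine continuous_pi fun i => ?_
  have := mu_cont S hS
  unfold psi
  split_ifs <;> fun_prop

lemma mu_le {S : Finset ℕ} {hS : S.Nonempty} {y : ℕ → ℝ} {i : ℕ} (hi : i ∈ S) :
    mu S hS y ≤ y i := Finset.inf'_le _ hi

lemma mu_eq_zero {S : Finset ℕ} {hS : S.Nonempty} {y : ℕ → ℝ} (h0 : ∀ i, 0 ≤ y i) {i : ℕ}
    (hi : i ∈ S) (h : y i = 0) : mu S hS y = 0 :=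
  le_antisymm (h ▸ mu_le hi) (Finset.le_inf' _ _ fun j _ => h0 j)

lemma exists_mu {S : Finset ℕ} (hS : S.Nonempty) (y : ℕ → ℝ) : ∃ u ∈ S, y u = mu S hS y := by
  obtain ⟨u, hu, h⟩ := Finset.exists_mem_eq_inf' hS y
  exact ⟨u, hu, h.symm⟩

/-- Two facets of the same size: one has a vertex which the other one does not have. -/
lemma exists_missing {s t : List ℕ} (hs : s.Pairwise (· < ·)) (ht : t.Pairwise (· < ·))
    (hst : s.length = t.length) (hne : t ≠ s) : ∃ u ∈ s, u ∉ t := by
  by_contra hc
  push Not at hc
  apply hne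
  have h1 : s.toFinset ⊆ t.toFinset := fun x hx => List.mem_toFinset.2 (hc x (List.mem_toFinset.1 hx))
  have h2 : s.toFinset = t.toFinset := by
    refine Finset.eq_of_subset_of_card_le h1 ?_
    rw [List.toFinset_card_of_nodup (hs.imp ne_of_lt), List.toFinset_card_of_nodup (ht.imp ne_of_lt),
      hst]
  refine (eq_of_same hs ht fun x => ?_).symm
  rw [← List.mem_toFinset, h2, List.mem_toFinset]

section
variable {K : Cx} (hK : Valid K) {c : ℕ} (hc : c < K.length)
include hK hc

lemma facet_ne : (K.getD c []).toFinset.Nonempty := by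
  obtain ⟨u, hu, _⟩ := five (hK.len _ (getD_mem hc)) ((hK.sorted _ (getD_mem hc)).imp ne_of_lt) 0
  exact ⟨u, List.mem_toFinset.2 hu⟩

lemma facet_card : (K.getD c []).toFinset.card = 5 := by
  rw [List.toFinset_card_of_nodup ((hK.sorted _ (getD_mem hc)).imp ne_of_lt)]
  exact hK.len _ (getD_mem hc)

lemma top_notin {t : List ℕ} (ht : t ∈ K) : top K ∉ t := fun h => absurd (lt_top ht h) (lt_irrefl _)

lemma real_top {y : ℕ → ℝ} (hy : y ∈ Real K) : y (top K) = 0 := by
  obtain ⟨t, ht, _, h2, _⟩ := hy
  exact h2 _ (top_notin hK hc ht)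

/-- a point of the subdivision has a vanishing coordinate at the facet -/
lemma sub_zero {x : ℕ → ℝ} (hx : x ∈ Real (sub K c)) : ∃ u ∈ (K.getD c []).toFinset, x u = 0 := by
  obtain ⟨t, ht, _, h2, _⟩ := hx
  have hS := getD_mem hc
  rcases (mem_sub hK.nodup hc).1 ht with h | ⟨u, hu, rfl⟩
  · obtain ⟨u, hu, hut⟩ := exists_missing (hK.sorted _ hS) (hK.sorted _ h.1)
      ((hK.len _ hS).trans (hK.len _ h.1).symm) h.2
    exact ⟨u, List.mem_toFinset.2 hu, h2 u hut⟩
  · refine ⟨u, List.mem_toFinset.2 hu, h2 u ?_⟩
    rw [mem_cone]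
    rintro (h3 | h3)
    · exact h3.2 rfl
    · exact absurd h3 (lt_top hS hu).ne

lemma phi_mem {x : ℕ → ℝ} (hx : x ∈ Real (sub K c)) :
    phi (K.getD c []).toFinset (top K) x ∈ Real K := by
  obtain ⟨t, ht, h1, h2, h3⟩ := hx
  have hS := getD_mem hc
  rcases (mem_sub hK.nodup hc).1 ht with h | ⟨u, hu, rfl⟩
  · have h4 : x (top K) = 0 := h2 _ (top_notin hK hc h.1)
    have h5 : phi (K.getD c []).toFinset (top K) x = x := by
      funext i
      unfold phi
      split_ifs with g1 g2
      · rw [g1, h4]
      · rw [h4]; ring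
      · rfl
    rw [h5]
    exact ⟨t, h.1, h1, h2, h3⟩
  · refine ⟨_, hS, ?_, ?_, ?_⟩
    · intro i
      unfold phi
      have := h1 (top K)
      have := h1 i
      split_ifs <;> positivity
    · intro i hi
      unfold phi
      split_ifs with g1 g2
      · rfl
      · exact absurd (List.mem_toFinset.1 g2) hi
      · refine h2 i ?_
        rw [mem_cone]
        rintro (h4 | h4)
        · exact hi h4.1
        · exact g1 h4
    · have hxu : x u = 0 := by
        refine h2 u ?_
        rw [mem_cone]
        rintro (h4 | h4)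
        · exact h4.2 rfl
        · exact absurd h4 (lt_top hS hu).ne
      have e1 : ∑ i ∈ (K.getD c []).toFinset, phi (K.getD c []).toFinset (top K) x i
          = ∑ i ∈ (K.getD c []).toFinset, (x i + x (top K) / 5) := by
        refine Finset.sum_congr rfl fun i hi => ?_
        unfold phi
        rw [if_neg (lt_top hS (List.mem_toFinset.1 hi)).ne, if_pos hi]
      rw [e1, Finset.sum_add_distrib, Finset.sum_const, facet_card hK hc]
      have e2 : (cone (K.getD c []) (top K) u).toFinset
          = insert (top K) ((K.getD c []).toFinset.erase u) := by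
        ext i
        rw [List.mem_toFinset, mem_cone, Finset.mem_insert, Finset.mem_erase, List.mem_toFinset]
        tauto
      rw [e2, Finset.sum_insert ?_] at h3
      · have e3 := Finset.add_sum_erase (K.getD c []).toFinset x (List.mem_toFinset.2 hu)
        rw [hxu, zero_add] at e3
        rw [e3] at h3
        rw [← h3]
        simp only [nsmul_eq_mul]
        push_cast
        ring
      · rw [Finset.mem_erase, List.mem_toFinset]
        exact fun h4 => top_notin hK hc hS h4.2

lemma psi_mem {y : ℕ → ℝ} (hy : y ∈ Real K) :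
    psi (K.getD c []).toFinset (facet_ne hK hc) (top K) y ∈ Real (sub K c) := by
  have hv := real_top hK hc hy
  obtain ⟨t, ht, h1, h2, h3⟩ := hy
  have hS := getD_mem hc
  by_cases hts : t = K.getD c []
  · subst hts
    obtain ⟨u, hu, hmu⟩ := exists_mu (facet_ne hK hc) y
    obtain ⟨μ, hμ⟩ : ∃ μ, μ = mu (K.getD c []).toFinset (facet_ne hK hc) y := ⟨_, rfl⟩
    rw [← hμ] at hmu
    have hle : ∀ i ∈ K.getD c [], μ ≤ y i := fun i hi => hμ ▸ mu_le (List.mem_toFinset.2 hi)
    have hu' := List.mem_toFinset.1 hu
    refine ⟨_, (mem_sub hK.nodup hc).2 (Or.inr ⟨u, hu', rfl⟩), ?_, ?_, ?_⟩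
    · intro i
      unfold psi
      rw [← hμ]
      split_ifs with g1 g2
      · have := h1 u
        rw [← hmu]
        positivity
      · have := hle i (List.mem_toFinset.1 g2)
        linarith
      · exact h1 i
    · intro i hi
      rw [mem_cone] at hi
      push Not at hi
      unfold psi
      rw [← hμ, if_neg hi.2]
      split_ifs with g2
      · have : i = u := hi.1 (List.mem_toFinset.1 g2)
        rw [this, hmu]
        ring
      · exact h2 i fun h => g2 (List.mem_toFinset.2 h)
    · have e2 : (cone (K.getD c []) (top K) u).toFinset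
          = insert (top K) ((K.getD c []).toFinset.erase u) := by
        ext i
        rw [List.mem_toFinset, mem_cone, Finset.mem_insert, Finset.mem_erase, List.mem_toFinset]
        tauto
      rw [e2, Finset.sum_insert]
      · have e4 : ∑ i ∈ (K.getD c []).toFinset.erase u,
            psi (K.getD c []).toFinset (facet_ne hK hc) (top K) y i
            = ∑ i ∈ (K.getD c []).toFinset.erase u, (y i - μ) := by
          refine Finset.sum_congr rfl fun i hi => ?_
          have hi' := Finset.mem_of_mem_erase hi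
          unfold psi
          rw [if_neg (lt_top hS (List.mem_toFinset.1 hi')).ne, if_pos hi', ← hμ]
        rw [e4, Finset.sum_sub_distrib, Finset.sum_const, Finset.card_erase_of_mem hu,
          facet_card hK hc]
        have e3 := Finset.add_sum_erase (K.getD c []).toFinset y hu
        rw [hmu, h3] at e3
        unfold psi
        rw [if_pos rfl, ← hμ]
        simp only [nsmul_eq_mul]
        push_cast
        linarith
      · rw [Finset.mem_erase, List.mem_toFinset]
        exact fun h4 => top_notin hK hc hS h4.2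
  · obtain ⟨u, hu, hut⟩ := exists_missing (hK.sorted _ hS) (hK.sorted _ ht)
      ((hK.len _ hS).trans (hK.len _ ht).symm) hts
    have h4 : mu (K.getD c []).toFinset (facet_ne hK hc) y = 0 :=
      mu_eq_zero h1 (List.mem_toFinset.2 hu) (h2 u hut)
    have h5 : psi (K.getD c []).toFinset (facet_ne hK hc) (top K) y = y := by
      funext i
      unfold psi
      rw [h4]
      split_ifs with g1 g2
      · rw [g1, hv]; ring
      · ring
      · rfl
    rw [h5]
    exact ⟨t, (mem_sub hK.nodup hc).2 (Or.inl ⟨ht, hts⟩), h1, h2, h3⟩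

lemma phi_psi {y : ℕ → ℝ} (hy : y ∈ Real K) :
    phi (K.getD c []).toFinset (top K)
      (psi (K.getD c []).toFinset (facet_ne hK hc) (top K) y) = y := by
  have hv := real_top hK hc hy
  funext i
  unfold phi
  split_ifs with g1 g2
  · rw [g1, hv]
  · unfold psi
    rw [if_neg g1, if_pos g2, if_pos rfl]
    ring
  · unfold psi
    rw [if_neg g1, if_neg g2]

lemma psi_phi {x : ℕ → ℝ} (hx : x ∈ Real (sub K c)) :
    psi (K.getD c []).toFinset (facet_ne hK hc) (top K)
      (phi (K.getD c []).toFinset (top K) x) = x := by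
  obtain ⟨u, hu, hxu⟩ := sub_zero hK hc hx
  obtain ⟨_, _, h1, _, _⟩ := hx
  have hS := getD_mem hc
  have hne : ∀ i ∈ (K.getD c []).toFinset, i ≠ top K :=
    fun i hi => (lt_top hS (List.mem_toFinset.1 hi)).ne
  have h4 : mu (K.getD c []).toFinset (facet_ne hK hc)
      (phi (K.getD c []).toFinset (top K) x) = x (top K) / 5 := by
    refine le_antisymm ?_ ?_
    · refine (mu_le hu).trans ?_
      unfold phi
      rw [if_neg (hne u hu), if_pos hu, hxu, zero_add]
    · refine Finset.le_inf' _ _ fun i hi => ?_
      unfold phi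
      rw [if_neg (hne i hi), if_pos hi]
      have := h1 i
      linarith
  funext i
  unfold psi
  rw [h4]
  split_ifs with g1 g2
  · rw [g1]; ring
  · unfold phi
    rw [if_neg g1, if_pos g2]
    ring
  · unfold phi
    rw [if_neg g1, if_neg g2]

/-- The subdivision does not change the space. -/
noncomputable def subHomeo : Real (sub K c) ≃ₜ Real K where
  toFun x := ⟨phi (K.getD c []).toFinset (top K) x.1, phi_mem hK hc x.2⟩
  invFun y := ⟨psi (K.getD c []).toFinset (facet_ne hK hc) (top K) y.1, psi_mem hK hc y.2⟩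
  left_inv x := Subtype.ext (psi_phi hK hc x.2)
  right_inv y := Subtype.ext (phi_psi hK hc y.2)
  continuous_toFun := by
    exact ((phi_cont _ _).comp continuous_subtype_val).subtype_mk _
  continuous_invFun := by
    exact ((psi_cont _ _ _).comp continuous_subtype_val).subtype_mk _

end

/-- A space homeomorphic to a manifold is a manifold. -/
theorem charted_of_homeo {H X Y : Type} [TopologicalSpace H] [TopologicalSpace X]
    [TopologicalSpace Y] (e : X ≃ₜ Y) (h : Nonempty (ChartedSpace H Y)) :
    Nonempty (ChartedSpace H X) := by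
  obtain ⟨h⟩ := h
  refine ⟨{ atlas := {f | ∃ g ∈ h.atlas, f = e.toOpenPartialHomeomorph.trans g}
            chartAt := fun x => e.toOpenPartialHomeomorph.trans (h.chartAt (e x))
            mem_chart_source := ?_
            chart_mem_atlas := ?_ }⟩
  · intro x
    simp
  · intro x
    exact ⟨_, h.chart_mem_atlas (e x), rfl⟩

end Pool.Agent.Q324.SC.Tri
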