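import Mathlib
import Pool.Agent.Q324.SC.TriComb

/-!
# Majority vote over the iterated subdivisions
-/

set_option autoImplicit false

namespace Pool.Agent.Q324.SC.Tri

open Nat

/-! ### the number of the subdivisions -/

lemma le_P (f m : ℕ) (hf : 1 ≤ f) : 4 ^ m * m ! ≤ P f (m + 1) := by
  induction m with
  | zero => simpa [P] using hf
  | succ m ih =>
    rw [P_succ, Nat.factorial_succ, pow_succ]
    calc 4 ^ m * 4 * ((m + 1) * m !) = 4 ^ m * m ! * (4 * (m + 1)) := by ring
      _ ≤ P f (m + 1) * (f + 4 * (m + 1)) := Nat.mul_le_mul ih (Nat.le_add_left _ _)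

lemma two_pow_big (b : ℕ) (hb : 7 ≤ b) : b ^ 2 + 5 * b + 1 < 2 ^ b := by
  induction b, hb using Nat.le_induction with
  | base => norm_num
  | succ b hb ih =>
    have e : 2 ^ (b + 1) = 2 * 2 ^ b := by ring
    rw [e]
    nlinarith

/-- the number of the subdivisions -/
def mm (f C : ℕ) : ℕ := 3 * 2 ^ (f / 4 + C + 7) + 1

/-- The bound for the number of the errors. -/
def bound (C N : ℕ) : ℕ := C * 3 ^ (N / 4) * (N / 4)!

lemma bound_lt (f C : ℕ) (hf : 1 ≤ f) : 2 * bound C (f + 4 * mm f C) < P f (mm f C) := by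
  obtain ⟨a, ha⟩ : ∃ a, a = f / 4 := ⟨_, rfl⟩
  obtain ⟨b, hb⟩ : ∃ b, b = a + C + 7 := ⟨_, rfl⟩
  obtain ⟨j, hj⟩ : ∃ j, j = 2 ^ b := ⟨_, rfl⟩
  have e1 : mm f C = 3 * j + 1 := by unfold mm; rw [← ha, ← hb, ← hj]
  have e2 : (f + 4 * mm f C) / 4 = 3 * j + (a + 1) := by rw [e1, ha]; omega
  unfold bound
  rw [e2, e1]
  refine lt_of_lt_of_le ?_ (le_P f (3 * j) hf)
  rw [← Nat.factorial_mul_ascFactorial]
  have h1 : (3 * j + 1).ascFactorial (a + 1) ≤ (4 * j) ^ (a + 1) := by
    refine (Nat.ascFactorial_le_pow_add _ _).trans (Nat.pow_le_pow_left ?_ _)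
    have : b < j := hj ▸ Nat.lt_two_pow_self
    omega
  have h2 : (4 * j) ^ (a + 1) ≤ 2 ^ ((b + 2) * b) := by
    have : 4 * j = 2 ^ (b + 2) := by rw [hj, pow_add]; ring
    rw [this, ← pow_mul]
    refine Nat.pow_le_pow_right (by norm_num) (Nat.mul_le_mul_left _ (by omega))
  have h3 : 3 ^ (a + 1) ≤ 2 ^ (2 * b) := by
    rw [pow_mul]
    calc 3 ^ (a + 1) ≤ 4 ^ (a + 1) := Nat.pow_le_pow_left (by norm_num) _
      _ ≤ (2 ^ 2) ^ b := by
        norm_num
        exact Nat.pow_le_pow_right (by norm_num) (by omega)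
  have h4 : 2 * C ≤ 2 ^ b := by
    have h5 : C < 2 ^ C := Nat.lt_two_pow_self
    calc 2 * C ≤ 2 * 2 ^ C := by omega
      _ = 2 ^ (C + 1) := by rw [pow_succ]; ring
      _ ≤ 2 ^ b := Nat.pow_le_pow_right (by norm_num) (by omega)
  have h6 : 2 * C * 3 ^ (a + 1) * (3 * j + 1).ascFactorial (a + 1) < 2 ^ j := by
    calc 2 * C * 3 ^ (a + 1) * (3 * j + 1).ascFactorial (a + 1)
        ≤ 2 ^ b * 2 ^ (2 * b) * 2 ^ ((b + 2) * b) :=
          Nat.mul_le_mul (Nat.mul_le_mul h4 h3) (h1.trans h2)
      _ = 2 ^ (b ^ 2 + 5 * b) := by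
        rw [← pow_add, ← pow_add]
        congr 1
        ring
      _ < 2 ^ j := by
        refine Nat.pow_lt_pow_right (by norm_num) ?_
        rw [hj]
        have := two_pow_big b (by omega)
        omega
  have h7 : 2 ^ j * 3 ^ (3 * j) ≤ 4 ^ (3 * j) := by
    rw [pow_mul, pow_mul, ← mul_pow]
    exact Nat.pow_le_pow_left (by norm_num) _
  calc 2 * (C * 3 ^ (3 * j + (a + 1)) * ((3 * j)! * (3 * j + 1).ascFactorial (a + 1)))
      = 2 * C * 3 ^ (a + 1) * (3 * j + 1).ascFactorial (a + 1) * 3 ^ (3 * j) * (3 * j)! := by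
        rw [pow_add]
        ring
    _ < 2 ^ j * 3 ^ (3 * j) * (3 * j)! := by
        refine Nat.mul_lt_mul_of_pos_right ?_ (Nat.factorial_pos _)
        exact Nat.mul_lt_mul_of_pos_right h6 (by positivity)
    _ ≤ 4 ^ (3 * j) * (3 * j)! := Nat.mul_le_mul_right _ h7

/-! ### the vote -/

/-- The complexes with `N` facets with the property `Pr` for which `A`, applied to some list of the
facets, does not give the answer to the question `Q`. -/
def Bad (A : Cx → Bool) (Pr Q : Cx → Prop) (N : ℕ) : Set (Finset (List ℕ)) :=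
  {S | ∃ K : Cx, Valid K ∧ K.length = N ∧ Pr K ∧ K.toFinset = S ∧ ¬ (A K = true ↔ Q K)}

lemma desc_inv {Pr : Cx → Prop} (h : ∀ K c, Valid K → c < K.length → Pr K → Pr (sub K c))
    {K : Cx} (hK : Valid K) (hP : Pr K) (m k : ℕ) : Pr (desc K m k).1 := by
  induction m with
  | zero => exact hP
  | succ m ih =>
    obtain ⟨h1, _, _⟩ := desc_basic hK m k
    rw [desc_succ]
    exact h _ _ h1 (Nat.mod_lt _ (List.length_pos_iff.2 h1.ne)) ih

lemma vote {A : Cx → Bool} {Pr Q : Cx → Prop}
    (hPr : ∀ K c, Valid K → c < K.length → Pr K → Pr (sub K c))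
    (hQ : ∀ K c, Valid K → c < K.length → (Q (sub K c) ↔ Q K)) {K : Cx} (hK : Valid K)
    (hP : Pr K) {C : ℕ} (h : ∀ N, (Bad A Pr Q N).encard ≤ ((bound C N : ℕ) : ℕ∞)) :
    (P K.length (mm K.length C)
      < 2 * cnt (fun k => A (desc K (mm K.length C) k).1) (P K.length (mm K.length C)))
      ↔ Q K := by
  classical
  obtain ⟨m, hm⟩ : ∃ m, m = mm K.length C := ⟨_, rfl⟩
  have hQ2 : ∀ k, Q (desc K m k).1 ↔ Q K := by
    intro k
    by_cases h1 : Q K
    · exact iff_of_true (desc_inv (fun K c hK hc hq => (hQ K c hK hc).2 hq) hK h1 m k) h1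
    · refine iff_of_false ?_ h1
      exact desc_inv (Pr := fun K => ¬ Q K) (fun K c hK hc hq h2 => hq ((hQ K c hK hc).1 h2)) hK h1 m k
  obtain ⟨W, hW⟩ : ∃ W, W = (Finset.range (P K.length m)).filter
    (fun k => A (desc K m k).1 ≠ decide (Q K)) := ⟨_, rfl⟩
  have g1 : (W.card : ℕ∞) ≤ ((bound C (K.length + 4 * m) : ℕ) : ℕ∞) := by
    refine le_trans ?_ (h (K.length + 4 * m))
    rw [← Set.encard_coe_eq_coe_finsetCard]
    have h3 : Set.InjOn (fun k => (desc K m k).1.toFinset) (W : Set ℕ) := by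
      intro k hk k' hk' hkk
      rw [hW, Finset.mem_coe, Finset.mem_filter, Finset.mem_range] at hk hk'
      have := (desc_inj hK m k k' hkk).1
      rwa [Nat.mod_eq_of_lt hk.1, Nat.mod_eq_of_lt hk'.1] at this
    rw [← h3.encard_image]
    refine Set.encard_le_encard ?_
    rintro _ ⟨k, hk, rfl⟩
    rw [hW, Finset.mem_coe, Finset.mem_filter, Finset.mem_range] at hk
    obtain ⟨h4, h5, _⟩ := desc_basic hK m k
    refine ⟨_, h4, h5, desc_inv hPr hK hP m k, rfl, ?_⟩
    intro h6
    rw [hQ2] at h6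
    apply hk.2
    rw [Bool.eq_iff_iff, decide_eq_true_eq]
    exact h6
  have g2 : W.card ≤ bound C (K.length + 4 * m) := by exact_mod_cast g1
  have g3 : 2 * bound C (K.length + 4 * m) < P K.length m := by
    rw [hm]
    exact bound_lt _ _ (List.length_pos_iff.2 hK.ne)
  rw [hW] at g2
  rw [← hm]
  exact (majority g2 g3).trans (by simp)

/-! ### computability -/

theorem top_primrec : Primrec top := by
  unfold top fm
  have h1 : Primrec (fun l : List ℕ => l.foldr max 0) :=
    Primrec.list_foldr (h := fun _ p => max p.1 p.2) Primrec.id (Primrec.const 0)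
      (Primrec.nat_max.comp (Primrec.fst.comp Primrec.snd) (Primrec.snd.comp Primrec.snd))
  exact Primrec.succ.comp (h1.comp Primrec.list_flatten)

lemma cone_eq (s : List ℕ) (v u : ℕ) :
    cone s v u = (s.flatMap fun w => bif decide (w = u) then [] else [w]) ++ [v] := by
  unfold cone
  congr 1
  induction s with
  | nil => rfl
  | cons a s ih =>
    rw [List.filter_cons, List.flatMap_cons, ih]
    by_cases h : a = u
    · simp [h]
    · simp [h]

theorem cone_primrec : Primrec (fun x : List ℕ × ℕ × ℕ => cone x.1 x.2.1 x.2.2) := by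
  have h1 : Primrec (fun x : List ℕ × ℕ × ℕ =>
      (x.1.flatMap fun w => bif decide (w = x.2.2) then [] else [w]) ++ [x.2.1]) := by
    refine pappend (pflatMap (by fun_prop) ?_) (by fun_prop)
    fun_prop
  exact h1.of_eq fun x => (cone_eq _ _ _).symm

theorem sub_primrec : Primrec (fun x : Cx × ℕ => sub x.1 x.2) := by
  unfold sub
  have hg : Primrec (fun x : (Cx × ℕ) × ℕ => x.1.1.getD x.2 []) :=
    (Primrec.list_getD ([] : List ℕ)).comp (by fun_prop) (by fun_prop)
  have ht : Primrec (fun x : (Cx × ℕ) × ℕ => top x.1.1) := top_primrec.comp (by fun_prop)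
  refine pflatMap (by fun_prop) ?_
  refine pcond (by fun_prop) ?_ (pcons hg (Primrec.const []))
  refine pmap hg ?_
  exact cone_primrec.comp ((hg.comp Primrec.fst).pair ((ht.comp Primrec.fst).pair Primrec.snd))

theorem step_primrec : Primrec step := by
  unfold step
  refine ppair ?_ (by fun_prop)
  exact sub_primrec.comp (g := fun x : Cx × ℕ => (x.1, x.2 % x.1.length)) (by fun_prop)

theorem desc_primrec : Primrec (fun x : Cx × ℕ × ℕ => (desc x.1 x.2.1 x.2.2).1) := by
  unfold desc
  have h1 : Primrec (fun x : Cx × ℕ × ℕ => (fun y => step y)^[x.2.1] (x.1, x.2.2)) :=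
    Primrec.nat_iterate (f := fun x : Cx × ℕ × ℕ => x.2.1) (g := fun x => (x.1, x.2.2))
      (h := fun _ y => step y) (by fun_prop) (by fun_prop) (step_primrec.comp Primrec.snd)
  exact Primrec.fst.comp h1

theorem P_primrec : Primrec (fun x : ℕ × ℕ => P x.1 x.2) := by
  unfold P
  exact Primrec.nat_rec' (f := fun x : ℕ × ℕ => x.2) (g := fun _ => 1)
    (h := fun x p => p.2 * (x.1 + 4 * p.1)) (by fun_prop) (by fun_prop) (by
      have : Primrec (fun y : (ℕ × ℕ) × ℕ × ℕ => y.2.2 * (y.1.1 + 4 * y.2.1)) := by fun_prop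
      exact this)

theorem mm_primrec : Primrec (fun x : ℕ × ℕ => mm x.1 x.2) := by
  unfold mm
  fun_prop

attribute [local irreducible] desc P mm cnt

set_option maxHeartbeats 400000 in
/-- **Self correction by subdivision.** If for each parameter `y` the computable function `A` errs
on few complexes with the property `Pr y`, then a computable function answers the question `Q y` for
all complexes with the property `Pr y`. -/
theorem correct {α : Type} [Primcodable α] {A : α × Cx → Bool} {C : α → ℕ}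
    (hA : Computable A) (hC : Computable C) {Pr Q : α → Cx → Prop}
    (hPr : ∀ y K c, Valid K → c < K.length → Pr y K → Pr y (sub K c))
    (hQ : ∀ y K c, Valid K → c < K.length → (Q y (sub K c) ↔ Q y K))
    (h : ∀ y N, (Bad (fun K => A (y, K)) (Pr y) (Q y) N).encard ≤ ((bound (C y) N : ℕ) : ℕ∞)) :
    ∃ D : α × Cx → Bool, Computable D ∧
      ∀ y K, Valid K → Pr y K → (D (y, K) = true ↔ Q y K) := by
  have cy : Computable (fun x : α × Cx => x.1) := Computable.fst
  have cK : Computable (fun x : α × Cx => x.2) := Computable.snd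
  have cl : Computable (fun x : α × Cx => x.2.length) := Computable.list_length.comp cK
  have cC : Computable (fun x : α × Cx => C x.1) := hC.comp cy
  have c1 : Computable (fun x : α × Cx => mm x.2.length (C x.1)) :=
    Computable.comp (f := fun x : ℕ × ℕ => mm x.1 x.2)
      (g := fun x : α × Cx => (x.2.length, C x.1)) mm_primrec.to_comp (cl.pair cC)
  have c2 : Computable (fun x : α × Cx => P x.2.length (mm x.2.length (C x.1))) :=
    Computable.comp (f := fun x : ℕ × ℕ => P x.1 x.2)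
      (g := fun x : α × Cx => (x.2.length, mm x.2.length (C x.1))) P_primrec.to_comp (cl.pair c1)
  have c3 : Computable (fun z : (α × Cx) × ℕ =>
      A (z.1.1, (desc z.1.2 (mm z.1.2.length (C z.1.1)) z.2).1)) := by
    refine hA.comp (Computable.pair (cy.comp Computable.fst) ?_)
    exact Computable.comp (f := fun x : Cx × ℕ × ℕ => (desc x.1 x.2.1 x.2.2).1)
      (g := fun z : (α × Cx) × ℕ => (z.1.2, mm z.1.2.length (C z.1.1), z.2)) desc_primrec.to_comp
      ((cK.comp Computable.fst).pair ((c1.comp Computable.fst).pair Computable.snd))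
  have c4 : Computable (fun x : α × Cx => cnt (fun k =>
      A (x.1, (desc x.2 (mm x.2.length (C x.1)) k).1)) (P x.2.length (mm x.2.length (C x.1)))) :=
    cnt_comp (f := fun (x : α × Cx) k => A (x.1, (desc x.2 (mm x.2.length (C x.1)) k).1)) c3 c2
  have h2 : Primrec (fun x : ℕ × ℕ => decide (x.1 + 1 ≤ 2 * x.2)) := by fun_prop
  refine ⟨fun x => decide (P x.2.length (mm x.2.length (C x.1)) < 2 * cnt (fun k =>
      A (x.1, (desc x.2 (mm x.2.length (C x.1)) k).1)) (P x.2.length (mm x.2.length (C x.1)))),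
    (h2.to_comp.comp (c2.pair c4)).of_eq fun x => rfl, ?_⟩
  intro y K hK hP
  rw [decide_eq_true_eq]
  exact vote (A := fun K => A (y, K)) (hPr y) (hQ y) hK hP (h y)

end Pool.Agent.Q324.SC.Tri
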