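import Mathlib
import Pool.Agent.Q324.SC.TriGeo
import Pool.Agent.Q324.SC.TriVote

/-!
# Piecewise linear homeomorphisms and stellar subdivisions
-/

set_option autoImplicit false

namespace Pool.Agent.Q324.SC.Tri

open Set

/-- The map `f` is piecewise affine on `X`: `X` is covered by finitely many polyhedra (each given by
finitely many affine inequalities), on each of which `f` agrees with an affine map. -/
def PA (X : Set (ℕ → ℝ)) (f : (ℕ → ℝ) → (ℕ → ℝ)) : Prop :=
  ∃ L : List (List ((ℕ → ℝ) →ᵃ[ℝ] ℝ) × ((ℕ → ℝ) →ᵃ[ℝ] (ℕ → ℝ))), ∀ x ∈ X,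
    (∃ p ∈ L, ∀ l ∈ p.1, 0 ≤ l x) ∧ ∀ p ∈ L, (∀ l ∈ p.1, 0 ≤ l x) → f x = p.2 x

lemma PA.mono {X X' : Set (ℕ → ℝ)} {f : (ℕ → ℝ) → (ℕ → ℝ)} (h : PA X f) (hX : X' ⊆ X) :
    PA X' f := by
  obtain ⟨L, h⟩ := h
  exact ⟨L, fun x hx => h x (hX hx)⟩

lemma PA.comp {X Y : Set (ℕ → ℝ)} {f g : (ℕ → ℝ) → (ℕ → ℝ)} (hg : PA Y g) (hf : PA X f)
    (hXY : MapsTo f X Y) : PA X (g ∘ f) := by
  obtain ⟨L, hL⟩ := hf
  obtain ⟨M, hM⟩ := hg
  refine ⟨L.flatMap fun p => M.map fun q => (p.1 ++ q.1.map (fun l => l.comp p.2), q.2.comp p.2),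
    fun x hx => ?_⟩
  obtain ⟨⟨p, hp, hp2⟩, h2⟩ := hL x hx
  obtain ⟨⟨q, hq, hq2⟩, h4⟩ := hM (f x) (hXY hx)
  have e := h2 p hp hp2
  constructor
  · refine ⟨_, List.mem_flatMap.2 ⟨p, hp, List.mem_map.2 ⟨q, hq, rfl⟩⟩, ?_⟩
    intro l hl
    rcases List.mem_append.1 hl with hl | hl
    · exact hp2 l hl
    · obtain ⟨l', hl', rfl⟩ := List.mem_map.1 hl
      have := hq2 l' hl'
      rw [e] at this
      exact this
  · intro r hr hr2
    obtain ⟨p', hp', hr⟩ := List.mem_flatMap.1 hr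
    obtain ⟨q', hq', rfl⟩ := List.mem_map.1 hr
    have e' := h2 p' hp' fun l hl => hr2 l (List.mem_append_left _ hl)
    have h5 : ∀ l ∈ q'.1, 0 ≤ l (f x) := by
      intro l hl
      have := hr2 (l.comp p'.2) (List.mem_append_right _ (List.mem_map.2 ⟨l, hl, rfl⟩))
      rw [e']
      exact this
    have h6 := h4 q' hq' h5
    show g (f x) = q'.2 (p'.2 x)
    rw [h6, e']

/-- `f` is a piecewise linear homeomorphism of `X` onto `Y` with the inverse `g`. -/
structure IsPL (X Y : Set (ℕ → ℝ)) (f g : (ℕ → ℝ) → (ℕ → ℝ)) : Prop where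
  maps : MapsTo f X Y
  maps' : MapsTo g Y X
  left : ∀ x ∈ X, g (f x) = x
  right : ∀ y ∈ Y, f (g y) = y
  cont : ContinuousOn f X
  cont' : ContinuousOn g Y
  pa : PA X f
  pa' : PA Y g

/-- The sets `X` and `Y` are piecewise linearly homeomorphic. -/
def PLHomeo (X Y : Set (ℕ → ℝ)) : Prop := ∃ f g, IsPL X Y f g

lemma IsPL.symm {X Y : Set (ℕ → ℝ)} {f g : (ℕ → ℝ) → (ℕ → ℝ)} (h : IsPL X Y f g) :
    IsPL Y X g f := ⟨h.maps', h.maps, h.right, h.left, h.cont', h.cont, h.pa', h.pa⟩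

lemma IsPL.trans {X Y Z : Set (ℕ → ℝ)} {f g f' g' : (ℕ → ℝ) → (ℕ → ℝ)} (h : IsPL X Y f g)
    (h' : IsPL Y Z f' g') : IsPL X Z (f' ∘ f) (g ∘ g') where
  maps := h'.maps.comp h.maps
  maps' := h.maps'.comp h'.maps'
  left x hx := by
    show g (g' (f' (f x))) = x
    rw [h'.left _ (h.maps hx), h.left _ hx]
  right z hz := by
    show f' (f (g (g' z))) = z
    rw [h.right _ (h'.maps' hz), h'.right _ hz]
  cont := h'.cont.comp h.cont h.maps
  cont' := h.cont'.comp h'.cont' h'.maps'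
  pa := h'.pa.comp h.pa h.maps
  pa' := h.pa'.comp h'.pa' h'.maps'

lemma PLHomeo.symm {X Y : Set (ℕ → ℝ)} (h : PLHomeo X Y) : PLHomeo Y X := by
  obtain ⟨f, g, h⟩ := h
  exact ⟨g, f, h.symm⟩

lemma PLHomeo.trans {X Y Z : Set (ℕ → ℝ)} (h : PLHomeo X Y) (h' : PLHomeo Y Z) : PLHomeo X Z := by
  obtain ⟨f, g, h⟩ := h
  obtain ⟨f', g', h'⟩ := h'
  exact ⟨_, _, h.trans h'⟩

/-- The half space of dimension four (in the space of the real sequences). -/
def Half : Set (ℕ → ℝ) := {y | 0 ≤ y 0 ∧ ∀ i, 4 ≤ i → y i = 0}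

/-- `X` is a piecewise linear 4-manifold with or without boundary: each point of `X` has a
(relatively) open neighbourhood `U` in `X` that is piecewise linearly homeomorphic to a (relatively)
open subset of the half space. -/
def PLMan (X : Set (ℕ → ℝ)) : Prop :=
  ∀ x ∈ X, ∃ O O' : Set (ℕ → ℝ), IsOpen O ∧ IsOpen O' ∧ x ∈ O ∧ PLHomeo (X ∩ O) (Half ∩ O')

lemma PLMan.transport {X Y : Set (ℕ → ℝ)} {f g : (ℕ → ℝ) → (ℕ → ℝ)} (h : IsPL Y X f g)
    (hX : PLMan X) : PLMan Y := by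
  intro y hy
  obtain ⟨O, O', hO, hO', hx, hU⟩ := hX (f y) (h.maps hy)
  obtain ⟨O2, hO2, h2⟩ := (continuousOn_iff'.1 h.cont) O hO
  have e : ∀ z ∈ Y, (z ∈ O2 ↔ f z ∈ O) := by
    intro z hz
    have : z ∈ f ⁻¹' O ∩ Y ↔ z ∈ O2 ∩ Y := by rw [h2]
    simp only [mem_inter_iff, hz, and_true, mem_preimage] at this
    exact this.symm
  refine ⟨O2, O', hO2, hO', (e y hy).2 hx, PLHomeo.trans (Y := X ∩ O) ⟨f, g, ?_⟩ hU⟩
  refine ⟨?_, ?_, ?_, ?_, ?_, ?_, ?_, ?_⟩
  · intro z hz
    exact ⟨h.maps hz.1, (e z hz.1).1 hz.2⟩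
  · intro z hz
    refine ⟨h.maps' hz.1, (e _ (h.maps' hz.1)).2 ?_⟩
    rw [h.right z hz.1]
    exact hz.2
  · intro z hz
    exact h.left z hz.1
  · intro z hz
    exact h.right z hz.1
  · exact h.cont.mono inter_subset_left
  · exact h.cont'.mono inter_subset_left
  · exact h.pa.mono inter_subset_left
  · exact h.pa'.mono inter_subset_left

/-- coordinate -/
def pr (i : ℕ) : (ℕ → ℝ) →ₗ[ℝ] ℝ := LinearMap.proj i

lemma pr_apply (i : ℕ) (x : ℕ → ℝ) : pr i x = x i := rfl

lemma phi_pa (S : Finset ℕ) (v : ℕ) (X : Set (ℕ → ℝ)) : PA X (phi S v) := by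
  obtain ⟨A, hA⟩ : ∃ A : (ℕ → ℝ) →ₗ[ℝ] (ℕ → ℝ), A = LinearMap.pi fun i =>
    if i = v then 0 else if i ∈ S then pr i + (1 / 5 : ℝ) • pr v else pr i := ⟨_, rfl⟩
  refine ⟨[([], A.toAffineMap)], fun x _ => ⟨⟨_, List.mem_singleton_self _, by simp⟩, ?_⟩⟩
  intro p hp _
  rw [List.mem_singleton.1 hp]
  funext i
  show phi S v x i = A x i
  rw [hA, LinearMap.pi_apply]
  unfold phi
  split_ifs
  · simp
  · simp only [LinearMap.add_apply, LinearMap.smul_apply, pr_apply, smul_eq_mul]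
    ring
  · simp only [pr_apply]

lemma psi_pa (S : Finset ℕ) (hS : S.Nonempty) (v : ℕ) (X : Set (ℕ → ℝ)) : PA X (psi S hS v) := by
  obtain ⟨A, hA⟩ : ∃ A : ℕ → (ℕ → ℝ) →ₗ[ℝ] (ℕ → ℝ), A = fun u => LinearMap.pi fun i =>
    if i = v then (5 : ℝ) • pr u else if i ∈ S then pr i - pr u else pr i := ⟨_, rfl⟩
  refine ⟨S.toList.map fun u => (S.toList.map fun w => (pr w - pr u).toAffineMap,
    (A u).toAffineMap), fun x _ => ⟨?_, ?_⟩⟩
  · obtain ⟨u, hu, hmu⟩ := exists_mu hS x
    refine ⟨_, List.mem_map.2 ⟨u, Finset.mem_toList.2 hu, rfl⟩, ?_⟩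
    intro l hl
    obtain ⟨w, hw, rfl⟩ := List.mem_map.1 hl
    show 0 ≤ (pr w - pr u) x
    rw [LinearMap.sub_apply, pr_apply, pr_apply, hmu]
    have := mu_le (hS := hS) (y := x) (Finset.mem_toList.1 hw)
    linarith
  · intro p hp hp2
    obtain ⟨u, hu, rfl⟩ := List.mem_map.1 hp
    have hu' := Finset.mem_toList.1 hu
    have hmu : mu S hS x = x u := by
      refine le_antisymm (mu_le hu') (Finset.le_inf' _ _ fun w hw => ?_)
      have h1 := hp2 _ (List.mem_map.2 ⟨w, Finset.mem_toList.2 hw, rfl⟩)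
      have h2 : (0 : ℝ) ≤ (pr w - pr u) x := h1
      rw [LinearMap.sub_apply, pr_apply, pr_apply] at h2
      linarith
    funext i
    show psi S hS v x i = A u x i
    rw [hA]
    simp only [LinearMap.pi_apply]
    unfold psi
    rw [hmu]
    split_ifs
    · simp only [LinearMap.smul_apply, pr_apply, smul_eq_mul]
    · simp only [LinearMap.sub_apply, pr_apply]
    · simp only [pr_apply]

lemma sub_isPL {K : Cx} (hK : Valid K) {c : ℕ} (hc : c < K.length) :
    IsPL (Real (sub K c)) (Real K) (phi (K.getD c []).toFinset (top K))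
      (psi (K.getD c []).toFinset (facet_ne hK hc) (top K)) where
  maps x hx := phi_mem hK hc hx
  maps' y hy := psi_mem hK hc hy
  left x hx := psi_phi hK hc hx
  right y hy := phi_psi hK hc hy
  cont := (phi_cont _ _).continuousOn
  cont' := (psi_cont _ _ _).continuousOn
  pa := phi_pa _ _ _
  pa' := psi_pa _ _ _ _

/-! ### vote for pairs -/

/-- The pairs of complexes with `N` and `N'` facets with the property `Pr` for which `A`, applied
to some lists of the facets, does not give the answer to the question `Q`. -/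
def Bad2 (A : Cx × Cx → Bool) (Pr Q : Cx → Cx → Prop) (N N' : ℕ) :
    Set (Finset (List ℕ) × Finset (List ℕ)) :=
  {S | ∃ K L : Cx, Valid K ∧ Valid L ∧ K.length = N ∧ L.length = N' ∧ Pr K L ∧
    K.toFinset = S.1 ∧ L.toFinset = S.2 ∧ ¬ (A (K, L) = true ↔ Q K L)}

/-- The code `j` gives a code for each of the two complexes. -/
def pick (K L : Cx) (C j : ℕ) : Cx × Cx :=
  ((desc K (mm K.length C) (j % P K.length (mm K.length C))).1,
    (desc L (mm L.length C) (j / P K.length (mm K.length C))).1)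

lemma desc_pos {K : Cx} (hK : Valid K) (m : ℕ) : 0 < P K.length m := by
  induction m with
  | zero => exact Nat.one_pos
  | succ m ih =>
    rw [P_succ]
    have := List.length_pos_iff.2 hK.ne
    positivity

lemma vote2 {A : Cx × Cx → Bool} {Pr Q : Cx → Cx → Prop}
    (hPr1 : ∀ L K c, Valid K → c < K.length → Pr K L → Pr (sub K c) L)
    (hPr2 : ∀ K L c, Valid L → c < L.length → Pr K L → Pr K (sub L c))
    (hQ1 : ∀ L K c, Valid K → c < K.length → (Q (sub K c) L ↔ Q K L))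
    (hQ2 : ∀ K L c, Valid L → c < L.length → (Q K (sub L c) ↔ Q K L))
    {K L : Cx} (hK : Valid K) (hL : Valid L) (hP : Pr K L) {C : ℕ} (hC : 1 ≤ C)
    (h : ∀ N N', (Bad2 A Pr Q N N').encard ≤ ((bound C N * bound C N' : ℕ) : ℕ∞)) :
    (P K.length (mm K.length C) * P L.length (mm L.length C)
      < 2 * cnt (fun j => A (pick K L C j))
        (P K.length (mm K.length C) * P L.length (mm L.length C))) ↔ Q K L := by
  classical
  obtain ⟨m, hm⟩ : ∃ m, m = mm K.length C := ⟨_, rfl⟩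
  obtain ⟨m', hm'⟩ : ∃ m', m' = mm L.length C := ⟨_, rfl⟩
  have inv : ∀ {Pr' : Cx → Cx → Prop},
      (∀ L K c, Valid K → c < K.length → Pr' K L → Pr' (sub K c) L) →
      (∀ K L c, Valid L → c < L.length → Pr' K L → Pr' K (sub L c)) →
      Pr' K L → ∀ k k', Pr' (desc K m k).1 (desc L m' k').1 := by
    intro Pr' a1 a2 a3 k k'
    have b1 : Pr' (desc K m k).1 L := desc_inv (Pr := fun K => Pr' K L) (a1 L) hK a3 m k
    exact desc_inv (Pr := fun L => Pr' (desc K m k).1 L) (fun L c => a2 _ L c) hL b1 m' k'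
  have hQ : ∀ k k', Q (desc K m k).1 (desc L m' k').1 ↔ Q K L := by
    intro k k'
    by_cases h1 : Q K L
    · exact iff_of_true (inv (Pr' := Q) (fun L K c a b => (hQ1 L K c a b).2)
        (fun K L c a b => (hQ2 K L c a b).2) h1 k k') h1
    · refine iff_of_false ?_ h1
      exact inv (Pr' := fun K L => ¬ Q K L) (fun L K c a b d e => d ((hQ1 L K c a b).1 e))
        (fun K L c a b d e => d ((hQ2 K L c a b).1 e)) h1 k k'
  obtain ⟨W, hW⟩ : ∃ W, W = (Finset.range (P K.length m * P L.length m')).filter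
    (fun j => A (pick K L C j) ≠ decide (Q K L)) := ⟨_, rfl⟩
  have g1 : (W.card : ℕ∞) ≤
      ((bound C (K.length + 4 * m) * bound C (L.length + 4 * m') : ℕ) : ℕ∞) := by
    refine le_trans ?_ (h (K.length + 4 * m) (L.length + 4 * m'))
    rw [← Set.encard_coe_eq_coe_finsetCard]
    have h3 : Set.InjOn (fun j => ((pick K L C j).1.toFinset, (pick K L C j).2.toFinset))
        (W : Set ℕ) := by
      intro j hj j' hj' hjj
      rw [hW, Finset.mem_coe, Finset.mem_filter, Finset.mem_range] at hj hj'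
      have e1 : (pick K L C j).1.toFinset = (pick K L C j').1.toFinset := congrArg Prod.fst hjj
      have e2 : (pick K L C j).2.toFinset = (pick K L C j').2.toFinset := congrArg Prod.snd hjj
      unfold pick at e1 e2
      rw [← hm] at e1 e2
      rw [← hm'] at e2
      have f1 := (desc_inj hK m _ _ e1).1
      have f2 := (desc_inj hL m' _ _ e2).1
      rw [Nat.mod_mod, Nat.mod_mod] at f1
      rw [Nat.mod_eq_of_lt (Nat.div_lt_of_lt_mul hj.1),
        Nat.mod_eq_of_lt (Nat.div_lt_of_lt_mul hj'.1)] at f2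
      rw [← Nat.div_add_mod j (P K.length m), ← Nat.div_add_mod j' (P K.length m), f1, f2]
    rw [← h3.encard_image]
    refine Set.encard_le_encard ?_
    rintro _ ⟨j, hj, rfl⟩
    rw [hW, Finset.mem_coe, Finset.mem_filter, Finset.mem_range] at hj
    have q1 := desc_basic hK m (j % P K.length m)
    have q2 := desc_basic hL m' (j / P K.length m)
    have hp : pick K L C j = ((desc K m (j % P K.length m)).1, (desc L m' (j / P K.length m)).1) := by
      unfold pick
      rw [← hm, ← hm']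
    refine ⟨(desc K m (j % P K.length m)).1, (desc L m' (j / P K.length m)).1, q1.1, q2.1,
      q1.2.1, q2.2.1, inv hPr1 hPr2 hP _ _, ?_, ?_, ?_⟩
    · show _ = (pick K L C j).1.toFinset
      rw [hp]
    · show _ = (pick K L C j).2.toFinset
      rw [hp]
    intro h6
    rw [hQ, ← hp] at h6
    apply hj.2
    rw [Bool.eq_iff_iff, decide_eq_true_eq]
    exact h6
  have g2 : W.card ≤ bound C (K.length + 4 * m) * bound C (L.length + 4 * m') := by
    exact_mod_cast g1
  have g3 : 2 * (bound C (K.length + 4 * m) * bound C (L.length + 4 * m'))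
      < P K.length m * P L.length m' := by
    have a1 := bound_lt K.length C (List.length_pos_iff.2 hK.ne)
    have a2 := bound_lt L.length C (List.length_pos_iff.2 hL.ne)
    rw [← hm] at a1
    rw [← hm'] at a2
    have a3 : 0 < P L.length m' := desc_pos hL m'
    calc 2 * (bound C (K.length + 4 * m) * bound C (L.length + 4 * m'))
        = (2 * bound C (K.length + 4 * m)) * bound C (L.length + 4 * m') := by ring
      _ ≤ (2 * bound C (K.length + 4 * m)) * P L.length m' :=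
          Nat.mul_le_mul_left _ (by omega)
      _ < P K.length m * P L.length m' := Nat.mul_lt_mul_of_pos_right a1 a3
  rw [hW] at g2
  rw [← hm, ← hm']
  exact (majority g2 g3).trans (by simp)

theorem pick_primrec : Primrec (fun x : Cx × Cx × ℕ × ℕ => pick x.1 x.2.1 x.2.2.1 x.2.2.2) := by
  unfold pick
  have h1 : Primrec (fun x : Cx × Cx × ℕ × ℕ => mm x.1.length x.2.2.1) :=
    mm_primrec.comp (g := fun x : Cx × Cx × ℕ × ℕ => (x.1.length, x.2.2.1)) (by fun_prop)
  have h2 : Primrec (fun x : Cx × Cx × ℕ × ℕ => mm x.2.1.length x.2.2.1) :=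
    mm_primrec.comp (g := fun x : Cx × Cx × ℕ × ℕ => (x.2.1.length, x.2.2.1)) (by fun_prop)
  have h3 : Primrec (fun x : Cx × Cx × ℕ × ℕ => P x.1.length (mm x.1.length x.2.2.1)) :=
    P_primrec.comp (g := fun x : Cx × Cx × ℕ × ℕ => (x.1.length, mm x.1.length x.2.2.1))
      (ppair (by fun_prop) h1)
  refine ppair ?_ ?_
  · exact desc_primrec.comp (g := fun x : Cx × Cx × ℕ × ℕ =>
      (x.1, mm x.1.length x.2.2.1, x.2.2.2 % P x.1.length (mm x.1.length x.2.2.1)))
      (ppair (by fun_prop) (ppair h1 (pmod (by fun_prop) h3)))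
  · exact desc_primrec.comp (g := fun x : Cx × Cx × ℕ × ℕ =>
      (x.2.1, mm x.2.1.length x.2.2.1, x.2.2.2 / P x.1.length (mm x.1.length x.2.2.1)))
      (ppair (by fun_prop) (ppair h2 (pdiv (by fun_prop) h3)))

attribute [local irreducible] desc P mm cnt pick

set_option maxHeartbeats 400000 in
/-- Self correction for pairs. -/
theorem correct2 {A : Cx × Cx → Bool} (C : ℕ) (hA : Computable A) {Pr Q : Cx → Cx → Prop}
    (hPr1 : ∀ L K c, Valid K → c < K.length → Pr K L → Pr (sub K c) L)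
    (hPr2 : ∀ K L c, Valid L → c < L.length → Pr K L → Pr K (sub L c))
    (hQ1 : ∀ L K c, Valid K → c < K.length → (Q (sub K c) L ↔ Q K L))
    (hQ2 : ∀ K L c, Valid L → c < L.length → (Q K (sub L c) ↔ Q K L))
    (h : ∀ N N', (Bad2 A Pr Q N N').encard ≤ ((bound C N * bound C N' : ℕ) : ℕ∞)) :
    ∃ D : Cx × Cx → Bool, Computable D ∧
      ∀ K L, Valid K → Valid L → Pr K L → (D (K, L) = true ↔ Q K L) := by
  obtain ⟨C1, hC1⟩ : ∃ C1, C1 = C + 1 := ⟨_, rfl⟩
  have h' : ∀ N N', (Bad2 A Pr Q N N').encard ≤ ((bound C1 N * bound C1 N' : ℕ) : ℕ∞) := by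
    intro N N'
    refine (h N N').trans ?_
    have e : ∀ N, bound C N ≤ bound C1 N := by
      intro N
      unfold bound
      exact Nat.mul_le_mul_right _ (Nat.mul_le_mul_right _ (by omega))
    exact_mod_cast Nat.mul_le_mul (e N) (e N')
  have p1 : Primrec (fun x : Cx × Cx => P x.1.length (mm x.1.length C1)) :=
    P_primrec.comp (g := fun x : Cx × Cx => (x.1.length, mm x.1.length C1))
      (ppair (by fun_prop) (mm_primrec.comp (g := fun x : Cx × Cx => (x.1.length, C1))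
        (by fun_prop)))
  have p2 : Primrec (fun x : Cx × Cx => P x.2.length (mm x.2.length C1)) :=
    P_primrec.comp (g := fun x : Cx × Cx => (x.2.length, mm x.2.length C1))
      (ppair (by fun_prop) (mm_primrec.comp (g := fun x : Cx × Cx => (x.2.length, C1))
        (by fun_prop)))
  have c2 : Computable (fun x : Cx × Cx => P x.1.length (mm x.1.length C1)
      * P x.2.length (mm x.2.length C1)) := (pmul p1 p2).to_comp
  have c3 : Computable (fun z : (Cx × Cx) × ℕ => A (pick z.1.1 z.1.2 C1 z.2)) := by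
    refine hA.comp ?_
    have q : Primrec (fun z : (Cx × Cx) × ℕ => (z.1.1, z.1.2, C1, z.2)) := by fun_prop
    exact Computable.comp (f := fun x : Cx × Cx × ℕ × ℕ => pick x.1 x.2.1 x.2.2.1 x.2.2.2)
      (g := fun z : (Cx × Cx) × ℕ => (z.1.1, z.1.2, C1, z.2)) pick_primrec.to_comp q.to_comp
  have c4 : Computable (fun x : Cx × Cx => cnt (fun j => A (pick x.1 x.2 C1 j))
      (P x.1.length (mm x.1.length C1) * P x.2.length (mm x.2.length C1))) :=
    cnt_comp (f := fun (x : Cx × Cx) j => A (pick x.1 x.2 C1 j)) c3 c2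
  have h2 : Primrec (fun x : ℕ × ℕ => decide (x.1 + 1 ≤ 2 * x.2)) := by fun_prop
  refine ⟨fun x => decide (P x.1.length (mm x.1.length C1) * P x.2.length (mm x.2.length C1)
      < 2 * cnt (fun j => A (pick x.1 x.2 C1 j))
      (P x.1.length (mm x.1.length C1) * P x.2.length (mm x.2.length C1))),
    (h2.to_comp.comp (c2.pair c4)).of_eq fun x => rfl, ?_⟩
  intro K L hK hL hP
  rw [decide_eq_true_eq]
  exact vote2 hPr1 hPr2 hQ1 hQ2 hK hL hP (by omega) h'

end Pool.Agent.Q324.SC.Tri
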