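import Pool.Agent.Q324.SC.Comp

set_option autoImplicit false

/-!
Self correction of bounds for the integer points on plane curves.
-/

namespace Pool.Agent.Q324.SC

/-- terms `(i, j, c)`, that is `c x ^ i y ^ j` -/
abbrev Term := ℕ × ℕ × ℤ

/-- the value at `(x, y)` of the polynomial given by a list of terms -/
def ev (L : List Term) (x y : ℤ) : ℤ := (L.map (fun t => t.2.2 * x ^ t.1 * y ^ t.2.1)).sum

/-- the list of the terms `c i j x ^ i y ^ j`, `i, j ≤ n` -/
def grid (n : ℕ) (c : ℕ → ℕ → ℤ) : List Term :=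
  (List.range (n + 1)).flatMap fun i => (List.range (n + 1)).map fun j => (i, j, c i j)

/-- the polynomials of degree at most `n` in each variable with coefficients in `[-H, H]` -/
def Box (n H : ℕ) : Set (List Term) := {L | ∃ c : ℕ → ℕ → ℤ, (∀ i j, (c i j).natAbs ≤ H) ∧ L = grid n c}

/-- `B L` bounds the integer zeros of the polynomial `L` if there are finitely many -/
def Right (B : List Term → ℕ) (L : List Term) : Prop :=
  {p : ℤ × ℤ | ev L p.1 p.2 = 0}.Finite → ∀ x y : ℤ, ev L x y = 0 → x.natAbs ≤ B L ∧ y.natAbs ≤ B L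

lemma sum_flatMap {β : Type*} (l : List β) (f : β → List ℤ) :
    (l.flatMap f).sum = (l.map (fun b => (f b).sum)).sum := by
  induction l with
  | nil => rfl
  | cons a l ih => simp [List.flatMap_cons, ih]

lemma sum_range_list (n : ℕ) (f : ℕ → ℤ) : ((List.range n).map f).sum = ∑ i ∈ Finset.range n, f i := by
  induction n with
  | zero => simp
  | succ n ih => rw [List.range_succ, List.map_append, List.sum_append, ih, Finset.sum_range_succ]; simp

lemma ev_grid (n : ℕ) (c : ℕ → ℕ → ℤ) (x y : ℤ) :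
    ev (grid n c) x y =
      ∑ i ∈ Finset.range (n + 1), ∑ j ∈ Finset.range (n + 1), c i j * x ^ i * y ^ j := by
  unfold ev grid
  rw [List.map_flatMap, sum_flatMap]
  simp only [List.map_map]
  rw [sum_range_list]
  refine Finset.sum_congr rfl fun i _ => ?_
  rw [← sum_range_list]
  rfl

lemma grid_inj {n : ℕ} {c c' : ℕ → ℕ → ℤ} (h : grid n c = grid n c') {i j : ℕ} (hi : i ≤ n)
    (hj : j ≤ n) : c i j = c' i j := by
  have h1 : (i, j, c i j) ∈ grid n c := by
    unfold grid
    simp only [List.mem_flatMap, List.mem_map, List.mem_range]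
    exact ⟨i, by omega, j, by omega, rfl⟩
  rw [h] at h1
  unfold grid at h1
  simp only [List.mem_flatMap, List.mem_map, List.mem_range] at h1
  obtain ⟨i', _, j', _, h2⟩ := h1
  simp only [Prod.mk.injEq] at h2
  obtain ⟨rfl, rfl, h3⟩ := h2
  exact h3.symm

/-- digits -/
def dig (M k s : ℕ) : ℕ := (k / (M + 1) ^ s) % (M + 1)

lemma dig_le (M k s : ℕ) : dig M k s ≤ M := Nat.lt_succ_iff.1 (Nat.mod_lt _ (Nat.succ_pos M))

lemma dig_succ (M k s : ℕ) : dig M k (s + 1) = dig M (k / (M + 1)) s := by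
  unfold dig
  rw [Nat.div_div_eq_div_mul, pow_succ, Nat.mul_comm]

lemma eq_sum_dig (M : ℕ) : ∀ (N k : ℕ), k < (M + 1) ^ N →
    k = ∑ s ∈ Finset.range N, dig M k s * (M + 1) ^ s := by
  intro N
  induction N with
  | zero => intro k hk; simp at hk; simp [hk]
  | succ N ih =>
    intro k hk
    have h1 : k / (M + 1) < (M + 1) ^ N := by
      rw [Nat.div_lt_iff_lt_mul (Nat.succ_pos M), ← pow_succ]
      exact hk
    have h2 := ih _ h1
    rw [Finset.sum_range_succ']
    have h3 : ∑ s ∈ Finset.range N, dig M k (s + 1) * (M + 1) ^ (s + 1)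
        = (∑ s ∈ Finset.range N, dig M (k / (M + 1)) s * (M + 1) ^ s) * (M + 1) := by
      rw [Finset.sum_mul]
      refine Finset.sum_congr rfl fun s _ => ?_
      rw [dig_succ, pow_succ, mul_assoc]
    rw [h3, ← h2]
    have h4 : dig M k 0 = k % (M + 1) := by simp [dig]
    rw [h4, pow_zero, mul_one]
    have := Nat.div_add_mod k (M + 1)
    nlinarith [this]

lemma dig_unique (T : ℕ) : ∀ (N : ℕ) (a b : ℕ → ℕ), (∀ s, a s < T) → (∀ s, b s < T) →
    ∑ s ∈ Finset.range N, a s * T ^ s = ∑ s ∈ Finset.range N, b s * T ^ s →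
    ∀ s < N, a s = b s := by
  intro N
  induction N with
  | zero => intro a b _ _ _ s hs; omega
  | succ N ih =>
    intro a b ha hb h s hs
    rw [Finset.sum_range_succ', Finset.sum_range_succ'] at h
    have e : ∀ f : ℕ → ℕ, ∑ s ∈ Finset.range N, f (s + 1) * T ^ (s + 1)
        = T * ∑ s ∈ Finset.range N, f (s + 1) * T ^ s := by
      intro f
      rw [Finset.mul_sum]
      refine Finset.sum_congr rfl fun s _ => ?_
      rw [pow_succ]
      ring
    rw [e, e, pow_zero, mul_one, mul_one] at h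
    have h0 : a 0 = b 0 := by
      have h1 : (T * ∑ s ∈ Finset.range N, a (s + 1) * T ^ s + a 0) % T = a 0 := by
        rw [Nat.mul_add_mod, Nat.mod_eq_of_lt (ha 0)]
      have h2 : (T * ∑ s ∈ Finset.range N, b (s + 1) * T ^ s + b 0) % T = b 0 := by
        rw [Nat.mul_add_mod, Nat.mod_eq_of_lt (hb 0)]
      rw [← h1, ← h2, h]
    have hT : 0 < T := lt_of_le_of_lt (Nat.zero_le _) (ha 0)
    have h3 : ∑ s ∈ Finset.range N, a (s + 1) * T ^ s = ∑ s ∈ Finset.range N, b (s + 1) * T ^ s := by
      rw [h0] at h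
      exact Nat.eq_of_mul_eq_mul_left hT (Nat.add_right_cancel h)
    rcases s with _ | s
    · exact h0
    · exact ih (fun s => a (s + 1)) (fun s => b (s + 1)) (fun s => ha _) (fun s => hb _) h3 s
        (by omega)

/-- coefficients of the polynomial number `k` with coefficients in `[0, M]` -/
def pc (e M k a b : ℕ) : ℕ := bif decide (a ≤ e) && decide (b ≤ e) then dig M k (a + (e + 1) * b) else 0

/-- coefficients of `1 + 2 P` -/
def gc (e M k a b : ℕ) : ℕ := (bif decide (a = 0) && decide (b = 0) then 1 else 0) + 2 * pc e M k a b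

/-- weights -/
def wt (e M k i j a b : ℕ) : ℕ := bif decide (a ≤ i) && decide (b ≤ j) then gc e M k (i - a) (j - b) else 0

/-- coefficients of the product -/
def cf (L : List Term) (e M k i j : ℕ) : ℤ :=
  Int.subNatNat (L.map (fun t => t.2.2.toNat * wt e M k i j t.1 t.2.1)).sum
    (L.map (fun t => (-t.2.2).toNat * wt e M k i j t.1 t.2.1)).sum

/-- the modified polynomial -/
def cand (L : List Term) (e n M k : ℕ) : List Term := grid n (cf L e M k)

/-- the value of the polynomial number `k` -/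
def Pv (e M k : ℕ) (x y : ℤ) : ℤ :=
  ∑ a ∈ Finset.range (e + 1), ∑ b ∈ Finset.range (e + 1), (dig M k (a + (e + 1) * b) : ℤ) * x ^ a * y ^ b

lemma cf_eq (L : List Term) (e M k i j : ℕ) :
    cf L e M k i j = (L.map (fun t => t.2.2 * (wt e M k i j t.1 t.2.1 : ℤ))).sum := by
  unfold cf
  rw [Int.subNatNat_eq_coe]
  induction L with
  | nil => simp
  | cons t L ih =>
    simp only [List.map_cons, List.sum_cons]
    rw [← ih]
    push_cast
    have h : ((t.2.2.toNat : ℕ) : ℤ) - (((-t.2.2).toNat : ℕ) : ℤ) = t.2.2 := by omega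
    have h2 : t.2.2 * (wt e M k i j t.1 t.2.1 : ℤ) =
      ((t.2.2.toNat : ℕ) : ℤ) * (wt e M k i j t.1 t.2.1 : ℤ)
        - (((-t.2.2).toNat : ℕ) : ℤ) * (wt e M k i j t.1 t.2.1 : ℤ) := by
      rw [← sub_mul, h]
    rw [h2]
    ring

lemma pc_le (e M k a b : ℕ) : pc e M k a b ≤ M := by
  unfold pc
  cases decide (a ≤ e) && decide (b ≤ e)
  · exact Nat.zero_le _
  · exact dig_le _ _ _

lemma wt_le (e M k i j a b : ℕ) : wt e M k i j a b ≤ 1 + 2 * M := by
  unfold wt
  cases decide (a ≤ i) && decide (b ≤ j)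
  · exact Nat.zero_le _
  · have h := pc_le e M k (i - a) (j - b)
    unfold gc
    simp only [cond_true]
    cases decide (i - a = 0) && decide (j - b = 0) <;> simp only [cond_true, cond_false] <;> omega

/-- sum of the absolute values of the coefficients -/
def sz (L : List Term) : ℕ := (L.map (fun t => t.2.2.natAbs)).sum

/-- sum of the exponents -/
def dg (L : List Term) : ℕ := (L.map (fun t => t.1 + t.2.1)).sum

lemma cf_le (L : List Term) (e M k i j : ℕ) : (cf L e M k i j).natAbs ≤ sz L * (1 + 2 * M) := by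
  rw [cf_eq]
  unfold sz
  induction L with
  | nil => simp
  | cons t L ih =>
    simp only [List.map_cons, List.sum_cons]
    refine (Int.natAbs_add_le _ _).trans ?_
    rw [add_mul]
    refine Nat.add_le_add ?_ ih
    rw [Int.natAbs_mul, Int.natAbs_natCast]
    exact Nat.mul_le_mul_left _ (wt_le _ _ _ _ _ _ _)

lemma le_dg {L : List Term} {t : Term} (h : t ∈ L) : t.1 ≤ dg L ∧ t.2.1 ≤ dg L := by
  have h1 : t.1 + t.2.1 ≤ dg L :=
    List.le_sum_of_mem (List.mem_map.2 ⟨t, h, rfl⟩)
  omega

lemma shift_sum {e n a : ℕ} (h : a + e ≤ n) (f : ℕ → ℤ) (hf : ∀ i, e < i → f i = 0) (x : ℤ) :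
    ∑ i ∈ Finset.range (n + 1), (if a ≤ i then f (i - a) else 0) * x ^ i
      = x ^ a * ∑ i ∈ Finset.range (e + 1), f i * x ^ i := by
  have h1 : n + 1 = a + (n + 1 - a) := by omega
  rw [h1, Finset.sum_range_add]
  have h2 : ∑ i ∈ Finset.range a, (if a ≤ i then f (i - a) else 0) * x ^ i = 0 := by
    refine Finset.sum_eq_zero fun i hi => ?_
    rw [if_neg (by have := Finset.mem_range.1 hi; omega), zero_mul]
  rw [h2, zero_add, Finset.mul_sum]
  have h3 : ∀ i, (if a ≤ a + i then f (a + i - a) else 0) * x ^ (a + i) = x ^ a * (f i * x ^ i) := by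
    intro i
    rw [if_pos (by omega), Nat.add_sub_cancel_left, pow_add]
    ring
  simp only [h3]
  symm
  refine Finset.sum_subset ?_ ?_
  · intro i hi
    rw [Finset.mem_range] at *
    omega
  · intro i _ hi
    rw [Finset.mem_range] at hi
    rw [hf i (by omega)]
    ring

lemma gsum (e M k : ℕ) (x y : ℤ) :
    ∑ i ∈ Finset.range (e + 1), ∑ j ∈ Finset.range (e + 1), (gc e M k i j : ℤ) * x ^ i * y ^ j
      = 1 + 2 * Pv e M k x y := by
  unfold gc Pv
  have h : ∀ i ∈ Finset.range (e + 1), ∀ j ∈ Finset.range (e + 1),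
      (((bif decide (i = 0) && decide (j = 0) then 1 else 0) + 2 * pc e M k i j : ℕ) : ℤ) * x ^ i * y ^ j
        = (if i = 0 then (if j = 0 then (1 : ℤ) else 0) else 0)
          + 2 * ((dig M k (i + (e + 1) * j) : ℤ) * x ^ i * y ^ j) := by
    intro i hi j hj
    rw [Finset.mem_range] at hi hj
    have h1 : pc e M k i j = dig M k (i + (e + 1) * j) := by
      unfold pc
      have h2 : (decide (i ≤ e) && decide (j ≤ e)) = true := by
        simp only [Bool.and_eq_true, decide_eq_true_eq]
        omega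
      rw [h2]
      rfl
    rw [h1]
    push_cast
    by_cases h3 : i = 0
    · by_cases h4 : j = 0
      · subst h3 h4
        simp
      · simp [h3, h4]
        ring
    · simp [h3]
      ring
  rw [Finset.sum_congr rfl fun i hi => Finset.sum_congr rfl fun j hj => h i hi j hj]
  simp only [Finset.sum_add_distrib, Finset.mul_sum]
  congr 1
  have h5 : ∀ i ∈ Finset.range (e + 1), ∑ j ∈ Finset.range (e + 1),
      (if i = 0 then (if j = 0 then (1 : ℤ) else 0) else 0) = if i = 0 then 1 else 0 := by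
    intro i _
    by_cases hi : i = 0 <;> simp [hi]
  rw [Finset.sum_congr rfl h5]
  simp

lemma wt_sum {e n M k a b : ℕ} (ha : a + e ≤ n) (hb : b + e ≤ n) (x y : ℤ) :
    ∑ i ∈ Finset.range (n + 1), ∑ j ∈ Finset.range (n + 1), (wt e M k i j a b : ℤ) * x ^ i * y ^ j
      = x ^ a * y ^ b * (1 + 2 * Pv e M k x y) := by
  have hz : ∀ i j, e < i ∨ e < j → gc e M k i j = 0 := by
    intro i j h
    unfold gc pc
    have h1 : (decide (i = 0) && decide (j = 0)) = false := by
      rw [Bool.eq_false_iff]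
      simp only [ne_eq, Bool.and_eq_true, decide_eq_true_eq]
      omega
    have h2 : (decide (i ≤ e) && decide (j ≤ e)) = false := by
      rw [Bool.eq_false_iff]
      simp only [ne_eq, Bool.and_eq_true, decide_eq_true_eq]
      omega
    rw [h1, h2]
    rfl
  have h1 : ∀ i j, (wt e M k i j a b : ℤ) = if a ≤ i then (if b ≤ j then (gc e M k (i - a) (j - b) : ℤ) else 0) else 0 := by
    intro i j
    unfold wt
    by_cases h3 : a ≤ i <;> by_cases h4 : b ≤ j <;> simp [h3, h4]
  have h2 : ∀ i, ∑ j ∈ Finset.range (n + 1), (wt e M k i j a b : ℤ) * x ^ i * y ^ j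
      = (if a ≤ i then y ^ b * ∑ j ∈ Finset.range (e + 1), (gc e M k (i - a) j : ℤ) * y ^ j else 0) * x ^ i := by
    intro i
    by_cases h3 : a ≤ i
    · rw [if_pos h3]
      have h4 := shift_sum (e := e) (n := n) (a := b) hb (fun j => (gc e M k (i - a) j : ℤ))
        (fun j hj => by rw [hz _ _ (Or.inr hj)]; rfl) y
      rw [← h4, Finset.sum_mul]
      refine Finset.sum_congr rfl fun j _ => ?_
      rw [h1, if_pos h3]
      ring
    · rw [if_neg h3, zero_mul]
      refine Finset.sum_eq_zero fun j _ => ?_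
      rw [h1, if_neg h3]
      ring
  rw [Finset.sum_congr rfl fun i _ => h2 i]
  rw [shift_sum (e := e) (n := n) (a := a) ha
    (fun i => y ^ b * ∑ j ∈ Finset.range (e + 1), (gc e M k i j : ℤ) * y ^ j)
    (fun i hi => by
      have : ∀ j ∈ Finset.range (e + 1), (gc e M k i j : ℤ) * y ^ j = 0 := by
        intro j _
        rw [hz _ _ (Or.inl hi)]
        simp
      rw [Finset.sum_eq_zero this, mul_zero]) x]
  rw [← gsum e M k x y, mul_assoc (x ^ a), Finset.mul_sum (s := Finset.range (e + 1)) (a := y ^ b)]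
  congr 1
  refine Finset.sum_congr rfl fun i _ => ?_
  rw [mul_assoc, Finset.sum_mul]
  congr 1
  refine Finset.sum_congr rfl fun j _ => ?_
  ring

lemma list_sum_comm (L : List Term) (n : ℕ) (f : Term → ℕ → ℤ) :
    ∑ i ∈ Finset.range n, (L.map (fun t => f t i)).sum
      = (L.map (fun t => ∑ i ∈ Finset.range n, f t i)).sum := by
  induction L with
  | nil => simp
  | cons t L ih => simp only [List.map_cons, List.sum_cons, Finset.sum_add_distrib, ih]

lemma ev_cand {L : List Term} {e n M k : ℕ} (h : dg L + e ≤ n) (x y : ℤ) :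
    ev (cand L e n M k) x y = ev L x y * (1 + 2 * Pv e M k x y) := by
  unfold cand
  rw [ev_grid]
  have h1 : ∀ i ∈ Finset.range (n + 1),
      ∑ j ∈ Finset.range (n + 1), cf L e M k i j * x ^ i * y ^ j
      = (L.map (fun t => ∑ j ∈ Finset.range (n + 1),
          t.2.2 * ((wt e M k i j t.1 t.2.1 : ℤ) * x ^ i * y ^ j))).sum := by
    intro i _
    rw [← list_sum_comm L (n + 1) (fun t j => t.2.2 * ((wt e M k i j t.1 t.2.1 : ℤ) * x ^ i * y ^ j))]
    refine Finset.sum_congr rfl fun j _ => ?_
    rw [cf_eq]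
    clear h
    induction L with
    | nil => simp
    | cons t L ih =>
      simp only [List.map_cons, List.sum_cons] at ih ⊢
      rw [add_mul, add_mul, ih]
      ring
  rw [Finset.sum_congr rfl h1, list_sum_comm L (n + 1) (fun t i => ∑ j ∈ Finset.range (n + 1),
          t.2.2 * ((wt e M k i j t.1 t.2.1 : ℤ) * x ^ i * y ^ j))]
  unfold ev
  rw [← List.sum_map_mul_right]
  congr 1
  refine List.map_congr_left fun t ht => ?_
  obtain ⟨h2, h3⟩ := le_dg ht
  rw [← Finset.sum_congr rfl fun i _ => Finset.mul_sum _ _ _, ← Finset.mul_sum,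
    wt_sum (by omega) (by omega)]
  ring

end Pool.Agent.Q324.SC
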