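import Mathlib
import Pool.Agent.Q324.SC.Plane

/-!
# Self correction for questions on finite presentations

A presentation is extended by new generators `t` and relators `t⁻¹ w` with `w` a word in the earlier
generators. This does not change the group, and the number of the extensions is nearly (on the
logarithmic scale) the number of all presentations of the same size.
-/

set_option autoImplicit false

namespace Pool.Agent.Q324.SC.Tz

open Pool.Agent.Q324.SC

/-- A word: `(i, true)` is the generator `i`, `(i, false)` its inverse. -/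
abbrev Word : Type := List (ℕ × Bool)

/-- A finite presentation: the number of the generators, and the list of the relators. -/
abbrev Pres : Type := ℕ × List Word

/-- There is at least one generator, and the relators are words in the generators. -/
def Ok (p : Pres) : Prop := 1 ≤ p.1 ∧ ∀ r ∈ p.2, ∀ x ∈ r, x.1 < p.1

/-- The value of a word. -/
def val {G : Type} [Group G] (g : ℕ → G) (w : Word) : G :=
  (w.map (fun x => if x.2 then g x.1 else (g x.1)⁻¹)).prod

/-- The free generators. -/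
def fgen (n i : ℕ) : FreeGroup (Fin n) := if h : i < n then FreeGroup.of ⟨i, h⟩ else 1

/-- The group with the presentation `p`. -/
abbrev Grp (p : Pres) : Type := PresentedGroup {g | ∃ r ∈ p.2, g = val (fgen p.1) r}

/-- The generators of the group. -/
def gen (p : Pres) (i : ℕ) : Grp p := if h : i < p.1 then PresentedGroup.of ⟨i, h⟩ else 1

lemma val_map {G H : Type} [Group G] [Group H] (φ : G →* H) (g : ℕ → G) (h : ℕ → H)
    (w : Word) (hw : ∀ x ∈ w, φ (g x.1) = h x.1) : φ (val g w) = val h w := by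
  unfold val
  rw [map_list_prod, List.map_map]
  congr 1
  refine List.map_congr_left fun x hx => ?_
  simp only [Function.comp]
  split
  · exact hw x hx
  · rw [map_inv, hw x hx]

lemma gen_rel (p : Pres) {r : Word} (hr : r ∈ p.2) : val (gen p) r = 1 := by
  have h1 : PresentedGroup.mk {g | ∃ r ∈ p.2, g = val (fgen p.1) r} (val (fgen p.1) r) = 1 :=
    PresentedGroup.one_of_mem ⟨r, hr, rfl⟩
  rw [val_map _ _ (gen p) r (fun x _ => ?_)] at h1
  · exact h1
  · unfold fgen gen
    split_ifs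
    · rfl
    · exact map_one _

lemma exists_hom {p : Pres} (hp : Ok p) {H : Type} [Group H] (h : ℕ → H)
    (hr : ∀ r ∈ p.2, val h r = 1) : ∃ φ : Grp p →* H, ∀ i < p.1, φ (gen p i) = h i := by
  have h1 : ∀ g ∈ {g | ∃ r ∈ p.2, g = val (fgen p.1) r},
      (FreeGroup.lift (fun i : Fin p.1 => h i)) g = 1 := by
    rintro g ⟨r, hr1, rfl⟩
    rw [val_map _ _ h r (fun x hx => ?_), hr r hr1]
    have := hp.2 r hr1 x hx
    unfold fgen
    rw [dif_pos this, FreeGroup.lift_apply_of]
  refine ⟨PresentedGroup.toGroup h1, fun i hi => ?_⟩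
  unfold gen
  rw [dif_pos hi, PresentedGroup.toGroup.of]

lemma hom_ext {p : Pres} {H : Type} [Group H] {φ ψ : Grp p →* H}
    (h : ∀ i < p.1, φ (gen p i) = ψ (gen p i)) : φ = ψ := by
  refine PresentedGroup.ext fun i => ?_
  have := h i i.2
  unfold gen at this
  rwa [dif_pos i.2] at this

/-- The presentation with one more generator `t` and the relator `t⁻¹ w`. -/
def ext (p : Pres) (w : Word) : Pres := (p.1 + 1, p.2 ++ [(p.1, false) :: w])

lemma ext_ok {p : Pres} (hp : Ok p) {w : Word} (hw : ∀ x ∈ w, x.1 < p.1) : Ok (ext p w) := by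
  refine ⟨Nat.succ_pos _, ?_⟩
  intro r hr x hx
  show x.1 < p.1 + 1
  rcases List.mem_append.1 hr with h | h
  · exact (hp.2 r h x hx).trans (Nat.lt_succ_self _)
  · rw [List.mem_singleton] at h
    rw [h, List.mem_cons] at hx
    rcases hx with rfl | hx
    · exact Nat.lt_succ_self _
    · exact (hw x hx).trans (Nat.lt_succ_self _)

lemma val_cons {G : Type} [Group G] (g : ℕ → G) (i : ℕ) (w : Word) :
    val g ((i, false) :: w) = (g i)⁻¹ * val g w := by
  simp [val]

lemma val_congr {G : Type} [Group G] {g h : ℕ → G} {w : Word} (hw : ∀ x ∈ w, g x.1 = h x.1) :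
    val g w = val h w := val_map (MonoidHom.id G) g h w hw

/-- The extension does not change the group. -/
lemma ext_iso {p : Pres} (hp : Ok p) {w : Word} (hw : ∀ x ∈ w, x.1 < p.1) :
    Nonempty (Grp (ext p w) ≃* Grp p) := by
  have hp' := ext_ok hp hw
  have e1 : (ext p w).1 = p.1 + 1 := rfl
  have e2 : (ext p w).2 = p.2 ++ [(p.1, false) :: w] := rfl
  obtain ⟨φ, hφ⟩ := exists_hom hp (gen (ext p w)) (fun r hr => gen_rel _ (by
    rw [e2]; exact List.mem_append_left _ hr))
  obtain ⟨k, hk⟩ : ∃ k : ℕ → Grp p, k = fun i => if i < p.1 then gen p i else val (gen p) w :=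
    ⟨_, rfl⟩
  have k1 : ∀ i < p.1, k i = gen p i := fun i hi => by rw [hk]; exact if_pos hi
  have k2 : k p.1 = val (gen p) w := by rw [hk]; exact if_neg (lt_irrefl _)
  obtain ⟨ψ, hψ⟩ := exists_hom hp' k (by
    intro r hr
    rw [e2] at hr
    rcases List.mem_append.1 hr with h | h
    · rw [val_congr (h := gen p) (fun x hx => k1 _ (hp.2 r h x hx)), gen_rel p h]
    · rw [List.mem_singleton] at h
      rw [h, val_cons, k2, val_congr (h := gen p) (fun x hx => k1 _ (hw x hx)), inv_mul_cancel])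
  have h1 : ψ.comp φ = MonoidHom.id _ := by
    refine hom_ext fun i hi => ?_
    rw [MonoidHom.comp_apply, hφ i hi, hψ i (by omega), k1 i hi, MonoidHom.id_apply]
  have h2 : φ.comp ψ = MonoidHom.id _ := by
    refine hom_ext fun i hi => ?_
    rw [MonoidHom.comp_apply, hψ i hi, MonoidHom.id_apply]
    rw [e1] at hi
    rcases Nat.lt_succ_iff_lt_or_eq.1 hi with h | h
    · rw [k1 i h, hφ i h]
    · rw [h, k2, val_map φ (gen p) (gen (ext p w)) w (fun x hx => hφ _ (hw x hx))]
      have h3 : val (gen (ext p w)) ((p.1, false) :: w) = 1 := gen_rel _ (by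
        rw [e2]; exact List.mem_append_right _ (List.mem_singleton_self _))
      rw [val_cons, inv_mul_eq_one] at h3
      exact h3.symm
  exact ⟨MonoidHom.toMulEquiv ψ φ h2 h1⟩

/-! ### the extensions with a given code -/

/-- The word of length `L` in `n` generators with the code `c`. -/
def word (n L c : ℕ) : Word :=
  (List.range L).map fun i => (dig (2 * n - 1) c i / 2, decide (dig (2 * n - 1) c i % 2 = 1))

lemma word_lt {n L c : ℕ} (hn : 1 ≤ n) : ∀ x ∈ word n L c, x.1 < n := by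
  intro x hx
  obtain ⟨i, _, rfl⟩ := List.mem_map.1 hx
  have := dig_le (2 * n - 1) c i
  show dig (2 * n - 1) c i / 2 < n
  omega

lemma word_length (n L c : ℕ) : (word n L c).length = L := by simp [word]

lemma word_inj {n L c c' : ℕ} (hn : 1 ≤ n) (hc : c < (2 * n) ^ L) (hc' : c' < (2 * n) ^ L)
    (h : word n L c = word n L c') : c = c' := by
  have e : 2 * n - 1 + 1 = 2 * n := by omega
  rw [eq_sum_dig (2 * n - 1) L c (by rw [e]; exact hc),
    eq_sum_dig (2 * n - 1) L c' (by rw [e]; exact hc')]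
  refine Finset.sum_congr rfl fun i hi => ?_
  congr 1
  rw [Finset.mem_range] at hi
  have h1 : (word n L c)[i]? = (word n L c')[i]? := by rw [h]
  unfold word at h1
  rw [List.getElem?_map, List.getElem?_map, List.getElem?_range hi] at h1
  simp only [Option.map_some, Option.some.injEq, Prod.mk.injEq, decide_eq_decide] at h1
  omega

/-- One step of the iteration. -/
def step (L : ℕ) (x : Pres × ℕ) : Pres × ℕ :=
  (ext x.1 (word x.1.1 L (x.2 % (2 * x.1.1) ^ L)), x.2 / (2 * x.1.1) ^ L)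

/-- The `s`-fold extension with the code `k`. -/
def desc (p : Pres) (L s k : ℕ) : Pres × ℕ := (fun x => step L x)^[s] (p, k)

lemma desc_succ (p : Pres) (L s k : ℕ) : desc p L (s + 1) k = step L (desc p L s k) := by
  unfold desc
  rw [Function.iterate_succ_apply']

/-- The number of the codes. -/
def Pn (n L s : ℕ) : ℕ := Nat.rec (motive := fun _ => ℕ) 1 (fun i a => a * (2 * (n + i)) ^ L) s

lemma Pn_succ (n L s : ℕ) : Pn n L (s + 1) = Pn n L s * (2 * (n + s)) ^ L := rfl

/-- The presentations with `n` generators and `m` relators, each of length at most `L`. -/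
def Box (n m L : ℕ) : Set Pres :=
  {p | Ok p ∧ p.1 = n ∧ p.2.length = m ∧ ∀ r ∈ p.2, r.length ≤ L}

lemma desc_basic {p : Pres} (hp : Ok p) {L : ℕ} (hL : ∀ r ∈ p.2, r.length ≤ L + 1) (s k : ℕ) :
    (desc p L s k).1 ∈ Box (p.1 + s) (p.2.length + s) (L + 1) ∧
    Nonempty (Grp (desc p L s k).1 ≃* Grp p) ∧ (desc p L s k).2 = k / Pn p.1 L s := by
  induction s with
  | zero => exact ⟨⟨hp, rfl, rfl, hL⟩, ⟨MulEquiv.refl _⟩, by simp [desc, Pn]⟩
  | succ s ih =>
    obtain ⟨⟨h1, h2, h3, h4⟩, ⟨e⟩, h5⟩ := ih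
    rw [desc_succ]
    have hw : ∀ x ∈ word (desc p L s k).1.1 L ((desc p L s k).2 % (2 * (desc p L s k).1.1) ^ L),
        x.1 < (desc p L s k).1.1 := word_lt h1.1
    refine ⟨⟨ext_ok h1 hw, ?_, ?_, ?_⟩, ?_, ?_⟩
    · show (desc p L s k).1.1 + 1 = _
      rw [h2]
      rfl
    · show ((desc p L s k).1.2 ++ [_]).length = _
      rw [List.length_append, h3]
      rfl
    · intro r hr
      rcases List.mem_append.1 hr with h | h
      · exact h4 r h
      · rw [List.mem_singleton] at h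
        rw [h, List.length_cons, word_length]
    · obtain ⟨e'⟩ := ext_iso h1 hw
      exact ⟨e'.trans e⟩
    · show (desc p L s k).2 / (2 * (desc p L s k).1.1) ^ L = _
      rw [h5, h2, Pn_succ, Nat.div_div_eq_div_mul]

lemma desc_inj {p : Pres} (hp : Ok p) {L : ℕ} (hL : ∀ r ∈ p.2, r.length ≤ L + 1) (s : ℕ) :
    ∀ k k', (desc p L s k).1 = (desc p L s k').1 → k % Pn p.1 L s = k' % Pn p.1 L s := by
  induction s with
  | zero => intro k k' _; simp [Pn, Nat.mod_one]
  | succ s ih =>
    intro k k' h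
    obtain ⟨⟨h1, h2, h3, h4⟩, _, h5⟩ := desc_basic hp hL s k
    obtain ⟨⟨h1', h2', h3', h4'⟩, _, h5'⟩ := desc_basic hp hL s k'
    rw [desc_succ, desc_succ] at h
    have e2 : (desc p L s k).1.2 ++ [((desc p L s k).1.1, false) ::
        word (desc p L s k).1.1 L ((desc p L s k).2 % (2 * (desc p L s k).1.1) ^ L)]
        = (desc p L s k').1.2 ++ [((desc p L s k').1.1, false) ::
        word (desc p L s k').1.1 L ((desc p L s k').2 % (2 * (desc p L s k').1.1) ^ L)] :=
      congrArg Prod.snd h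
    obtain ⟨e3, e4⟩ := List.append_inj' e2 rfl
    have e5 : (desc p L s k).1 = (desc p L s k').1 := Prod.ext (h2.trans h2'.symm) e3
    have e6 := ih k k' e5
    rw [h2, h2', h5, h5', List.cons.injEq, List.cons.injEq] at e4
    have hpos : 0 < (2 * (p.1 + s)) ^ L := by
      have := hp.1
      positivity
    have e7 := word_inj (by have := hp.1; omega) (Nat.mod_lt _ hpos) (Nat.mod_lt _ hpos) e4.1.2
    rw [Pn_succ, Nat.mod_mul, Nat.mod_mul, e6, e7]

/-! ### numbers -/

lemma Pn_eq (n L s : ℕ) : Pn n L s = (Pn n 1 s) ^ L := by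
  induction s with
  | zero => simp [Pn]
  | succ s ih =>
    rw [Pn_succ, ih, Pn_succ, pow_one]
    exact (mul_pow _ _ _).symm

lemma Pn_pos {n : ℕ} (hn : 1 ≤ n) (L s : ℕ) : 1 ≤ Pn n L s := by
  induction s with
  | zero => exact le_refl _
  | succ s ih =>
    rw [Pn_succ]
    exact Nat.one_le_iff_ne_zero.2 (by positivity)

lemma le_Pn {n : ℕ} (hn : 1 ≤ n) (u v : ℕ) : (2 * (n + u)) ^ v ≤ Pn n 1 (u + v) := by
  induction v with
  | zero => simpa using Pn_pos hn 1 u
  | succ v ih =>
    rw [← add_assoc, Pn_succ, pow_succ, pow_one]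
    exact Nat.mul_le_mul ih (by omega)

/-- The parameter `u`. -/
def uu (r m : ℕ) : ℕ := m + (4 * (r + 1)) ^ (2 * (r + 1)) + 1

/-- The number of the new generators. -/
def ss (r m : ℕ) : ℕ := 4 * (r + 1) * uu r m

lemma key_num (r n m : ℕ) (hn : 1 ≤ n) :
    2 * (2 * (n + ss r m)) ^ (r * (m + ss r m)) ≤ (Pn n 1 (ss r m)) ^ (r + 1) := by
  obtain ⟨u, hu⟩ : ∃ u, u = uu r m := ⟨_, rfl⟩
  obtain ⟨B, hB⟩ : ∃ B, B = 2 * (n + u) := ⟨_, rfl⟩
  obtain ⟨M, hM⟩ : ∃ M, M = 4 * (r + 1) := ⟨_, rfl⟩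
  have es : ss r m = M * u := by unfold ss; rw [hM, hu]
  have hM1 : 1 ≤ M := by omega
  have hBM : M ^ (2 * (r + 1)) ≤ B := by
    rw [hB, hu]
    unfold uu
    rw [← hM]
    omega
  have hB2 : 2 ≤ B := by omega
  have hum : m ≤ u := by rw [hu]; unfold uu; omega
  have hu1 : 1 ≤ u := by rw [hu]; unfold uu; omega
  have h1 : 2 * (n + ss r m) ≤ M * B := by
    rw [es, hB]
    nlinarith
  have h2 : r * (m + ss r m) ≤ (4 * r + 5) * r * u := by
    rw [es, hM]
    calc r * (m + 4 * (r + 1) * u) ≤ r * (u + 4 * (r + 1) * u) :=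
          Nat.mul_le_mul_left _ (Nat.add_le_add_right hum _)
      _ = (4 * r + 5) * r * u := by ring
  have h3 : B ^ ((4 * r + 3) * u) ≤ Pn n 1 (ss r m) := by
    have h4 := le_Pn hn u ((4 * r + 3) * u)
    rw [← hB] at h4
    have h5 : u + (4 * r + 3) * u = ss r m := by rw [es, hM]; ring
    rwa [h5] at h4
  calc 2 * (2 * (n + ss r m)) ^ (r * (m + ss r m))
      ≤ 2 * (M * B) ^ ((4 * r + 5) * r * u) := by
        refine Nat.mul_le_mul_left _ ?_
        refine (Nat.pow_le_pow_left h1 _).trans (Nat.pow_le_pow_right (by positivity) h2)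
    _ = 2 * M ^ ((4 * r + 5) * r * u) * B ^ ((4 * r + 5) * r * u) := by rw [mul_pow]; ring
    _ ≤ (B ^ u * (M ^ (2 * (r + 1))) ^ (2 * (r + 1) * u)) * B ^ ((4 * r + 5) * r * u) := by
        refine Nat.mul_le_mul_right _ (Nat.mul_le_mul ?_ ?_)
        · calc 2 ≤ B := hB2
            _ = B ^ 1 := (pow_one _).symm
            _ ≤ B ^ u := Nat.pow_le_pow_right (by omega) hu1
        · rw [← pow_mul]
          refine Nat.pow_le_pow_right hM1 ?_
          nlinarith
    _ ≤ (B ^ u * B ^ (2 * (r + 1) * u)) * B ^ ((4 * r + 5) * r * u) := by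
        refine Nat.mul_le_mul_right _ (Nat.mul_le_mul_left _ (Nat.pow_le_pow_left hBM _))
    _ = (B ^ ((4 * r + 3) * u)) ^ (r + 1) := by
        rw [← pow_add, ← pow_add, ← pow_mul]
        congr 1
        ring
    _ ≤ (Pn n 1 (ss r m)) ^ (r + 1) := Nat.pow_le_pow_left h3 _

lemma num (r n m : ℕ) (hn : 1 ≤ n) {L K E : ℕ}
    (hL : r + 1 + K + (2 * (n + ss r m)) ^ (r * (m + ss r m)) + 1 ≤ L)
    (h : E ^ (r + 1) ≤ K * (2 * (n + ss r m)) ^ (r * (m + ss r m) * (L + 1))) :
    2 * E < Pn n L (ss r m) := by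
  by_contra hc
  push Not at hc
  obtain ⟨Y, hY⟩ : ∃ Y, Y = (2 * (n + ss r m)) ^ (r * (m + ss r m)) := ⟨_, rfl⟩
  rw [← hY] at hL
  rw [pow_mul, ← hY] at h
  have hY1 : 1 ≤ Y := by rw [hY]; exact Nat.one_le_iff_ne_zero.2 (by positivity)
  have hk := key_num r n m hn
  rw [← hY] at hk
  have h1 : (2 * Y) ^ L ≤ 2 ^ (r + 1) * (K * Y ^ (L + 1)) := by
    calc (2 * Y) ^ L ≤ ((Pn n 1 (ss r m)) ^ (r + 1)) ^ L := Nat.pow_le_pow_left hk _
      _ = (Pn n L (ss r m)) ^ (r + 1) := by
          rw [Pn_eq n L, ← pow_mul, ← pow_mul, Nat.mul_comm]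
      _ ≤ (2 * E) ^ (r + 1) := Nat.pow_le_pow_left hc _
      _ = 2 ^ (r + 1) * E ^ (r + 1) := mul_pow _ _ _
      _ ≤ _ := Nat.mul_le_mul_left _ h
  have h2 : 2 ^ L ≤ 2 ^ (r + 1) * K * Y := by
    have h3 : 2 ^ L * Y ^ L ≤ 2 ^ (r + 1) * K * Y * Y ^ L := by
      rw [← mul_pow]
      refine h1.trans (le_of_eq ?_)
      rw [pow_succ]
      ring
    exact Nat.le_of_mul_le_mul_right h3 (by positivity)
  have h3 : 2 ^ (r + 1) * K * Y < 2 ^ L := by
    have a1 : K < 2 ^ K := Nat.lt_two_pow_self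
    have a2 : Y < 2 ^ Y := Nat.lt_two_pow_self
    calc 2 ^ (r + 1) * K * Y ≤ 2 ^ (r + 1) * 2 ^ K * 2 ^ Y :=
          Nat.mul_le_mul (Nat.mul_le_mul_left _ a1.le) a2.le
      _ = 2 ^ (r + 1 + K + Y) := by rw [← pow_add, ← pow_add]
      _ < 2 ^ L := Nat.pow_lt_pow_right (by norm_num) (by omega)
  omega

end Pool.Agent.Q324.SC.Tz
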