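import Mathlib
import Pool.Agent.Q324.SC.Tietze
import Pool.Agent.Q324.SC.IntOps

/-!
# Self correction for questions on finite presentations: the vote
-/

set_option autoImplicit false

namespace Pool.Agent.Q324.SC.Tz

open Pool.Agent.Q324.SC

/-- The presentations with `n` generators and `m` relators, each of length at most `L`, of groups
with the property `Pr`, for which `A` does not give the answer to the question `Q`. -/
def Bad (A : Pres → Bool) (Pr Q : Pres → Prop) (n m L : ℕ) : Set Pres :=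
  {p | p ∈ Box n m L ∧ Pr p ∧ ¬ (A p = true ↔ Q p)}

/-- the sum of the lengths of the relators -/
def tot (p : Pres) : ℕ := (p.2.map List.length).sum

lemma le_tot {p : Pres} {r : Word} (hr : r ∈ p.2) : r.length ≤ tot p :=
  List.le_sum_of_mem (List.mem_map.2 ⟨r, hr, rfl⟩)

/-- The length of the new relators. -/
def LL (r K : ℕ) (p : Pres) : ℕ :=
  r + 1 + K + (2 * (p.1 + ss r p.2.length)) ^ (r * (p.2.length + ss r p.2.length)) + 1 + tot p

lemma vote {A : Pres → Bool} {Pr Q : Pres → Prop}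
    (hPr : ∀ p q : Pres, Nonempty (Grp p ≃* Grp q) → Pr q → Pr p)
    (hQ : ∀ p q : Pres, Nonempty (Grp p ≃* Grp q) → (Q p ↔ Q q)) {p : Pres} (hp : Ok p)
    (hP : Pr p) (r K L : ℕ) (hL : L = LL r K p)
    (h : ∀ L, (Bad A Pr Q (p.1 + ss r p.2.length) (p.2.length + ss r p.2.length) L).encard ^ (r + 1)
      ≤ ((K * (2 * (p.1 + ss r p.2.length)) ^ (r * (p.2.length + ss r p.2.length) * L) : ℕ) : ℕ∞)) :
    (Pn p.1 L (ss r p.2.length)
      < 2 * cnt (fun k => A (desc p L (ss r p.2.length) k).1) (Pn p.1 L (ss r p.2.length)))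
      ↔ Q p := by
  classical
  obtain ⟨s, hs⟩ : ∃ s, s = ss r p.2.length := ⟨_, rfl⟩
  have hL2 : ∀ w ∈ p.2, w.length ≤ L + 1 := by
    intro w hw
    have := le_tot hw
    rw [hL]
    unfold LL
    omega
  rw [← hs] at h ⊢
  obtain ⟨W, hW⟩ : ∃ W, W = (Finset.range (Pn p.1 L s)).filter
    (fun k => A (desc p L s k).1 ≠ decide (Q p)) := ⟨_, rfl⟩
  have g1 : (W.card : ℕ∞) ≤ (Bad A Pr Q (p.1 + s) (p.2.length + s) (L + 1)).encard := by
    rw [← Set.encard_coe_eq_coe_finsetCard]
    have h3 : Set.InjOn (fun k => (desc p L s k).1) (W : Set ℕ) := by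
      intro k hk k' hk' hkk
      rw [hW, Finset.mem_coe, Finset.mem_filter, Finset.mem_range] at hk hk'
      have := desc_inj hp hL2 s k k' hkk
      rwa [Nat.mod_eq_of_lt hk.1, Nat.mod_eq_of_lt hk'.1] at this
    rw [← h3.encard_image]
    refine Set.encard_le_encard ?_
    rintro _ ⟨k, hk, rfl⟩
    rw [hW, Finset.mem_coe, Finset.mem_filter, Finset.mem_range] at hk
    obtain ⟨h4, h5, _⟩ := desc_basic hp hL2 s k
    refine ⟨h4, hPr _ _ h5 hP, ?_⟩
    intro h6
    rw [hQ _ _ h5] at h6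
    apply hk.2
    rw [Bool.eq_iff_iff, decide_eq_true_eq]
    exact h6
  have g2 : W.card ^ (r + 1) ≤ K * (2 * (p.1 + s)) ^ (r * (p.2.length + s) * (L + 1)) := by
    have := (pow_le_pow_left' g1 (r + 1)).trans (h (L + 1))
    exact_mod_cast this
  have g3 : 2 * W.card < Pn p.1 L s := by
    rw [hs] at g2 ⊢
    refine num r p.1 p.2.length hp.1 ?_ g2
    rw [hL]
    unfold LL
    omega
  rw [hW] at g3
  exact (majority le_rfl g3).trans (by simp)

/-! ### computability -/

theorem word_primrec : Primrec (fun x : ℕ × ℕ × ℕ => word x.1 x.2.1 x.2.2) := by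
  unfold word dig
  refine pmap (by fun_prop) ?_
  fun_prop

theorem step_primrec : Primrec (fun x : ℕ × Pres × ℕ => step x.1 x.2) := by
  unfold step ext
  have h1 : Primrec (fun x : ℕ × Pres × ℕ => word x.2.1.1 x.1 (x.2.2 % (2 * x.2.1.1) ^ x.1)) :=
    word_primrec.comp (g := fun x : ℕ × Pres × ℕ =>
      (x.2.1.1, x.1, x.2.2 % (2 * x.2.1.1) ^ x.1)) (by fun_prop)
  refine ppair (ppair (by fun_prop) ?_) (by fun_prop)
  exact pappend (by fun_prop) (pcons (pcons (by fun_prop) h1) (Primrec.const []))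

theorem desc_primrec : Primrec (fun x : Pres × ℕ × ℕ × ℕ => (desc x.1 x.2.1 x.2.2.1 x.2.2.2).1) := by
  unfold desc
  have h1 : Primrec (fun x : Pres × ℕ × ℕ × ℕ => (fun y => step x.2.1 y)^[x.2.2.1] (x.1, x.2.2.2)) :=
    Primrec.nat_iterate (f := fun x : Pres × ℕ × ℕ × ℕ => x.2.2.1)
      (g := fun x => (x.1, x.2.2.2))
      (h := fun x y => step x.2.1 y) (by fun_prop) (by fun_prop)
      (step_primrec.comp (g := fun z : (Pres × ℕ × ℕ × ℕ) × (Pres × ℕ) => (z.1.2.1, z.2))
        (by fun_prop))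
  exact Primrec.fst.comp h1

theorem Pn_primrec : Primrec (fun x : ℕ × ℕ × ℕ => Pn x.1 x.2.1 x.2.2) := by
  unfold Pn
  exact Primrec.nat_rec' (f := fun x : ℕ × ℕ × ℕ => x.2.2) (g := fun _ => 1)
    (h := fun x p => p.2 * (2 * (x.1 + p.1)) ^ x.2.1) (by fun_prop) (by fun_prop) (by
      have : Primrec (fun y : (ℕ × ℕ × ℕ) × ℕ × ℕ => y.2.2 * (2 * (y.1.1 + y.2.1)) ^ y.1.2.1) := by
        fun_prop
      exact this)

theorem ss_primrec (r : ℕ) : Primrec (fun x : ℕ => ss r x) := by
  unfold ss uu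
  fun_prop

theorem tot_primrec : Primrec tot := by
  unfold tot
  exact psum (pmap (by fun_prop) (by fun_prop))

theorem LL_primrec (r : ℕ) : Primrec (fun x : ℕ × Pres => LL r x.1 x.2) := by
  unfold LL
  have h1 : Primrec (fun x : ℕ × Pres => ss r x.2.2.length) :=
    (ss_primrec r).comp (by fun_prop)
  have h2 : Primrec (fun x : ℕ × Pres => tot x.2) := tot_primrec.comp (by fun_prop)
  exact padd (padd (padd (by fun_prop) (ppow (pmul (by fun_prop) (padd (by fun_prop) h1))
    (pmul (by fun_prop) (padd (by fun_prop) h1)))) (by fun_prop)) h2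

attribute [local irreducible] desc Pn cnt LL ss

set_option maxHeartbeats 400000 in
/-- **Self correction for questions on groups given by presentations.** -/
theorem correct {α : Type} [Primcodable α] {A : α × Pres → Bool} {K : α × ℕ × ℕ → ℕ} (r : ℕ)
    (hA : Computable A) (hK : Computable K) {Pr Q : α → Pres → Prop}
    (hPr : ∀ y (p q : Pres), Nonempty (Grp p ≃* Grp q) → Pr y q → Pr y p)
    (hQ : ∀ y (p q : Pres), Nonempty (Grp p ≃* Grp q) → (Q y p ↔ Q y q))
    (h : ∀ y n m L, (Bad (fun p => A (y, p)) (Pr y) (Q y) n m L).encard ^ (r + 1)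
      ≤ ((K (y, n, m) * (2 * n) ^ (r * m * L) : ℕ) : ℕ∞)) :
    ∃ D : α × Pres → Bool, Computable D ∧
      ∀ y p, Ok p → Pr y p → (D (y, p) = true ↔ Q y p) := by
  have cy : Computable (fun x : α × Pres => x.1) := Computable.fst
  have cp : Computable (fun x : α × Pres => x.2) := Computable.snd
  have cs : Computable (fun x : α × Pres => ss r x.2.2.length) := by
    have h1 : Primrec (fun p : Pres => ss r p.2.length) := (ss_primrec r).comp (by fun_prop)
    exact Computable.comp (f := fun p : Pres => ss r p.2.length)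
      (g := fun x : α × Pres => x.2) h1.to_comp cp
  obtain ⟨K', hK'⟩ : ∃ K' : α × Pres → ℕ,
    K' = fun x => K (x.1, x.2.1 + ss r x.2.2.length, x.2.2.length + ss r x.2.2.length) := ⟨_, rfl⟩
  have cK : Computable K' := by
    rw [hK']
    have h1 : Primrec (fun z : Pres × ℕ => (z.1.1 + z.2, z.1.2.length + z.2)) := by fun_prop
    exact hK.comp (cy.pair (Computable.comp (f := fun z : Pres × ℕ =>
      (z.1.1 + z.2, z.1.2.length + z.2))
      (g := fun x : α × Pres => (x.2, ss r x.2.2.length)) h1.to_comp (cp.pair cs)))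
  obtain ⟨T, hT⟩ : ∃ T : α × Pres → ℕ, T = fun x => LL r (K' x) x.2 := ⟨_, rfl⟩
  have cT : Computable T := by
    rw [hT]
    exact Computable.comp (f := fun x : ℕ × Pres => LL r x.1 x.2)
      (g := fun x : α × Pres => (K' x, x.2)) (LL_primrec r).to_comp (cK.pair cp)
  have c2 : Computable (fun x : α × Pres => Pn x.2.1 (T x) (ss r x.2.2.length)) :=
    Computable.comp (f := fun x : ℕ × ℕ × ℕ => Pn x.1 x.2.1 x.2.2)
      (g := fun x : α × Pres => (x.2.1, T x, ss r x.2.2.length)) Pn_primrec.to_comp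
      ((Computable.fst.comp cp).pair (cT.pair cs))
  have c3 : Computable (fun z : (α × Pres) × ℕ =>
      A (z.1.1, (desc z.1.2 (T z.1) (ss r z.1.2.2.length) z.2).1)) := by
    refine hA.comp (Computable.pair (cy.comp Computable.fst) ?_)
    exact Computable.comp (f := fun x : Pres × ℕ × ℕ × ℕ => (desc x.1 x.2.1 x.2.2.1 x.2.2.2).1)
      (g := fun z : (α × Pres) × ℕ => (z.1.2, T z.1, ss r z.1.2.2.length, z.2))
      desc_primrec.to_comp
      ((cp.comp Computable.fst).pair ((cT.comp Computable.fst).pair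
        ((cs.comp Computable.fst).pair Computable.snd)))
  have c4 : Computable (fun x : α × Pres => cnt (fun k =>
      A (x.1, (desc x.2 (T x) (ss r x.2.2.length) k).1)) (Pn x.2.1 (T x) (ss r x.2.2.length))) :=
    cnt_comp (f := fun (x : α × Pres) k =>
      A (x.1, (desc x.2 (T x) (ss r x.2.2.length) k).1)) c3 c2
  have h2 : Primrec (fun x : ℕ × ℕ => decide (x.1 + 1 ≤ 2 * x.2)) := by fun_prop
  refine ⟨fun x => decide (Pn x.2.1 (T x) (ss r x.2.2.length) < 2 * cnt (fun k =>
      A (x.1, (desc x.2 (T x) (ss r x.2.2.length) k).1)) (Pn x.2.1 (T x) (ss r x.2.2.length))),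
    (h2.to_comp.comp (c2.pair c4)).of_eq fun x => rfl, ?_⟩
  intro y p hp hP
  rw [decide_eq_true_eq]
  refine vote (A := fun p => A (y, p)) (hPr y) (hQ y) hp hP r (K' (y, p)) (T (y, p)) ?_ ?_
  · rw [hT]
  · intro L
    rw [hK']
    exact h y _ _ L

end Pool.Agent.Q324.SC.Tz
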