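import Pool.Agent.Q324.SC.Plane

set_option autoImplicit false

namespace Pool.Agent.Q324.SC

lemma sum_range_mul (m : ℕ) (f : ℕ → ℤ) : ∀ m' : ℕ, ∑ s ∈ Finset.range (m * m'), f s
    = ∑ b ∈ Finset.range m', ∑ a ∈ Finset.range m, f (a + m * b) := by
  intro m'
  induction m' with
  | zero => simp
  | succ m' ih =>
    rw [Nat.mul_succ, Finset.sum_range_add, ih, Finset.sum_range_succ]
    congr 1
    refine Finset.sum_congr rfl fun a _ => ?_
    rw [Nat.add_comm]

lemma Pv_at (e M k T : ℕ) : Pv e M k (T : ℤ) ((T : ℤ) ^ (e + 1))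
    = ((∑ s ∈ Finset.range ((e + 1) * (e + 1)), dig M k s * T ^ s : ℕ) : ℤ) := by
  push_cast
  rw [sum_range_mul]
  unfold Pv
  rw [Finset.sum_comm]
  refine Finset.sum_congr rfl fun b _ => Finset.sum_congr rfl fun a _ => ?_
  rw [mul_assoc, ← pow_mul, ← pow_add]

lemma ev_cand_zero {L : List Term} {e n M k : ℕ} (h : dg L + e ≤ n) (x y : ℤ) :
    ev (cand L e n M k) x y = 0 ↔ ev L x y = 0 := by
  rw [ev_cand h, mul_eq_zero]
  constructor
  · rintro (h1 | h1)
    · exact h1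
    · omega
  · exact Or.inl

/-- different numbers give different polynomials -/
lemma cand_inj {L : List Term} {e n M : ℕ} (h : dg L + e ≤ n)
    (hf : {p : ℤ × ℤ | ev L p.1 p.2 = 0}.Finite) {k k' : ℕ} (hk : k < (M + 1) ^ ((e + 1) * (e + 1)))
    (hk' : k' < (M + 1) ^ ((e + 1) * (e + 1))) (he : cand L e n M k = cand L e n M k') : k = k' := by
  -- a large number `T` with `ev L T (T ^ (e + 1)) ≠ 0`
  have hT : ∃ T : ℕ, M < T ∧ ev L (T : ℤ) ((T : ℤ) ^ (e + 1)) ≠ 0 := by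
    by_contra hcon
    push Not at hcon
    have hinf : (Set.Ioi M).Infinite := Set.Ioi_infinite M
    refine hinf ?_
    have h1 : Set.InjOn (fun T : ℕ => ((T : ℤ), (T : ℤ) ^ (e + 1))) (Set.Ioi M) := by
      intro a _ b _ hab
      simp only [Prod.mk.injEq, Nat.cast_inj] at hab
      exact hab.1
    refine Set.Finite.of_finite_image (hf.subset ?_) h1
    rintro _ ⟨T, hT, rfl⟩
    exact hcon T hT
  obtain ⟨T, hMT, hT⟩ := hT
  have h1 : ev L (T : ℤ) ((T : ℤ) ^ (e + 1)) * (1 + 2 * Pv e M k (T : ℤ) ((T : ℤ) ^ (e + 1)))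
      = ev L (T : ℤ) ((T : ℤ) ^ (e + 1)) * (1 + 2 * Pv e M k' (T : ℤ) ((T : ℤ) ^ (e + 1))) := by
    rw [← ev_cand h, ← ev_cand h, he]
  have h2 := mul_left_cancel₀ hT h1
  have h3 : Pv e M k (T : ℤ) ((T : ℤ) ^ (e + 1)) = Pv e M k' (T : ℤ) ((T : ℤ) ^ (e + 1)) := by omega
  rw [Pv_at, Pv_at] at h3
  have h4 := dig_unique T _ _ _ (fun s => lt_of_le_of_lt (dig_le M k s) hMT)
    (fun s => lt_of_le_of_lt (dig_le M k' s) hMT) (Nat.cast_injective h3)
  rw [eq_sum_dig M _ k hk, eq_sum_dig M _ k' hk']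
  refine Finset.sum_congr rfl fun s hs => ?_
  rw [h4 s (Finset.mem_range.1 hs)]

lemma cand_mem (L : List Term) (e n M k : ℕ) : cand L e n M k ∈ Box n (sz L * (1 + 2 * M)) :=
  ⟨_, fun i j => cf_le L e M k i j, rfl⟩

/-- Some modified polynomial is good, if the bound is right for most polynomials. -/
lemma exists_right {B : List Term → ℕ} {L : List Term} {e n K : ℕ} (h : dg L + e ≤ n)
    (hf : {p : ℤ × ℤ | ev L p.1 p.2 = 0}.Finite)
    (hB : ∀ H : ℕ, {L' | L' ∈ Box n H ∧ ¬ Right B L'}.encard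
      ≤ ((K * (H + 1) ^ ((e + 1) * (e + 1) - 1) : ℕ) : ℕ∞)) :
    ∃ k < (K * (2 * (sz L + 1)) ^ ((e + 1) * (e + 1)) + 1) ^ ((e + 1) * (e + 1)),
      Right B (cand L e n (K * (2 * (sz L + 1)) ^ ((e + 1) * (e + 1))) k) := by
  obtain ⟨N, hN⟩ : ∃ N, N = (e + 1) * (e + 1) := ⟨_, rfl⟩
  obtain ⟨M, hM⟩ : ∃ M, M = K * (2 * (sz L + 1)) ^ N := ⟨_, rfl⟩
  rw [← hN, ← hM]
  by_contra hcon
  push Not at hcon
  have h1 := hB (sz L * (1 + 2 * M))
  rw [← hN] at h1
  have h2 : ((Finset.range ((M + 1) ^ N)).card : ℕ∞)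
      ≤ {L' | L' ∈ Box n (sz L * (1 + 2 * M)) ∧ ¬ Right B L'}.encard := by
    rw [← Set.encard_coe_eq_coe_finsetCard]
    have h3 : Set.InjOn (fun k => cand L e n M k) (Finset.range ((M + 1) ^ N) : Set ℕ) := by
      intro k hk k' hk' hkk
      rw [Finset.coe_range, Set.mem_Iio] at hk hk'
      rw [hN] at hk hk'
      exact cand_inj h hf hk hk' hkk
    rw [← h3.encard_image]
    refine Set.encard_le_encard ?_
    rintro _ ⟨k, hk, rfl⟩
    rw [Finset.coe_range, Set.mem_Iio] at hk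
    exact ⟨cand_mem L e n M k, hcon k hk⟩
  rw [Finset.card_range] at h2
  have h3 : (M + 1) ^ N ≤ K * (sz L * (1 + 2 * M) + 1) ^ (N - 1) := by
    have := h2.trans h1
    exact_mod_cast this
  have hN1 : 1 ≤ N := by rw [hN]; exact Nat.one_le_iff_ne_zero.2 (by positivity)
  have h4 : sz L * (1 + 2 * M) + 1 ≤ 2 * (sz L + 1) * (M + 1) := by nlinarith
  have h5 : (M + 1) ^ N ≤ K * (2 * (sz L + 1)) ^ (N - 1) * (M + 1) ^ (N - 1) := by
    refine h3.trans ?_
    rw [mul_assoc, ← mul_pow]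
    exact Nat.mul_le_mul_left _ (Nat.pow_le_pow_left h4 _)
  have h6 : (M + 1) ^ N = (M + 1) * (M + 1) ^ (N - 1) := by
    rw [← pow_succ']
    congr 1
    omega
  rw [h6] at h5
  have h7 : M + 1 ≤ K * (2 * (sz L + 1)) ^ (N - 1) := Nat.le_of_mul_le_mul_right h5 (by positivity)
  have h8 : K * (2 * (sz L + 1)) ^ (N - 1) ≤ M := by
    rw [hM]
    exact Nat.mul_le_mul_left _ (Nat.pow_le_pow_right (by omega) (by omega))
  omega

/-- computability of the modified polynomials -/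
theorem cand_primrec : Primrec (fun p : List Term × ℕ × ℕ × ℕ × ℕ =>
    cand p.1 p.2.1 p.2.2.1 p.2.2.2.1 p.2.2.2.2) := by
  unfold cand grid
  have h1 : Primrec (fun x : ((List Term × ℕ × ℕ × ℕ × ℕ) × ℕ × ℕ) × Term =>
      wt x.1.1.2.1 x.1.1.2.2.2.1 x.1.1.2.2.2.2 x.1.2.1 x.1.2.2 x.2.1 x.2.2.1) := by
    unfold wt gc pc dig
    fun_prop
  have h2 : Primrec (fun x : (List Term × ℕ × ℕ × ℕ × ℕ) × ℕ × ℕ =>
      (x.1.1.map (fun t => t.2.2.toNat * wt x.1.2.1 x.1.2.2.2.1 x.1.2.2.2.2 x.2.1 x.2.2 t.1 t.2.1)).sum) := by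
    refine psum (pmap (by fun_prop) ?_)
    have h3 : Primrec (fun x : ((List Term × ℕ × ℕ × ℕ × ℕ) × ℕ × ℕ) × Term => x.2.2.2.toNat) := by
      fun_prop
    exact pmul h3 h1
  have h2' : Primrec (fun x : (List Term × ℕ × ℕ × ℕ × ℕ) × ℕ × ℕ =>
      (x.1.1.map (fun t => (-t.2.2).toNat * wt x.1.2.1 x.1.2.2.2.1 x.1.2.2.2.2 x.2.1 x.2.2 t.1 t.2.1)).sum) := by
    refine psum (pmap (by fun_prop) ?_)
    have h3 : Primrec (fun x : ((List Term × ℕ × ℕ × ℕ × ℕ) × ℕ × ℕ) × Term => (-x.2.2.2).toNat) := by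
      fun_prop
    exact pmul h3 h1
  have h4 : Primrec (fun x : (List Term × ℕ × ℕ × ℕ × ℕ) × ℕ × ℕ =>
      cf x.1.1 x.1.2.1 x.1.2.2.2.1 x.1.2.2.2.2 x.2.1 x.2.2) := psubNatNat h2 h2'
  refine pflatMap (by fun_prop) ?_
  refine pmap (by fun_prop) ?_
  have h5 : Primrec (fun x : ((List Term × ℕ × ℕ × ℕ × ℕ) × ℕ) × ℕ => (x.1.1, x.1.2, x.2)) := by
    fun_prop
  have h6 := h4.comp h5
  have h7 : Primrec (fun x : ((List Term × ℕ × ℕ × ℕ × ℕ) × ℕ) × ℕ => x.1.2) := by fun_prop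
  have h8 : Primrec (fun x : ((List Term × ℕ × ℕ × ℕ × ℕ) × ℕ) × ℕ => x.2) := by fun_prop
  exact h7.pair (h8.pair h6)

set_option maxHeartbeats 400000 in
theorem cand_comp {α : Type*} [Primcodable α] {L : α → List Term} {e n M k : α → ℕ}
    (hL : Computable L) (he : Computable e) (hn : Computable n) (hM : Computable M)
    (hk : Computable k) : Computable (fun a => cand (L a) (e a) (n a) (M a) (k a)) := by
  have h1 : Computable (fun a => (L a, e a, n a, M a, k a)) :=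
    hL.pair (he.pair (hn.pair (hM.pair hk)))
  exact Computable.comp (f := fun p : List Term × ℕ × ℕ × ℕ × ℕ =>
    cand p.1 p.2.1 p.2.2.1 p.2.2.2.1 p.2.2.2.2) (g := fun a => (L a, e a, n a, M a, k a))
    cand_primrec.to_comp h1

attribute [local irreducible] cand

theorem dg_primrec : Primrec dg := by
  unfold dg
  exact psum (pmap (by fun_prop) (by fun_prop))

theorem sz_primrec : Primrec sz := by
  unfold sz
  exact psum (pmap (by fun_prop) (by fun_prop))

set_option maxHeartbeats 400000 in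
/-- Self correction: a computable bound that is right for most polynomials gives one that is right
for all. -/
theorem self_correct {B : List Term → ℕ} {e K : ℕ → ℕ} (hB : Computable B) (he : Computable e)
    (hK : Computable K)
    (h : ∀ d H : ℕ, {L | L ∈ Box (d + e d) H ∧ ¬ Right B L}.encard
      ≤ ((K d * (H + 1) ^ ((e d + 1) * (e d + 1) - 1) : ℕ) : ℕ∞)) :
    ∃ B' : List Term → ℕ, Computable B' ∧ ∀ L, Right B' L := by
  -- the parameters
  have cd : Computable dg := dg_primrec.to_comp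
  have cE : Computable (fun L : List Term => e (dg L)) := he.comp cd
  have cN : Computable (fun L : List Term => (e (dg L) + 1) * (e (dg L) + 1)) := by
    have h1 : Computable (fun n : ℕ => (n + 1) * (n + 1)) := by
      have : Primrec (fun n : ℕ => (n + 1) * (n + 1)) := by fun_prop
      exact this.to_comp
    exact h1.comp cE
  have cM : Computable (fun L : List Term =>
      K (dg L) * (2 * (sz L + 1)) ^ ((e (dg L) + 1) * (e (dg L) + 1))) := by
    have h1 : Primrec (fun p : ℕ × ℕ × ℕ => p.1 * (2 * (p.2.1 + 1)) ^ p.2.2) := by fun_prop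
    exact h1.to_comp.comp ((hK.comp cd).pair (sz_primrec.to_comp.pair cN))
  have cL : Computable (fun L : List Term =>
      (K (dg L) * (2 * (sz L + 1)) ^ ((e (dg L) + 1) * (e (dg L) + 1)) + 1) ^
        ((e (dg L) + 1) * (e (dg L) + 1))) := by
    have h1 : Primrec (fun p : ℕ × ℕ => (p.1 + 1) ^ p.2) := by fun_prop
    exact h1.to_comp.comp (cM.pair cN)
  have cn : Computable (fun L : List Term => dg L + e (dg L)) :=
    Primrec.nat_add.to_comp.comp cd cE
  obtain ⟨M, hM⟩ : ∃ M : List Term → ℕ, M = fun L => K (dg L) * (2 * (sz L + 1)) ^ ((e (dg L) + 1) * (e (dg L) + 1)) :=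
    ⟨_, rfl⟩
  have cM' : Computable M := by rw [hM]; exact cM
  obtain ⟨B', hB'⟩ : ∃ B' : List Term → ℕ, B' = fun L => gmax
    (fun k => B (cand L (e (dg L)) (dg L + e (dg L)) (M L) k))
    ((M L + 1) ^ ((e (dg L) + 1) * (e (dg L) + 1))) := ⟨_, rfl⟩
  have cL' : Computable (fun L : List Term => (M L + 1) ^ ((e (dg L) + 1) * (e (dg L) + 1))) := by
    rw [hM]; exact cL
  refine ⟨B', ?_, ?_⟩
  · rw [hB']
    have h2 : Computable (fun x : List Term × ℕ =>
        cand x.1 (e (dg x.1)) (dg x.1 + e (dg x.1)) (M x.1) x.2) :=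
      cand_comp (L := fun x : List Term × ℕ => x.1) (e := fun x => e (dg x.1))
        (n := fun x => dg x.1 + e (dg x.1)) (M := fun x => M x.1) (k := fun x => x.2)
        Computable.fst (cE.comp Computable.fst) (cn.comp Computable.fst)
        (cM'.comp Computable.fst) Computable.snd
    have h3 : Computable (fun x : List Term × ℕ =>
        B (cand x.1 (e (dg x.1)) (dg x.1 + e (dg x.1)) (M x.1) x.2)) := hB.comp h2
    exact gmax_comp (f := fun L k => B (cand L (e (dg L)) (dg L + e (dg L)) (M L) k)) h3 cL'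
  · intro L hf x y hxy
    obtain ⟨k, hk, hr⟩ := exists_right (B := B) (L := L) (e := e (dg L)) (n := dg L + e (dg L))
      (K := K (dg L)) le_rfl hf (fun H => h (dg L) H)
    have hML : K (dg L) * (2 * (sz L + 1)) ^ ((e (dg L) + 1) * (e (dg L) + 1)) = M L := by rw [hM]
    rw [hML] at hk hr
    have h1 : {p : ℤ × ℤ | ev (cand L (e (dg L)) (dg L + e (dg L)) (M L) k) p.1 p.2 = 0}.Finite := by
      refine hf.subset ?_
      intro p hp
      exact (ev_cand_zero le_rfl p.1 p.2).1 hp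
    have h2 := hr h1 x y ((ev_cand_zero le_rfl x y).2 hxy)
    have h3 : B (cand L (e (dg L)) (dg L + e (dg L)) (M L) k) ≤ B' L := by
      rw [hB']
      exact le_gmax (fun k => B (cand L (e (dg L)) (dg L + e (dg L)) (M L) k)) hk
    exact ⟨h2.1.trans h3, h2.2.trans h3⟩

end Pool.Agent.Q324.SC
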