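import Pool.Agent.Q324.SC.IntOps
import Pool.Agent.Q324.SC.PlaneMain

set_option autoImplicit false

/-!
Self correction for the decision problem of strong shift equivalence: dead ends.
-/

namespace Pool.Agent.Q324.SC.Mat

open Pool.Agent.Q324.SC

/-- square matrices over `ℕ` -/
abbrev Obj := Σ n : ℕ, Matrix (Fin n) (Fin n) ℕ

/-- elementary equivalence -/
def Elem (X Y : Obj) : Prop :=
  ∃ R : Matrix (Fin X.1) (Fin Y.1) ℕ, ∃ S : Matrix (Fin Y.1) (Fin X.1) ℕ, X.2 = R * S ∧ Y.2 = S * R

/-- the matrix of a list of rows -/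
def mk (L : List (List ℕ)) : Obj :=
  ⟨L.length, Matrix.of (fun i j => (L.getD (i : ℕ) []).getD (j : ℕ) 0)⟩

/-- strong shift equivalence of the two matrices -/
def SSE (p : List (List ℕ) × List (List ℕ)) : Prop := Relation.TransGen Elem (mk p.1) (mk p.2)

lemma Elem.symm {X Y : Obj} (h : Elem X Y) : Elem Y X := by
  obtain ⟨R, S, h1, h2⟩ := h
  exact ⟨S, R, h2, h1⟩

lemma Elem.refl (X : Obj) : Elem X X := ⟨X.2, 1, by simp, by simp⟩

lemma tg_symm {X Y : Obj} (h : Relation.TransGen Elem X Y) : Relation.TransGen Elem Y X := by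
  induction h with
  | single h => exact .single h.symm
  | tail _ h ih => exact .trans (.single h.symm) ih

/-- the `N × N` corner of an infinite matrix -/
def corner (f : ℕ → ℕ → ℕ) (N : ℕ) : Obj := ⟨N, Matrix.of (fun i j => f i j)⟩

lemma elem_corner {f : ℕ → ℕ → ℕ} {N : ℕ} (h : ∀ j ≤ N, f N j = 0) :
    Elem (corner f (N + 1)) (corner f N) := by
  have e1 : (Matrix.of (fun i j => f i j) : Matrix (Fin (N + 1)) (Fin (N + 1)) ℕ)
      = (Matrix.of (fun i k => if (i : ℕ) = (k : ℕ) then 1 else 0) : Matrix (Fin (N + 1)) (Fin N) ℕ)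
        * (Matrix.of (fun k j => f k j) : Matrix (Fin N) (Fin (N + 1)) ℕ) := by
    ext i j
    rw [Matrix.mul_apply]
    simp only [Matrix.of_apply]
    by_cases hi : (i : ℕ) < N
    · rw [Finset.sum_eq_single (⟨i, hi⟩ : Fin N)]
      · simp
      · intro b _ hb
        rw [if_neg, zero_mul]
        intro h1
        exact hb (Fin.ext h1.symm)
      · intro h1
        exact absurd (Finset.mem_univ _) h1
    · have hiN : (i : ℕ) = N := by omega
      rw [hiN, h _ (by omega)]
      symm
      refine Finset.sum_eq_zero fun k _ => ?_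
      rw [if_neg, zero_mul]
      omega
  have e2 : (Matrix.of (fun i j => f i j) : Matrix (Fin N) (Fin N) ℕ)
      = (Matrix.of (fun k j => f k j) : Matrix (Fin N) (Fin (N + 1)) ℕ)
        * (Matrix.of (fun i k => if (i : ℕ) = (k : ℕ) then 1 else 0) : Matrix (Fin (N + 1)) (Fin N) ℕ) := by
    ext k l
    rw [Matrix.mul_apply]
    simp only [Matrix.of_apply]
    rw [Finset.sum_eq_single (⟨l, by omega⟩ : Fin (N + 1))]
    · simp
    · intro b _ hb
      rw [if_neg, mul_zero]
      intro h1
      exact hb (Fin.ext h1)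
    · intro h1
      exact absurd (Finset.mem_univ _) h1
  exact ⟨_, _, e1, e2⟩

lemma tg_corner {f : ℕ → ℕ → ℕ} {a : ℕ} (h : ∀ N, a ≤ N → ∀ j ≤ N, f N j = 0) :
    ∀ N, a ≤ N → Relation.TransGen Elem (corner f N) (corner f a) := by
  intro N hN
  induction N, hN using Nat.le_induction with
  | base => exact .single (Elem.refl _)
  | succ N hN ih => exact .trans (.single (elem_corner (h N hN))) ih

/-- the `N × N` corner as a list of rows -/
def lst (f : ℕ → ℕ → ℕ) (N : ℕ) : List (List ℕ) :=
  (List.range N).map fun i => (List.range N).map fun j => f i j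

lemma lst_length (f : ℕ → ℕ → ℕ) (N : ℕ) : (lst f N).length = N := by simp [lst]

lemma lst_getD {f : ℕ → ℕ → ℕ} {N i j : ℕ} (hi : i < N) (hj : j < N) :
    ((lst f N).getD i []).getD j 0 = f i j := by
  have h1 : (lst f N).getD i [] = (List.range N).map fun j => f i j := by
    unfold lst
    rw [List.getD_eq_getElem _ _ (by simpa using hi)]
    simp
  rw [h1, List.getD_eq_getElem _ _ (by simpa using hj)]
  simp

lemma mk_eq {L : List (List ℕ)} {N : ℕ} {f : ℕ → ℕ → ℕ} (hN : L.length = N)
    (h : ∀ i < N, ∀ j < N, (L.getD i []).getD j 0 = f i j) : mk L = corner f N := by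
  subst hN
  unfold mk corner
  congr 1
  ext i j
  exact h i i.2 j j.2

lemma mk_lst (f : ℕ → ℕ → ℕ) (N : ℕ) : mk (lst f N) = corner f N :=
  mk_eq (lst_length f N) fun _ hi _ hj => lst_getD hi hj

/-- triangular numbers -/
def tri (j : ℕ) : ℕ := j * (j - 1) / 2

lemma tri_succ (j : ℕ) : tri (j + 1) = tri j + j := by
  unfold tri
  have h := Nat.choose_succ_succ' j 1
  rw [Nat.choose_one_right] at h
  change (j + 1).choose 2 = j + j.choose 2 at h
  rw [← Nat.choose_two_right, ← Nat.choose_two_right]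
  omega

lemma tri_mono {a b : ℕ} (h : a ≤ b) : tri a ≤ tri b := by
  induction b, h using Nat.le_induction with
  | base => exact le_rfl
  | succ b _ ih => rw [tri_succ]; omega

lemma two_tri (j : ℕ) : 2 * tri j + j = j * j := by
  induction j with
  | zero => rfl
  | succ j ih => rw [tri_succ]; nlinarith

lemma tri_surj {d s : ℕ} : ∀ N, tri d ≤ s → s < tri N → ∃ j i, d ≤ j ∧ j < N ∧ i < j ∧ s = tri j + i := by
  intro N
  induction N with
  | zero => intro _ h; simp [tri] at h
  | succ N ih =>
    intro h1 h2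
    rcases Nat.lt_or_ge s (tri N) with h | h
    · obtain ⟨j, i, a, b, c, e⟩ := ih h1 h
      exact ⟨j, i, a, by omega, c, e⟩
    · rw [tri_succ] at h2
      refine ⟨N, s - tri N, ?_, by omega, by omega, by omega⟩
      by_contra hd
      push Not at hd
      have := tri_mono (a := N + 1) (b := d) hd
      rw [tri_succ] at this
      omega

/-- the extended matrix: `A`, then columns with arbitrary entries above the diagonal -/
def fe (L : List (List ℕ)) (d M k o i j : ℕ) : ℕ :=
  bif decide (j + 1 ≤ d) then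
    (bif decide (i + 1 ≤ L.length) && decide (j + 1 ≤ L.length) then (L.getD i []).getD j 0 else 0)
  else (bif decide (i + 1 ≤ j) then dig M k (o + (tri j - tri d + i)) else 0)

lemma fe_row {L : List (List ℕ)} {d M k o N j : ℕ} (hN : L.length ≤ N) (hj : j ≤ N) :
    fe L d M k o N j = 0 := by
  unfold fe
  have h1 : decide (N + 1 ≤ L.length) = false := by rw [decide_eq_false_iff_not]; omega
  have h2 : decide (N + 1 ≤ j) = false := by rw [decide_eq_false_iff_not]; omega
  rw [h1, h2]
  cases decide (j + 1 ≤ d) <;> rfl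

lemma fe_old {L : List (List ℕ)} {d M k o i j : ℕ} (hd : L.length ≤ d) (hi : i < L.length)
    (hj : j < L.length) : fe L d M k o i j = (L.getD i []).getD j 0 := by
  unfold fe
  have h1 : decide (i + 1 ≤ L.length) = true := by rw [decide_eq_true_eq]; omega
  have h2 : decide (j + 1 ≤ L.length) = true := by rw [decide_eq_true_eq]; omega
  have h3 : decide (j + 1 ≤ d) = true := by rw [decide_eq_true_eq]; omega
  rw [h1, h2, h3]
  rfl

lemma fe_new {L : List (List ℕ)} {d M k o i j : ℕ} (hd : d ≤ j) (hi : i < j) :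
    fe L d M k o i j = dig M k (o + (tri j - tri d + i)) := by
  unfold fe
  have h1 : decide (j + 1 ≤ d) = false := by rw [decide_eq_false_iff_not]; omega
  have h2 : decide (i + 1 ≤ j) = true := by rw [decide_eq_true_eq]; omega
  rw [h1, h2]
  rfl

/-- the extension is strong shift equivalent to the matrix -/
lemma tg_ext {L : List (List ℕ)} {d N : ℕ} (hd : L.length ≤ d) (hN : d ≤ N) (M k o : ℕ) :
    Relation.TransGen Elem (mk (lst (fe L d M k o) N)) (mk L) := by
  rw [mk_lst, mk_eq (L := L) (N := L.length) (f := fe L d M k o) rfl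
    (fun i hi j hj => (fe_old hd hi hj).symm)]
  exact tg_corner (fun N' hN' j hj => fe_row hN' hj) N (hd.trans hN)

/-- sum of the entries -/
def se (L : List (List ℕ)) : ℕ := (L.map List.sum).sum

lemma entry_le (L : List (List ℕ)) (i j : ℕ) : (L.getD i []).getD j 0 ≤ se L := by
  rcases Nat.lt_or_ge i L.length with h | h
  · rw [List.getD_eq_getElem _ _ h]
    have h1 : (L[i]).sum ≤ se L := List.le_sum_of_mem (List.mem_map.2 ⟨_, List.getElem_mem h, rfl⟩)
    rcases Nat.lt_or_ge j (L[i]).length with h2 | h2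
    · rw [List.getD_eq_getElem _ _ h2]
      exact (List.le_sum_of_mem (List.getElem_mem h2)).trans h1
    · rw [List.getD_eq_default _ _ h2]
      exact Nat.zero_le _
  · rw [List.getD_eq_default _ _ h]
    simp

lemma fe_le (L : List (List ℕ)) (d M k o i j : ℕ) : fe L d M k o i j ≤ se L + M := by
  unfold fe
  cases decide (j + 1 ≤ d)
  · cases decide (i + 1 ≤ j)
    · exact Nat.zero_le _
    · exact (dig_le _ _ _).trans (Nat.le_add_left _ _)
  · cases decide (i + 1 ≤ L.length) && decide (j + 1 ≤ L.length)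
    · exact Nat.zero_le _
    · exact (entry_le L i j).trans (Nat.le_add_right _ _)

/-- pairs of `N × N` matrices with entries at most `H` -/
def Inputs (N H : ℕ) : Set (List (List ℕ) × List (List ℕ)) :=
  {p | ∃ f g : ℕ → ℕ → ℕ, (∀ i j, f i j ≤ H ∧ g i j ≤ H) ∧ p = (lst f N, lst g N)}

/-- `A` errs on `p` -/
def Errs (A : List (List ℕ) × List (List ℕ) → Bool) (p : List (List ℕ) × List (List ℕ)) : Prop :=
  ¬ (A p = true ↔ SSE p)

/-- the modified input -/
def inp (p : List (List ℕ) × List (List ℕ)) (d N M k : ℕ) : List (List ℕ) × List (List ℕ) :=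
  (lst (fe p.1 d M k 0) N, lst (fe p.2 d M k (tri N - tri d)) N)

lemma inp_sse {p : List (List ℕ) × List (List ℕ)} {d N : ℕ} (h1 : p.1.length ≤ d)
    (h2 : p.2.length ≤ d) (hN : d ≤ N) (M k : ℕ) : SSE (inp p d N M k) ↔ SSE p := by
  have e1 := tg_ext h1 hN M k 0
  have e2 := tg_ext h2 hN M k (tri N - tri d)
  constructor
  · intro h
    exact (tg_symm e1).trans (h.trans e2)
  · intro h
    exact e1.trans (h.trans (tg_symm e2))

lemma inp_mem (p : List (List ℕ) × List (List ℕ)) (d N M k : ℕ) :
    inp p d N M k ∈ Inputs N (se p.1 + se p.2 + M) :=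
  ⟨_, _, fun i j => ⟨(fe_le p.1 d M k 0 i j).trans (by omega),
    (fe_le p.2 d M k (tri N - tri d) i j).trans (by omega)⟩, rfl⟩

lemma inp_inj {p : List (List ℕ) × List (List ℕ)} {d N M k k' : ℕ} (hN : d ≤ N)
    (hk : k < (M + 1) ^ (2 * (tri N - tri d))) (hk' : k' < (M + 1) ^ (2 * (tri N - tri d)))
    (h : inp p d N M k = inp p d N M k') : k = k' := by
  have hd := tri_mono hN
  rw [eq_sum_dig M _ k hk, eq_sum_dig M _ k' hk']
  refine Finset.sum_congr rfl fun s hs => ?_
  rw [Finset.mem_range] at hs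
  congr 1
  rcases Nat.lt_or_ge s (tri N - tri d) with h1 | h1
  · obtain ⟨j, i, a, b, c, e⟩ := tri_surj (d := d) (s := s + tri d) N (by omega) (by omega)
    have h2 : lst (fe p.1 d M k 0) N = lst (fe p.1 d M k' 0) N := congrArg Prod.fst h
    have h3 := lst_getD (f := fe p.1 d M k 0) (N := N) (i := i) (j := j) (by omega) b
    rw [h2, lst_getD (by omega) b, fe_new a c, fe_new a c] at h3
    have e1 : 0 + (tri j - tri d + i) = s := by
      have := tri_mono a
      omega
    rw [e1] at h3
    exact h3.symm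
  · obtain ⟨j, i, a, b, c, e⟩ := tri_surj (d := d) (s := s - (tri N - tri d) + tri d) N (by omega)
      (by omega)
    have h2 : lst (fe p.2 d M k (tri N - tri d)) N = lst (fe p.2 d M k' (tri N - tri d)) N :=
      congrArg Prod.snd h
    have h3 := lst_getD (f := fe p.2 d M k (tri N - tri d)) (N := N) (i := i) (j := j) (by omega) b
    rw [h2, lst_getD (by omega) b, fe_new a c, fe_new a c] at h3
    have e1 : tri N - tri d + (tri j - tri d + i) = s := by
      have := tri_mono a
      omega
    rw [e1] at h3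
    exact h3.symm

/-- size of the input -/
def big (p : List (List ℕ) × List (List ℕ)) : ℕ := se p.1 + se p.2 + 1

/-- range of the new entries -/
def mm (p : List (List ℕ) × List (List ℕ)) (F K : ℕ) : ℕ := 2 * K * (2 * big p) ^ F

lemma vote {A : List (List ℕ) × List (List ℕ) → Bool} {p : List (List ℕ) × List (List ℕ)}
    {d N F K : ℕ} (h1 : p.1.length ≤ d) (h2 : p.2.length ≤ d) (hN : d ≤ N)
    (hF : F = 2 * (tri N - tri d)) (hF1 : 1 ≤ F)
    (h : ∀ H : ℕ, {p' | p' ∈ Inputs N H ∧ Errs A p'}.encard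
      ≤ ((K * (H + 1) ^ (F - 1) : ℕ) : ℕ∞)) :
    ((mm p F K + 1) ^ F < 2 * cnt (fun k => A (inp p d N (mm p F K) k)) ((mm p F K + 1) ^ F))
      ↔ SSE p := by
  classical
  obtain ⟨M, hM⟩ : ∃ M, M = mm p F K := ⟨_, rfl⟩
  rw [← hM]
  obtain ⟨W, hW⟩ : ∃ W, W = (Finset.range ((M + 1) ^ F)).filter
    (fun k => A (inp p d N M k) ≠ decide (SSE p)) := ⟨_, rfl⟩
  have g1 : (W.card : ℕ∞) ≤ ((K * (se p.1 + se p.2 + M + 1) ^ (F - 1) : ℕ) : ℕ∞) := by
    refine le_trans ?_ (h (se p.1 + se p.2 + M))
    rw [← Set.encard_coe_eq_coe_finsetCard]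
    have h3 : Set.InjOn (fun k => inp p d N M k) (W : Set ℕ) := by
      intro k hk k' hk' hkk
      rw [hW, Finset.mem_coe, Finset.mem_filter, Finset.mem_range] at hk hk'
      rw [hF] at hk hk'
      exact inp_inj hN hk.1 hk'.1 hkk
    rw [← h3.encard_image]
    refine Set.encard_le_encard ?_
    rintro _ ⟨k, hk, rfl⟩
    rw [hW, Finset.mem_coe, Finset.mem_filter, Finset.mem_range] at hk
    refine ⟨inp_mem p d N M k, ?_⟩
    intro h4
    rw [inp_sse h1 h2 hN] at h4
    apply hk.2
    rw [Bool.eq_iff_iff, decide_eq_true_eq]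
    exact h4
  have g2 : W.card ≤ K * (se p.1 + se p.2 + M + 1) ^ (F - 1) := by exact_mod_cast g1
  have g3 : se p.1 + se p.2 + M + 1 ≤ 2 * big p * (M + 1) := by
    unfold big
    nlinarith
  have g4 : W.card ≤ K * (2 * big p) ^ (F - 1) * (M + 1) ^ (F - 1) := by
    refine g2.trans ?_
    rw [mul_assoc, ← mul_pow]
    exact Nat.mul_le_mul_left _ (Nat.pow_le_pow_left g3 _)
  have g5 : 2 * (K * (2 * big p) ^ (F - 1) * (M + 1) ^ (F - 1)) < (M + 1) ^ F := by
    have e1 : (M + 1) ^ F = (M + 1) * (M + 1) ^ (F - 1) := by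
      rw [← pow_succ']
      congr 1
      omega
    rw [e1, ← mul_assoc]
    refine Nat.mul_lt_mul_of_pos_right ?_ (by positivity)
    have e2 : 2 * (K * (2 * big p) ^ (F - 1)) ≤ M := by
      rw [hM]
      unfold mm
      rw [← mul_assoc]
      exact Nat.mul_le_mul_left _ (Nat.pow_le_pow_right (by unfold big; omega) (by omega))
    omega
  rw [hW] at g4
  exact (majority g4 g5).trans (by simp)

/-! ### computability -/

theorem getDD_primrec {α : Type*} [Primcodable α] {L : α → List (List ℕ)} {i j : α → ℕ}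
    (hL : Primrec L) (hi : Primrec i) (hj : Primrec j) :
    Primrec (fun a => ((L a).getD (i a) []).getD (j a) 0) :=
  (Primrec.list_getD (0 : ℕ)).comp ((Primrec.list_getD ([] : List ℕ)).comp hL hi) hj

theorem fe_primrec {α : Type*} [Primcodable α] {L : α → List (List ℕ)} {d M k o i j : α → ℕ}
    (hL : Primrec L) (hd : Primrec d) (hM : Primrec M) (hk : Primrec k) (ho : Primrec o)
    (hi : Primrec i) (hj : Primrec j) :
    Primrec (fun a => fe (L a) (d a) (M a) (k a) (o a) (i a) (j a)) := by
  unfold fe tri dig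
  have h1 := getDD_primrec hL hi hj
  have h2 : Primrec (fun a => bif decide (i a + 1 ≤ (L a).length) && decide (j a + 1 ≤ (L a).length)
      then ((L a).getD (i a) []).getD (j a) 0 else 0) :=
    pcond (by fun_prop) h1 (by fun_prop)
  exact pcond (by fun_prop) h2 (by fun_prop)

theorem lst_primrec : Primrec (fun x : List (List ℕ) × ℕ × ℕ × ℕ × ℕ × ℕ =>
    lst (fe x.1 x.2.1 x.2.2.1 x.2.2.2.1 x.2.2.2.2.1) x.2.2.2.2.2) := by
  unfold lst
  refine pmap (by fun_prop) (pmap (by fun_prop) ?_)
  exact fe_primrec (by fun_prop) (by fun_prop) (by fun_prop) (by fun_prop) (by fun_prop)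
    (by fun_prop) (by fun_prop)

theorem se_primrec : Primrec se := by
  unfold se
  exact psum (pmap (by fun_prop) (by fun_prop))

theorem mm_primrec : Primrec (fun x : (List (List ℕ) × List (List ℕ)) × ℕ × ℕ =>
    mm x.1 x.2.1 x.2.2) := by
  unfold mm big
  have h1 : Primrec (fun x : (List (List ℕ) × List (List ℕ)) × ℕ × ℕ => se x.1.1) :=
    se_primrec.comp (by fun_prop)
  have h2 : Primrec (fun x : (List (List ℕ) × List (List ℕ)) × ℕ × ℕ => se x.1.2) :=
    se_primrec.comp (by fun_prop)
  have h3 : Primrec (fun x : (List (List ℕ) × List (List ℕ)) × ℕ × ℕ => 2 * x.2.2) := by fun_prop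
  have h4 : Primrec (fun x : (List (List ℕ) × List (List ℕ)) × ℕ × ℕ => x.2.1) := by fun_prop
  exact pmul h3 (ppow (pmul (pconst 2) (padd (padd h1 h2) (pconst 1))) h4)

set_option maxHeartbeats 400000 in
theorem lst_comp {α : Type*} [Primcodable α] {L : α → List (List ℕ)} {d M k o N : α → ℕ}
    (hL : Computable L) (hd : Computable d) (hM : Computable M) (hk : Computable k)
    (ho : Computable o) (hN : Computable N) :
    Computable (fun a => lst (fe (L a) (d a) (M a) (k a) (o a)) (N a)) := by
  have h1 : Computable (fun a => (L a, d a, M a, k a, o a, N a)) :=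
    hL.pair (hd.pair (hM.pair (hk.pair (ho.pair hN))))
  exact Computable.comp (f := fun x : List (List ℕ) × ℕ × ℕ × ℕ × ℕ × ℕ =>
    lst (fe x.1 x.2.1 x.2.2.1 x.2.2.2.1 x.2.2.2.2.1) x.2.2.2.2.2)
    (g := fun a => (L a, d a, M a, k a, o a, N a)) lst_primrec.to_comp h1

set_option maxHeartbeats 400000 in
theorem mm_comp {α : Type*} [Primcodable α] {p : α → List (List ℕ) × List (List ℕ)} {F K : α → ℕ}
    (hp : Computable p) (hF : Computable F) (hK : Computable K) :
    Computable (fun a => mm (p a) (F a) (K a)) := by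
  have h1 : Computable (fun a => (p a, F a, K a)) := hp.pair (hF.pair hK)
  exact Computable.comp (f := fun x : (List (List ℕ) × List (List ℕ)) × ℕ × ℕ =>
    mm x.1 x.2.1 x.2.2) (g := fun a => (p a, F a, K a)) mm_primrec.to_comp h1

attribute [local irreducible] lst mm fe cnt

set_option maxHeartbeats 400000 in
theorem inp_comp {α : Type*} [Primcodable α] {p : α → List (List ℕ) × List (List ℕ)}
    {d N M k : α → ℕ} (hp : Computable p) (hd : Computable d) (hN : Computable N)
    (hM : Computable M) (hk : Computable k) :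
    Computable (fun a => inp (p a) (d a) (N a) (M a) (k a)) := by
  have h1 : Computable (fun a => lst (fe (p a).1 (d a) (M a) (k a) 0) (N a)) :=
    lst_comp (o := fun _ => 0) (Computable.fst.comp hp) hd hM hk (Computable.const 0) hN
  have ho : Computable (fun a => tri (N a) - tri (d a)) := by
    have : Primrec (fun x : ℕ × ℕ => tri x.1 - tri x.2) := by
      unfold tri
      fun_prop
    exact this.to_comp.comp (hN.pair hd)
  have h2 : Computable (fun a => lst (fe (p a).2 (d a) (M a) (k a) (tri (N a) - tri (d a))) (N a)) :=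
    lst_comp (Computable.snd.comp hp) hd hM hk ho hN
  exact h1.pair h2

attribute [local irreducible] inp

set_option maxHeartbeats 400000 in
/-- **Self correction for strong shift equivalence.** -/
theorem sse_correct {A : List (List ℕ) × List (List ℕ) → Bool} {N K : ℕ → ℕ} (hA : Computable A)
    (hN : Computable N) (hK : Computable K) (hN1 : ∀ d, d + 2 ≤ N d)
    (h : ∀ d H : ℕ, {p | p ∈ Inputs (N d) H ∧ Errs A p}.encard
      ≤ ((K d * (H + 1) ^ (2 * (tri (N d) - tri d) - 1) : ℕ) : ℕ∞)) : ComputablePred SSE := by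
  classical
  obtain ⟨D, hD⟩ : ∃ D : List (List ℕ) × List (List ℕ) → ℕ, D = fun p => p.1.length + p.2.length :=
    ⟨_, rfl⟩
  have c0 : Computable D := by
    rw [hD]
    have : Primrec (fun p : List (List ℕ) × List (List ℕ) => p.1.length + p.2.length) := by fun_prop
    exact this.to_comp
  have c1 : Computable (fun p => N (D p)) := hN.comp c0
  have c2 : Computable (fun p => K (D p)) := hK.comp c0
  obtain ⟨F, hF⟩ : ∃ F : List (List ℕ) × List (List ℕ) → ℕ,
    F = fun p => 2 * (tri (N (D p)) - tri (D p)) := ⟨_, rfl⟩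
  have c3 : Computable F := by
    rw [hF]
    have : Primrec (fun x : ℕ × ℕ => 2 * (tri x.1 - tri x.2)) := by
      unfold tri
      fun_prop
    exact this.to_comp.comp (c1.pair c0)
  have c4 : Computable (fun p => mm p (F p) (K (D p))) := mm_comp Computable.id c3 c2
  have c5 : Computable (fun p => (mm p (F p) (K (D p)) + 1) ^ F p) := by
    have h1 : Primrec (fun p : ℕ × ℕ => (p.1 + 1) ^ p.2) := by fun_prop
    exact h1.to_comp.comp (c4.pair c3)
  have c6 : Computable (fun x : (List (List ℕ) × List (List ℕ)) × ℕ =>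
      A (inp x.1 (D x.1) (N (D x.1)) (mm x.1 (F x.1) (K (D x.1))) x.2)) :=
    hA.comp (inp_comp (p := fun x : (List (List ℕ) × List (List ℕ)) × ℕ => x.1) Computable.fst
      (c0.comp Computable.fst) (c1.comp Computable.fst) (c4.comp Computable.fst) Computable.snd)
  have c7 : Computable (fun p => cnt (fun k => A (inp p (D p) (N (D p)) (mm p (F p) (K (D p))) k))
      ((mm p (F p) (K (D p)) + 1) ^ F p)) :=
    cnt_comp (f := fun p k => A (inp p (D p) (N (D p)) (mm p (F p) (K (D p))) k)) c6 c5
  have c8 : Computable (fun p => decide ((mm p (F p) (K (D p)) + 1) ^ F p <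
      2 * cnt (fun k => A (inp p (D p) (N (D p)) (mm p (F p) (K (D p))) k))
      ((mm p (F p) (K (D p)) + 1) ^ F p))) := by
    have h2 : Primrec (fun x : ℕ × ℕ => decide (x.1 + 1 ≤ 2 * x.2)) := by fun_prop
    have h3 := h2.to_comp.comp (c5.pair c7)
    exact h3.of_eq fun p => rfl
  refine ⟨inferInstance, ?_⟩
  refine c8.of_eq fun p => ?_
  rw [decide_eq_decide]
  have hF2 : F p = 2 * (tri (N (D p)) - tri (D p)) := by rw [hF]
  refine vote (by rw [hD]; exact Nat.le_add_right _ _) (by rw [hD]; exact Nat.le_add_left _ _)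
    (by have := hN1 (D p); omega) hF2 ?_ (fun H => by rw [hF2]; exact h (D p) H)
  rw [hF2]
  have h1 := tri_mono (hN1 (D p))
  rw [tri_succ, tri_succ] at h1
  omega

end Pool.Agent.Q324.SC.Mat
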