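import Mathlib
import Pool.Agent.Q324.SC.Comp
import Pool.Agent.Q324.SC.IntOps

/-!
# Generating sets of the groups of the curves `x³ + y³ = A z³` and cubic factors of `A`
-/

set_option autoImplicit false

namespace Pool.Agent.Q324.SC.Cub

open Pool.Agent.Q324.SC

/-- Homogeneous integral coordinates. -/
abbrev V3 : Type := ℤ × ℤ × ℤ

/-- The cubic form with values in a ring. -/
def form {R : Type} [CommRing R] (A : ℤ) (v : R × R × R) : R :=
  v.1 ^ 3 + v.2.1 ^ 3 - (A : R) * v.2.2 ^ 3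

/-- `v` are homogeneous coordinates of a rational point of `x³ + y³ = A z³`. -/
def OnC (A : ℤ) (v : V3) : Prop := v ≠ 0 ∧ form A v = 0

/-- rational coordinates -/
def toQ (v : V3) : ℚ × ℚ × ℚ := ((v.1 : ℚ), (v.2.1 : ℚ), (v.2.2 : ℚ))

/-- The points `P`, `Q`, `R` are the intersection of the curve with a line, counted with
multiplicity: the line is parametrised by `s U + t V`, and the restriction of the cubic form to it
is the product of the linear forms that vanish at `P`, `Q`, `R`. -/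
def OnLine (A : ℤ) (P Q R : V3) : Prop :=
  ∃ (U V : ℚ × ℚ × ℚ) (c p₁ p₂ q₁ q₂ r₁ r₂ : ℚ),
    (∀ s t : ℚ, s • U + t • V = 0 → s = 0 ∧ t = 0) ∧ c ≠ 0 ∧
    toQ P = p₁ • U + p₂ • V ∧ toQ Q = q₁ • U + q₂ • V ∧ toQ R = r₁ • U + r₂ • V ∧
    ∀ s t : ℚ, form A (s • U + t • V)
      = c * (s * p₂ - t * p₁) * (s * q₂ - t * q₁) * (s * r₂ - t * r₁)

/-- `S` is (the set of the coordinates of) a set of rational points of the curve that contains `O`
and with `P` and `Q` the third point of the line through `P` and `Q`; in other words, a subgroup. -/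
structure Sub (A : ℤ) (S : Set V3) : Prop where
  zero : ((1 : ℤ), (-1 : ℤ), (0 : ℤ)) ∈ S
  scale : ∀ v w : V3, ∀ a b : ℤ, a ≠ 0 → b ≠ 0 → a • v = b • w → v ∈ S → w ∈ S
  line : ∀ P Q R : V3, P ∈ S → Q ∈ S → OnC A R → OnLine A P Q R → R ∈ S

/-- The points in the list lie on the curve and generate the group. -/
def Generates (A : ℤ) (l : List V3) : Prop :=
  (∀ P ∈ l, OnC A P) ∧ ∀ S : Set V3, Sub A S → (∀ P ∈ l, P ∈ S) → ∀ R, OnC A R → R ∈ S

/-- `m` is the least size of a generating set. -/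
def IsRank (A : ℤ) (m : ℕ) : Prop :=
  (∃ l, Generates A l ∧ l.length = m) ∧ ∀ l, Generates A l → m ≤ l.length

/-- multiplication of the first two coordinates by `a` and of the last one by `b` -/
def dg (a b : ℤ) (v : V3) : V3 := (a * v.1, a * v.2.1, b * v.2.2)

/-- the same for rational coordinates -/
def dgQ (a b : ℤ) (v : ℚ × ℚ × ℚ) : ℚ × ℚ × ℚ := ((a : ℚ) * v.1, (a : ℚ) * v.2.1, (b : ℚ) * v.2.2)

lemma toQ_dg (a b : ℤ) (v : V3) : toQ (dg a b v) = dgQ a b (toQ v) := by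
  simp [toQ, dg, dgQ]

lemma dgQ_lin (a b : ℤ) (s t : ℚ) (U V : ℚ × ℚ × ℚ) :
    dgQ a b (s • U + t • V) = s • dgQ a b U + t • dgQ a b V := by
  simp only [dgQ, Prod.smul_fst, Prod.smul_snd, Prod.fst_add, Prod.snd_add, smul_eq_mul,
    Prod.smul_mk, Prod.mk_add_mk]
  refine Prod.ext ?_ (Prod.ext ?_ ?_) <;> simp <;> ring

lemma dgQ_zero {a b : ℤ} (ha : a ≠ 0) (hb : b ≠ 0) {v : ℚ × ℚ × ℚ} (h : dgQ a b v = 0) : v = 0 := by
  have ha' : (a : ℚ) ≠ 0 := by exact_mod_cast ha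
  have hb' : (b : ℚ) ≠ 0 := by exact_mod_cast hb
  have h1 := congrArg Prod.fst h
  have h2 := congrArg (fun x => x.2.1) h
  have h3 := congrArg (fun x => x.2.2) h
  simp only [dgQ, Prod.fst_zero, Prod.snd_zero, mul_eq_zero, ha', hb', false_or] at h1 h2 h3
  exact Prod.ext h1 (Prod.ext h2 h3)

lemma dg_ne {a b : ℤ} (ha : a ≠ 0) (hb : b ≠ 0) {v : V3} (h : v ≠ 0) : dg a b v ≠ 0 := by
  intro h0
  apply h
  have h1 := congrArg Prod.fst h0
  have h2 := congrArg (fun x => x.2.1) h0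
  have h3 := congrArg (fun x => x.2.2) h0
  simp only [dg, Prod.fst_zero, Prod.snd_zero, mul_eq_zero, ha, hb, false_or] at h1 h2 h3
  exact Prod.ext h1 (Prod.ext h2 h3)

/-- The cubic form for `A'` after the map, if `a³ A = A' b³`. -/
lemma form_dg {A A' a b : ℤ} (h : a ^ 3 * A = A' * b ^ 3) (v : V3) :
    form A' (dg a b v) = a ^ 3 * form A v := by
  simp only [form, dg, Int.cast_id]
  linear_combination v.2.2 ^ 3 * h

lemma form_dgQ {A A' a b : ℤ} (h : a ^ 3 * A = A' * b ^ 3) (v : ℚ × ℚ × ℚ) :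
    form A' (dgQ a b v) = (a : ℚ) ^ 3 * form A v := by
  have h' : (a : ℚ) ^ 3 * (A : ℚ) = (A' : ℚ) * (b : ℚ) ^ 3 := by exact_mod_cast h
  simp only [form, dgQ]
  linear_combination v.2.2 ^ 3 * h'

lemma onC_dg {A A' a b : ℤ} (ha : a ≠ 0) (hb : b ≠ 0) (h : a ^ 3 * A = A' * b ^ 3) {v : V3}
    (hv : OnC A v) : OnC A' (dg a b v) :=
  ⟨dg_ne ha hb hv.1, by rw [form_dg h, hv.2, mul_zero]⟩

lemma onLine_dg {A A' a b : ℤ} (ha : a ≠ 0) (hb : b ≠ 0) (h : a ^ 3 * A = A' * b ^ 3)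
    {P Q R : V3} (hl : OnLine A P Q R) : OnLine A' (dg a b P) (dg a b Q) (dg a b R) := by
  obtain ⟨U, V, c, p₁, p₂, q₁, q₂, r₁, r₂, h1, h2, h3, h4, h5, h6⟩ := hl
  refine ⟨dgQ a b U, dgQ a b V, (a : ℚ) ^ 3 * c, p₁, p₂, q₁, q₂, r₁, r₂, ?_, ?_, ?_, ?_, ?_, ?_⟩
  · intro s t hst
    rw [← dgQ_lin] at hst
    exact h1 s t (dgQ_zero ha hb hst)
  · have : (a : ℚ) ≠ 0 := by exact_mod_cast ha
    positivity
  · rw [toQ_dg, h3, dgQ_lin]
  · rw [toQ_dg, h4, dgQ_lin]
  · rw [toQ_dg, h5, dgQ_lin]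
  · intro s t
    rw [← dgQ_lin, form_dgQ h, h6]
    ring

/-- Generating sets are mapped to generating sets. -/
lemma generates_dg {A A' a b : ℤ} (ha : a ≠ 0) (hb : b ≠ 0) (h : a ^ 3 * A = A' * b ^ 3)
    {l : List V3} (hl : Generates A l) {l' : List V3} (h1 : ∀ P ∈ l', OnC A' P)
    (h2 : ∀ P ∈ l, dg a b P ∈ l') : Generates A' l' := by
  refine ⟨h1, fun S hS hSl R hR => ?_⟩
  have hT : Sub A {v | dg a b v ∈ S} := by
    refine ⟨?_, ?_, ?_⟩
    · refine hS.scale (1, -1, 0) _ a 1 ha one_ne_zero ?_ hS.zero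
      simp [dg]
    · intro v w x y hx hy hxy hv
      refine hS.scale (dg a b v) _ x y hx hy ?_ hv
      have e1 := congrArg Prod.fst hxy
      have e2 := congrArg (fun x => x.2.1) hxy
      have e3 := congrArg (fun x => x.2.2) hxy
      simp only [Prod.smul_fst, Prod.smul_snd, smul_eq_mul] at e1 e2 e3
      refine Prod.ext ?_ (Prod.ext ?_ ?_)
      · show x * (a * v.1) = y * (a * w.1)
        linear_combination a * e1
      · show x * (a * v.2.1) = y * (a * w.2.1)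
        linear_combination a * e2
      · show x * (b * v.2.2) = y * (b * w.2.2)
        linear_combination b * e3
    · intro P Q R hP hQ hR hl
      exact hS.line _ _ _ hP hQ (onC_dg ha hb h hR) (onLine_dg ha hb h hl)
  have h3 : OnC A (dg b a R) := onC_dg hb ha (by linear_combination -h) hR
  have h4 := hl.2 _ hT (fun P hP => hSl _ (h2 P hP)) _ h3
  have h5 : dg a b (dg b a R) ∈ S := h4
  refine hS.scale _ R 1 (a * b) one_ne_zero (mul_ne_zero ha hb) ?_ h5
  refine Prod.ext ?_ (Prod.ext ?_ ?_)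
  · show 1 * (a * (b * R.1)) = a * b * R.1
    ring
  · show 1 * (a * (b * R.2.1)) = a * b * R.2.1
    ring
  · show 1 * (b * (a * R.2.2)) = a * b * R.2.2
    ring

lemma generates_map {A A' a b : ℤ} (ha : a ≠ 0) (hb : b ≠ 0) (h : a ^ 3 * A = A' * b ^ 3)
    {l : List V3} (hl : Generates A l) : Generates A' (l.map (dg a b)) := by
  refine generates_dg ha hb h hl ?_ (fun P hP => List.mem_map.2 ⟨P, hP, rfl⟩)
  intro P hP
  obtain ⟨Q, hQ, rfl⟩ := List.mem_map.1 hP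
  exact onC_dg ha hb h (hl.1 Q hQ)

/-- A cubic factor of `A` does not change the least size of a generating set. -/
lemma isRank_dg {A A' a b : ℤ} (ha : a ≠ 0) (hb : b ≠ 0) (h : a ^ 3 * A = A' * b ^ 3) {m : ℕ}
    (hm : IsRank A m) : IsRank A' m := by
  obtain ⟨⟨l, hl, e⟩, h2⟩ := hm
  refine ⟨⟨_, generates_map ha hb h hl, by rw [List.length_map, e]⟩, fun l' hl' => ?_⟩
  have := h2 _ (generates_map hb ha (by linear_combination -h) hl')
  rwa [List.length_map] at this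

lemma isRank_cube (A : ℤ) {k : ℕ} (m : ℕ) :
    IsRank (A * ((k : ℤ) + 1) ^ 3) m ↔ IsRank A m := by
  have hk : ((k : ℤ) + 1) ≠ 0 := by positivity
  exact ⟨isRank_dg (a := 1) (b := (k : ℤ) + 1) one_ne_zero hk (by ring),
    isRank_dg (a := (k : ℤ) + 1) (b := 1) hk one_ne_zero (by ring)⟩

lemma isRank_unique {A : ℤ} {m m' : ℕ} (h : IsRank A m) (h' : IsRank A m') : m = m' := by
  obtain ⟨⟨l, hl, e⟩, h2⟩ := h
  obtain ⟨⟨l', hl', e'⟩, h2'⟩ := h'
  have := h2 _ hl'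
  have := h2' _ hl
  omega

/-! ### counting -/

/-- The numbers `A ≠ 0` in `[-X, X]` with the property `B`. -/
def Ex (B : ℤ → Prop) (X : ℕ) : Set ℤ := {A | A ≠ 0 ∧ |A| ≤ X ∧ B A}

lemma count {B : ℤ → Prop} {A : ℤ} (hA : A ≠ 0) {N w : ℕ}
    (h : (Ex B (A.natAbs * N ^ 3)).encard ≤ (w : ℕ∞)) (S : Finset ℕ) (hS : ∀ k ∈ S, k < N)
    (hB : ∀ k ∈ S, B (A * ((k : ℤ) + 1) ^ 3)) : S.card ≤ w := by
  have h1 : (S.card : ℕ∞) ≤ w := by
    refine le_trans ?_ h
    rw [← Set.encard_coe_eq_coe_finsetCard]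
    have h3 : Set.InjOn (fun k : ℕ => A * ((k : ℤ) + 1) ^ 3) (S : Set ℕ) := by
      intro k _ k' _ hkk
      have e1 : ((k : ℤ) + 1) ^ 3 = ((k' : ℤ) + 1) ^ 3 := mul_left_cancel₀ hA hkk
      have e2 : (k + 1) ^ 3 = (k' + 1) ^ 3 := by exact_mod_cast e1
      have e3 := Nat.pow_left_injective (n := 3) (by norm_num) e2
      omega
    rw [← h3.encard_image]
    refine Set.encard_le_encard ?_
    rintro _ ⟨k, hk, rfl⟩
    have hk1 := hS k hk
    refine ⟨mul_ne_zero hA (by positivity), ?_, hB k hk⟩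
    show |A * ((k : ℤ) + 1) ^ 3| ≤ _
    rw [abs_mul, abs_of_nonneg (by positivity : (0 : ℤ) ≤ ((k : ℤ) + 1) ^ 3)]
    push_cast
    rw [← Int.natCast_natAbs A]
    have : ((k : ℤ) + 1) ^ 3 ≤ (N : ℤ) ^ 3 := by
      refine pow_le_pow_left₀ (by positivity) ?_ 3
      exact_mod_cast hk1
    exact mul_le_mul_of_nonneg_left this (by positivity)
  exact_mod_cast h1

/-! ### the functions and their computability -/

/-- The points that come from the output for `A (k + 1)³`. -/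
def back (A : ℤ) (k : ℕ) (l : List V3) : List V3 :=
  l.flatMap fun v => bif decide (v.1 * v.1 * v.1 + v.2.1 * v.2.1 * v.2.1
      = A * ((((k + 1 : ℕ) : ℤ) * v.2.2) * (((k + 1 : ℕ) : ℤ) * v.2.2)
        * (((k + 1 : ℕ) : ℤ) * v.2.2))) && decide (¬ v = 0)
    then [(v.1, v.2.1, ((k + 1 : ℕ) : ℤ) * v.2.2)] else []

/-- The union of the lists of points. -/
def uni (f : ℤ → List V3) (A : ℤ) (N : ℕ) : List V3 :=
  Nat.rec (motive := fun _ => List V3) []
    (fun k acc => acc ++ back A k (f (A * ((((k + 1) * (k + 1) * (k + 1) : ℕ)) : ℤ)))) N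

lemma mem_back {A : ℤ} {k : ℕ} {l : List V3} {w : V3} :
    w ∈ back A k l ↔ ∃ v ∈ l, w = dg 1 (k + 1) v ∧ OnC A w := by
  unfold back
  rw [List.mem_flatMap]
  constructor
  · rintro ⟨v, hv, hw⟩
    cases h : (decide (v.1 * v.1 * v.1 + v.2.1 * v.2.1 * v.2.1
      = A * ((((k + 1 : ℕ) : ℤ) * v.2.2) * (((k + 1 : ℕ) : ℤ) * v.2.2)
        * (((k + 1 : ℕ) : ℤ) * v.2.2))) && decide (¬ v = 0)) with
    | false => rw [h] at hw; simp at hw
    | true =>
      rw [h] at hw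
      simp only [cond_true, List.mem_singleton] at hw
      rw [Bool.and_eq_true, decide_eq_true_eq, decide_eq_true_eq] at h
      have e : w = dg 1 (k + 1) v := by
        rw [hw]
        simp [dg]
      refine ⟨v, hv, e, ?_⟩
      rw [e]
      refine ⟨dg_ne one_ne_zero (by positivity) h.2, ?_⟩
      have h1 := h.1
      push_cast at h1
      simp only [form, dg, Int.cast_id]
      linear_combination h1
  · rintro ⟨v, hv, e, h⟩
    refine ⟨v, hv, ?_⟩
    rw [e] at h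
    have hv0 : ¬ v = 0 := by
      rintro rfl
      exact h.1 (by simp [dg])
    have h1 := h.2
    simp only [form, dg, Int.cast_id] at h1
    have h2 : v.1 * v.1 * v.1 + v.2.1 * v.2.1 * v.2.1
      = A * ((((k + 1 : ℕ) : ℤ) * v.2.2) * (((k + 1 : ℕ) : ℤ) * v.2.2)
        * (((k + 1 : ℕ) : ℤ) * v.2.2)) := by
      push_cast
      linear_combination h1
    rw [decide_eq_true h2, decide_eq_true hv0]
    simp only [Bool.and_self, cond_true, List.mem_singleton]
    rw [e]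
    simp [dg]

lemma mem_uni {f : ℤ → List V3} {A : ℤ} {N : ℕ} {w : V3} :
    w ∈ uni f A N ↔ ∃ k < N, w ∈ back A k (f (A * ((k : ℤ) + 1) ^ 3)) := by
  induction N with
  | zero => simp [uni]
  | succ N ih =>
    have e : uni f A (N + 1) = uni f A N
      ++ back A N (f (A * ((((N + 1) * (N + 1) * (N + 1) : ℕ)) : ℤ))) := rfl
    have e2 : ((((N + 1) * (N + 1) * (N + 1) : ℕ)) : ℤ) = ((N : ℤ) + 1) ^ 3 := by
      push_cast
      ring
    rw [e, e2, List.mem_append, ih]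
    constructor
    · rintro (⟨k, hk, h⟩ | h)
      · exact ⟨k, by omega, h⟩
      · exact ⟨N, by omega, h⟩
    · rintro ⟨k, hk, h⟩
      rcases Nat.lt_succ_iff_lt_or_eq.1 hk with h1 | h1
      · exact Or.inl ⟨k, h1, h⟩
      · rw [h1] at h
        exact Or.inr h

/-- One correct answer is enough. -/
lemma uni_generates {f : ℤ → List V3} {A : ℤ} {N : ℕ}
    (h : ∃ k < N, Generates (A * ((k : ℤ) + 1) ^ 3) (f (A * ((k : ℤ) + 1) ^ 3))) :
    Generates A (uni f A N) := by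
  obtain ⟨k, hk, h⟩ := h
  have hk1 : ((k : ℤ) + 1) ≠ 0 := by positivity
  have e : (1 : ℤ) ^ 3 * (A * ((k : ℤ) + 1) ^ 3) = A * ((k : ℤ) + 1) ^ 3 := by ring
  refine generates_dg one_ne_zero hk1 e h ?_ ?_
  · intro P hP
    obtain ⟨k, _, hP⟩ := mem_uni.1 hP
    obtain ⟨_, _, _, h⟩ := mem_back.1 hP
    exact h
  · intro P hP
    exact mem_uni.2 ⟨k, hk, mem_back.2 ⟨P, hP, rfl, onC_dg one_ne_zero hk1 e (h.1 P hP)⟩⟩

/-- The median of the values. -/
def med (f : ℤ → ℕ) (A : ℤ) (N : ℕ) : ℕ :=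
  cnt (fun m => decide (N + 1 ≤ 2 * cnt (fun k =>
    decide (m + 1 ≤ f (A * ((((k + 1) * (k + 1) * (k + 1) : ℕ)) : ℤ)))) N))
    (gmax (fun k => f (A * ((((k + 1) * (k + 1) * (k + 1) : ℕ)) : ℤ))) N)

end Pool.Agent.Q324.SC.Cub
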