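import Mathlib
import Pool.Agent.Q324.SC.Cubes

/-!
# Self correction for generating sets and ranks of `x³ + y³ = A z³`
-/

set_option autoImplicit false

namespace Pool.Agent.Q324.SC.Cub

open Pool.Agent.Q324.SC

lemma med_eq {f : ℤ → ℕ} {A : ℤ} {N v w : ℕ}
    (h : ((Finset.range N).filter (fun k : ℕ => f (A * ((k : ℤ) + 1) ^ 3) ≠ v)).card ≤ w)
    (hw : 2 * w < N) : med f A N = v := by
  obtain ⟨F, hF⟩ : ∃ F : ℕ → ℕ, F = fun k => f (A * ((((k + 1) * (k + 1) * (k + 1) : ℕ)) : ℤ)) :=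
    ⟨_, rfl⟩
  have eF : ∀ k, F k = f (A * ((k : ℤ) + 1) ^ 3) := by
    intro k
    rw [hF]
    show f _ = f _
    congr 1
    push_cast
    ring
  have e : med f A N = cnt (fun m => decide (N + 1 ≤ 2 * cnt (fun k =>
    decide (m + 1 ≤ F k)) N)) (gmax F N) := by rw [hF]; rfl
  have h1 : ∀ m, (decide (N + 1 ≤ 2 * cnt (fun k => decide (m + 1 ≤ F k)) N) = true) ↔ m < v := by
    intro m
    rw [decide_eq_true_eq]
    have h2 : ((Finset.range N).filter
        (fun k => (decide (m + 1 ≤ F k)) ≠ decide (m < v))).card ≤ w := by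
      refine (Finset.card_le_card ?_).trans h
      intro k hk
      rw [Finset.mem_filter] at hk ⊢
      refine ⟨hk.1, fun h3 => hk.2 ?_⟩
      rw [eF k, h3]
      rfl
    have h3 := majority h2 hw
    rw [decide_eq_true_eq] at h3
    exact h3
  have h4 : v ≤ gmax F N := by
    by_contra hc
    have h5 : (Finset.range N).filter (fun k : ℕ => f (A * ((k : ℤ) + 1) ^ 3) ≠ v) = Finset.range N := by
      refine Finset.filter_true_of_mem fun k hk h6 => hc ?_
      rw [Finset.mem_range] at hk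
      rw [← h6, ← eF k]
      exact le_gmax F hk
    rw [h5, Finset.card_range] at h
    omega
  rw [e, cnt_eq]
  have h6 : (Finset.range (gmax F N)).filter (fun m => decide (N + 1 ≤ 2 * cnt (fun k =>
      decide (m + 1 ≤ F k)) N) = true) = Finset.range v := by
    ext m
    rw [Finset.mem_filter, h1, Finset.mem_range, Finset.mem_range]
    omega
  rw [h6, Finset.card_range]

/-! ### computability -/

theorem back_primrec : Primrec (fun x : ℤ × ℕ × List V3 => back x.1 x.2.1 x.2.2) := by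
  unfold back
  refine pflatMap (by fun_prop) ?_
  refine pcond (pand (by fun_prop) ?_) (pcons ?_ (Primrec.const [])) (Primrec.const [])
  · have h1 : PrimrecPred (fun x : (ℤ × ℕ × List V3) × V3 => x.2 = 0) :=
      Primrec.eq.comp (by fun_prop) (by fun_prop)
    exact h1.not.decide
  · fun_prop

theorem arg_primrec : Primrec (fun x : ℤ × ℕ =>
    x.1 * ((((x.2 + 1) * (x.2 + 1) * (x.2 + 1) : ℕ)) : ℤ)) := by
  fun_prop

attribute [local irreducible] back cnt gmax

set_option maxHeartbeats 400000 in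
theorem uni_comp {f : ℤ → List V3} {N : ℤ → ℕ} (hf : Computable f) (hN : Computable N) :
    Computable (fun A => uni f A (N A)) := by
  unfold uni
  refine Computable.nat_rec (f := N) (g := fun _ => ([] : List V3))
    (h := fun A p => p.2 ++ back A p.1 (f (A * ((((p.1 + 1) * (p.1 + 1) * (p.1 + 1) : ℕ)) : ℤ))))
    hN (Computable.const []) ?_
  have c1 : Computable (fun x : ℤ × ℕ × List V3 =>
      f (x.1 * ((((x.2.1 + 1) * (x.2.1 + 1) * (x.2.1 + 1) : ℕ)) : ℤ))) := by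
    refine Computable.comp (f := f) (g := fun x : ℤ × ℕ × List V3 =>
      x.1 * ((((x.2.1 + 1) * (x.2.1 + 1) * (x.2.1 + 1) : ℕ)) : ℤ)) hf ?_
    have : Primrec (fun x : ℤ × ℕ × List V3 =>
      x.1 * ((((x.2.1 + 1) * (x.2.1 + 1) * (x.2.1 + 1) : ℕ)) : ℤ)) := by fun_prop
    exact this.to_comp
  have c2 : Computable (fun x : ℤ × ℕ × List V3 => back x.1 x.2.1
      (f (x.1 * ((((x.2.1 + 1) * (x.2.1 + 1) * (x.2.1 + 1) : ℕ)) : ℤ)))) :=
    Computable.comp (f := fun x : ℤ × ℕ × List V3 => back x.1 x.2.1 x.2.2)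
      (g := fun x : ℤ × ℕ × List V3 => (x.1, x.2.1,
        f (x.1 * ((((x.2.1 + 1) * (x.2.1 + 1) * (x.2.1 + 1) : ℕ)) : ℤ)))) back_primrec.to_comp
      (Computable.fst.pair ((Computable.fst.comp Computable.snd).pair c1))
  exact Primrec.list_append.to_comp.comp (Computable.snd.comp Computable.snd) c2

set_option maxHeartbeats 400000 in
theorem med_comp {f : ℤ → ℕ} {N : ℤ → ℕ} (hf : Computable f) (hN : Computable N) :
    Computable (fun A => med f A (N A)) := by
  unfold med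
  have c1 : Computable (fun x : ℤ × ℕ =>
      f (x.1 * ((((x.2 + 1) * (x.2 + 1) * (x.2 + 1) : ℕ)) : ℤ))) :=
    Computable.comp (f := f) (g := fun x : ℤ × ℕ =>
      x.1 * ((((x.2 + 1) * (x.2 + 1) * (x.2 + 1) : ℕ)) : ℤ)) hf arg_primrec.to_comp
  have c2 : Computable (fun A : ℤ =>
      gmax (fun k => f (A * ((((k + 1) * (k + 1) * (k + 1) : ℕ)) : ℤ))) (N A)) :=
    gmax_comp (f := fun (A : ℤ) k => f (A * ((((k + 1) * (k + 1) * (k + 1) : ℕ)) : ℤ))) c1 hN
  have h2 : Primrec (fun x : ℕ × ℕ => decide (x.1 + 1 ≤ x.2)) := by fun_prop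
  have c3 : Computable (fun x : (ℤ × ℕ) × ℕ => decide (x.1.2 + 1 ≤
      f (x.1.1 * ((((x.2 + 1) * (x.2 + 1) * (x.2 + 1) : ℕ)) : ℤ)))) :=
    Computable.comp (f := fun x : ℕ × ℕ => decide (x.1 + 1 ≤ x.2))
      (g := fun x : (ℤ × ℕ) × ℕ => (x.1.2,
        f (x.1.1 * ((((x.2 + 1) * (x.2 + 1) * (x.2 + 1) : ℕ)) : ℤ)))) h2.to_comp
      ((Computable.snd.comp Computable.fst).pair
        (Computable.comp (f := fun x : ℤ × ℕ =>
          f (x.1 * ((((x.2 + 1) * (x.2 + 1) * (x.2 + 1) : ℕ)) : ℤ)))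
          (g := fun x : (ℤ × ℕ) × ℕ => (x.1.1, x.2)) c1
          ((Computable.fst.comp Computable.fst).pair Computable.snd)))
  have c4 : Computable (fun x : ℤ × ℕ => cnt (fun k => decide (x.2 + 1 ≤
      f (x.1 * ((((k + 1) * (k + 1) * (k + 1) : ℕ)) : ℤ)))) (N x.1)) :=
    cnt_comp (f := fun (x : ℤ × ℕ) k => decide (x.2 + 1 ≤
      f (x.1 * ((((k + 1) * (k + 1) * (k + 1) : ℕ)) : ℤ)))) c3 (hN.comp Computable.fst)
  have h3 : Primrec (fun x : ℕ × ℕ => decide (x.1 + 1 ≤ 2 * x.2)) := by fun_prop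
  have c5 : Computable (fun x : ℤ × ℕ => decide (N x.1 + 1 ≤ 2 * cnt (fun k => decide (x.2 + 1 ≤
      f (x.1 * ((((k + 1) * (k + 1) * (k + 1) : ℕ)) : ℤ)))) (N x.1))) :=
    Computable.comp (f := fun x : ℕ × ℕ => decide (x.1 + 1 ≤ 2 * x.2))
      (g := fun x : ℤ × ℕ => (N x.1, cnt (fun k => decide (x.2 + 1 ≤
      f (x.1 * ((((k + 1) * (k + 1) * (k + 1) : ℕ)) : ℤ)))) (N x.1))) h3.to_comp
      ((hN.comp Computable.fst).pair c4)
  exact cnt_comp (f := fun (A : ℤ) m => decide (N A + 1 ≤ 2 * cnt (fun k => decide (m + 1 ≤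
      f (A * ((((k + 1) * (k + 1) * (k + 1) : ℕ)) : ℤ)))) (N A))) c5 c2

/-- Self correction for generating sets. -/
theorem gens_correct {f : ℤ → List V3} {N : ℕ → ℕ} (hf : Computable f) (hN : Computable N)
    (h : ∀ a : ℕ, 1 ≤ a → (Ex (fun A => ¬ Generates A (f A)) (a * N a ^ 3)).encard < (N a : ℕ∞)) :
    ∃ g : ℤ → List V3, Computable g ∧ ∀ A : ℤ, A ≠ 0 → Generates A (g A) := by
  classical
  have ca : Computable (fun A : ℤ => A.natAbs) := by
    have : Primrec (fun A : ℤ => A.natAbs) := by fun_prop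
    exact this.to_comp
  refine ⟨_, uni_comp (N := fun A : ℤ => N A.natAbs) hf (hN.comp ca), fun A hA => ?_⟩
  refine uni_generates ?_
  by_contra hc
  push Not at hc
  have h1 := h A.natAbs (Int.natAbs_pos.2 hA)
  obtain ⟨w, hw⟩ := ENat.ne_top_iff_exists.1 (ne_top_of_lt h1)
  have h2 := count hA (N := N A.natAbs) (w := w) hw.symm.le (Finset.range (N A.natAbs))
    (fun k hk => Finset.mem_range.1 hk) (fun k hk => hc k (Finset.mem_range.1 hk))
  rw [Finset.card_range] at h2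
  rw [← hw] at h1
  have h3 : w < N A.natAbs := by exact_mod_cast h1
  omega

/-- Self correction for ranks. -/
theorem rank_correct {f : ℤ → ℕ} {N : ℕ → ℕ} (hf : Computable f) (hN : Computable N)
    (h : ∀ a : ℕ, 1 ≤ a →
      2 * (Ex (fun A => ¬ IsRank A (f A)) (a * N a ^ 3)).encard < (N a : ℕ∞)) :
    ∃ g : ℤ → ℕ, Computable g ∧ ∀ A : ℤ, A ≠ 0 → IsRank A (g A) := by
  classical
  have ca : Computable (fun A : ℤ => A.natAbs) := by
    have : Primrec (fun A : ℤ => A.natAbs) := by fun_prop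
    exact this.to_comp
  refine ⟨_, med_comp (N := fun A : ℤ => N A.natAbs) hf (hN.comp ca), fun A hA => ?_⟩
  have h1 := h A.natAbs (Int.natAbs_pos.2 hA)
  obtain ⟨E, hE⟩ : ∃ E, E = (Ex (fun A => ¬ IsRank A (f A)) (A.natAbs * N A.natAbs ^ 3)).encard :=
    ⟨_, rfl⟩
  rw [← hE] at h1
  have hEt : E ≠ ⊤ := by
    rintro rfl
    rw [ENat.mul_top (by norm_num)] at h1
    exact absurd h1 (not_lt.2 le_top)
  lift E to ℕ using hEt
  have h3 : 2 * E < N A.natAbs := by exact_mod_cast h1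
  obtain ⟨v, hv⟩ : ∃ v, IsRank A v := by
    by_contra hc
    push Not at hc
    have h5 := count hA (N := N A.natAbs) (w := E) hE.symm.le (Finset.range (N A.natAbs))
      (fun k hk => Finset.mem_range.1 hk) (fun k _ h6 => hc _ ((isRank_cube A _).1 h6))
    rw [Finset.card_range] at h5
    omega
  have h2 := count hA (N := N A.natAbs) (w := E) hE.symm.le
    ((Finset.range (N A.natAbs)).filter (fun k : ℕ => f (A * ((k : ℤ) + 1) ^ 3) ≠ v))
    (fun k hk => Finset.mem_range.1 (Finset.mem_filter.1 hk).1) (fun k hk hc => by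
      have h4 := (isRank_cube A _).1 hc
      exact (Finset.mem_filter.1 hk).2 (isRank_unique h4 hv))
  rw [med_eq h2 h3]
  exact hv

lemma num {E K a N p q : ℕ} (hpq : 3 * p < q) (hN : N = 2 ^ q * K * a ^ p + 1)
    (h : E ^ q ≤ K * (a * N ^ 3) ^ p) : 2 * E < N := by
  by_contra hc
  push Not at hc
  have hN1 : 1 ≤ N := by omega
  have h1 : N * N ^ (3 * p) ≤ N ^ q := by
    rw [← pow_succ']
    exact Nat.pow_le_pow_right hN1 hpq
  have h2 : N * N ^ (3 * p) ≤ 2 ^ q * K * a ^ p * N ^ (3 * p) := by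
    calc N * N ^ (3 * p) ≤ N ^ q := h1
      _ ≤ (2 * E) ^ q := Nat.pow_le_pow_left hc q
      _ = 2 ^ q * E ^ q := mul_pow _ _ _
      _ ≤ 2 ^ q * (K * (a * N ^ 3) ^ p) := Nat.mul_le_mul_left _ h
      _ = 2 ^ q * K * a ^ p * N ^ (3 * p) := by
          rw [mul_pow, ← pow_mul]
          ring
  have h3 := Nat.le_of_mul_le_mul_right h2 (by positivity)
  omega

end Pool.Agent.Q324.SC.Cub
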