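import Mathlib
import Pool.Agent.Q324.SC.Plane

/-!
# Self correction for questions on ideals given by generators

A list of generators is extended by multiples of the first one. This does not change the ideal, and
the number of the extensions is nearly (on the logarithmic scale) the number of all lists of
polynomials of the same size.
-/

set_option autoImplicit false

namespace Pool.Agent.Q324.SC.Idl

open Pool.Agent.Q324.SC MvPolynomial

/-- A polynomial, given as a sum of terms: coefficients and lists of the indices of the variables. -/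
abbrev Poly : Type := List (ℤ × List ℕ)

/-- The product of the variables in the list (indices that are too large are ignored). -/
noncomputable def mon (n : ℕ) (l : List ℕ) : MvPolynomial (Fin n) ℤ :=
  (l.map fun i => if h : i < n then X ⟨i, h⟩ else 1).prod

/-- The polynomial in `n` variables. -/
noncomputable def val (n : ℕ) (p : Poly) : MvPolynomial (Fin n) ℤ :=
  (p.map fun t => C t.1 * mon n t.2).sum

lemma mon_append (n : ℕ) (l l' : List ℕ) : mon n (l ++ l') = mon n l * mon n l' := by
  simp [mon]

lemma mon_cons (n i : ℕ) (l : List ℕ) :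
    mon n (i :: l) = (if h : i < n then X ⟨i, h⟩ else 1) * mon n l := by
  simp [mon]

lemma val_append (n : ℕ) (p p' : Poly) : val n (p ++ p') = val n p + val n p' := by
  simp [val]

lemma val_cons (n : ℕ) (t : ℤ × List ℕ) (p : Poly) :
    val n (t :: p) = C t.1 * mon n t.2 + val n p := by
  simp [val]

/-- The exponents of the product of the variables in the list. -/
noncomputable def ex (n : ℕ) (l : List ℕ) : Fin n →₀ ℕ :=
  (l.map fun i => if h : i < n then Finsupp.single ⟨i, h⟩ 1 else 0).sum

lemma ex_cons (n i : ℕ) (l : List ℕ) :
    ex n (i :: l) = (if h : i < n then Finsupp.single ⟨i, h⟩ 1 else 0) + ex n l := by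
  simp [ex]

lemma ex_append (n : ℕ) (l l' : List ℕ) : ex n (l ++ l') = ex n l + ex n l' := by
  simp [ex]

lemma mon_eq (n : ℕ) (l : List ℕ) : mon n l = monomial (ex n l) 1 := by
  induction l with
  | nil => simp [mon, ex]
  | cons i l ih =>
    rw [mon_cons, ex_cons, ih]
    split_ifs with h
    · rw [X, monomial_mul, one_mul]
    · rw [one_mul, zero_add]

lemma ex_le (n : ℕ) (l : List ℕ) (i : Fin n) : ex n l i ≤ l.length := by
  induction l with
  | nil => simp [ex]
  | cons j l ih =>
    rw [ex_cons, Finsupp.add_apply, List.length_cons]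
    split_ifs with h
    · have : Finsupp.single (⟨j, h⟩ : Fin n) 1 i ≤ 1 := by
        rw [Finsupp.single_apply]
        split_ifs <;> omega
      omega
    · simp
      omega

/-- The list of the indices with the exponents the first `m` digits of `b` in base `E`. -/
def ml (E b m : ℕ) : List ℕ := (List.range m).flatMap fun i => (List.range ((b / E ^ i) % E)).map fun _ => i

lemma ex_const (n m i : ℕ) (j : Fin n) : ex n ((List.range m).map fun _ => i) j
    = if (j : ℕ) = i then m else 0 := by
  induction m with
  | zero => simp [ex]
  | succ m ih =>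
    rw [List.range_succ, List.map_append, ex_append, Finsupp.add_apply, ih]
    have e : ex n (List.map (fun _ => i) [m]) j = if (j : ℕ) = i then 1 else 0 := by
      simp only [List.map_cons, List.map_nil, ex_cons]
      by_cases h : i < n
      · rw [dif_pos h, Finsupp.add_apply, Finsupp.single_apply]
        have : (⟨i, h⟩ : Fin n) = j ↔ (j : ℕ) = i := by
          rw [Fin.ext_iff]
          exact eq_comm
        simp only [this, ex, List.map_nil, List.sum_nil, Finsupp.coe_zero, Pi.zero_apply, add_zero]
      · have : ¬ (j : ℕ) = i := by have := j.2; omega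
        simp [h, this, ex]
    rw [e]
    split_ifs <;> omega

lemma ex_ml (n E b m : ℕ) (j : Fin n) :
    ex n (ml E b m) j = if (j : ℕ) < m then (b / E ^ (j : ℕ)) % E else 0 := by
  induction m with
  | zero => simp [ml, ex]
  | succ m ih =>
    have e : ml E b (m + 1) = ml E b m ++ (List.range ((b / E ^ m) % E)).map fun _ => m := by
      simp [ml, List.range_succ]
    rw [e, ex_append, Finsupp.add_apply, ih, ex_const]
    by_cases h : (j : ℕ) = m
    · have h1 : ¬ (j : ℕ) < m := by omega
      have h2 : (j : ℕ) < m + 1 := by omega
      rw [if_neg h1, if_pos h, if_pos h2, h, zero_add]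
    · have h2 : (j : ℕ) < m + 1 ↔ (j : ℕ) < m := by omega
      simp only [h, h2, if_false, add_zero]

lemma ml_inj {n E b b' : ℕ} (hE : 1 ≤ E) (hb : b < E ^ n) (hb' : b' < E ^ n)
    (h : ex n (ml E b n) = ex n (ml E b' n)) : b = b' := by
  obtain ⟨M, rfl⟩ : ∃ M, E = M + 1 := ⟨E - 1, by omega⟩
  rw [eq_sum_dig M n b hb, eq_sum_dig M n b' hb']
  refine Finset.sum_congr rfl fun i hi => ?_
  congr 1
  rw [Finset.mem_range] at hi
  have h1 := DFunLike.congr_fun h (⟨i, hi⟩ : Fin n)
  rw [ex_ml, ex_ml, if_pos hi, if_pos hi] at h1
  exact h1

/-- The multiplier with the coefficients given by the digits of `k` from the place `o` on. -/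
def mult (n E M k o : ℕ) : Poly :=
  (List.range (E ^ n)).map fun b => (((dig M k (o + b) : ℕ) : ℤ), ml E b n)

/-- The product of two polynomials. -/
def mul (p p' : Poly) : Poly := p.flatMap fun t => p'.map fun t' => (t.1 * t'.1, t.2 ++ t'.2)

lemma val_mul (n : ℕ) (p p' : Poly) : val n (mul p p') = val n p * val n p' := by
  induction p with
  | nil => simp [mul, val]
  | cons t p ih =>
    have e : mul (t :: p) p' = (p'.map fun t' => (t.1 * t'.1, t.2 ++ t'.2)) ++ mul p p' := rfl
    rw [e, val_append, ih, val_cons, add_mul]
    congr 1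
    clear ih e
    induction p' with
    | nil => simp [val]
    | cons t' p' ih =>
      rw [List.map_cons, val_cons, ih, val_cons, mul_add, mon_append, C_mul]
      ring

lemma coeff_val_mult {n E M k o b : ℕ} (hE : 1 ≤ E) (hb : b < E ^ n) :
    coeff (ex n (ml E b n)) (val n (mult n E M k o)) = dig M k (o + b) := by
  have key : ∀ T : ℕ, T ≤ E ^ n → coeff (ex n (ml E b n)) (val n ((List.range T).map fun b =>
      (((dig M k (o + b) : ℕ) : ℤ), ml E b n))) = if b < T then ((dig M k (o + b) : ℕ) : ℤ) else 0 := by
    intro T
    induction T with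
    | zero => intro _; simp [val]
    | succ T ih =>
      intro hT
      rw [List.range_succ, List.map_append, val_append, coeff_add, ih (by omega)]
      have e : val n ((List.map (fun b => (((dig M k (o + b) : ℕ) : ℤ), ml E b n)) [T])) =
          monomial (ex n (ml E T n)) ((dig M k (o + T) : ℕ) : ℤ) := by
        simp only [List.map_cons, List.map_nil, val_cons, mon_eq, C_mul_monomial, mul_one]
        simp [val]
      rw [e, coeff_monomial]
      by_cases h : b = T
      · subst h
        simp
      · have h1 : ¬ ex n (ml E T n) = ex n (ml E b n) := fun h2 => h (ml_inj hE hb (by omega) h2.symm)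
        rw [if_neg h1, add_zero]
        have h2 : b < T + 1 ↔ b < T := by omega
        simp only [h2]
  have := key (E ^ n) le_rfl
  rw [if_pos hb] at this
  exact this

/-! ### degrees and coefficients -/

/-- the sum of the absolute values of the coefficients -/
def nrm (p : Poly) : ℕ := (p.map fun t => t.1.natAbs).sum

/-- the sum of the degrees of the terms -/
def dgr (p : Poly) : ℕ := (p.map fun t => t.2.length).sum

lemma coeff_mul_val {n : ℕ} (G : MvPolynomial (Fin n) ℤ) (M : ℕ)
    (hG : ∀ e, |coeff e G| ≤ (M : ℤ)) (p : Poly) (e : Fin n →₀ ℕ) :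
    |coeff e (G * val n p)| ≤ (nrm p * M : ℤ) := by
  induction p with
  | nil => simp [val, nrm]
  | cons t p ih =>
    rw [val_cons, mul_add, coeff_add, mon_eq, C_mul_monomial, mul_one]
    refine (abs_add_le _ _).trans ?_
    have e1 : nrm (t :: p) = t.1.natAbs + nrm p := by simp [nrm]
    rw [e1]
    push_cast
    rw [add_mul]
    refine add_le_add ?_ ih
    rw [coeff_mul_monomial']
    split_ifs with h
    · rw [abs_mul, mul_comm]
      exact mul_le_mul_of_nonneg_left (hG _) (abs_nonneg _)
    · rw [abs_zero]
      positivity

lemma coeff_val (n : ℕ) (p : Poly) (e : Fin n →₀ ℕ) : |coeff e (val n p)| ≤ (nrm p : ℤ) := by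
  have h := coeff_mul_val (1 : MvPolynomial (Fin n) ℤ) 1 (fun e => by
    rw [coeff_one]
    split_ifs <;> simp) p e
  simpa using h

lemma degreeOf_val (n : ℕ) (p : Poly) (i : Fin n) : degreeOf i (val n p) ≤ dgr p := by
  induction p with
  | nil => simp [val]
  | cons t p ih =>
    have e1 : dgr (t :: p) = t.2.length + dgr p := by simp [dgr]
    rw [val_cons, e1]
    refine (degreeOf_add_le _ _ _).trans (max_le ?_ (ih.trans (Nat.le_add_left _ _)))
    rw [mon_eq, C_mul_monomial, mul_one]
    refine le_trans ?_ (Nat.le_add_right _ _)
    rcases eq_or_ne t.1 0 with h | h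
    · rw [h, monomial_zero, degreeOf_zero]
      exact Nat.zero_le _
    · rw [degreeOf_monomial_eq _ _ h]
      exact ex_le n t.2 i

lemma mult_bounds {n E M k o : ℕ} (hE : 1 ≤ E) : (∀ e, |coeff e (val n (mult n E M k o))| ≤ (M : ℤ)) ∧
    ∀ i, degreeOf i (val n (mult n E M k o)) ≤ E - 1 := by
  have key : ∀ T : ℕ, T ≤ E ^ n →
      (∀ e, (∀ b < T, ex n (ml E b n) ≠ e) →
        coeff e (val n ((List.range T).map fun b => (((dig M k (o + b) : ℕ) : ℤ), ml E b n))) = 0) ∧
      (∀ e, |coeff e (val n ((List.range T).map fun b =>
        (((dig M k (o + b) : ℕ) : ℤ), ml E b n)))| ≤ (M : ℤ)) ∧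
      ∀ i, degreeOf i (val n ((List.range T).map fun b =>
        (((dig M k (o + b) : ℕ) : ℤ), ml E b n))) ≤ E - 1 := by
    intro T
    induction T with
    | zero =>
      intro _
      refine ⟨fun e _ => by simp [val], fun e => by simp [val], fun i => by simp [val]⟩
    | succ T ih =>
      intro hT
      obtain ⟨h0, h1, h2⟩ := ih (by omega)
      have e : val n ((List.map (fun b => (((dig M k (o + b) : ℕ) : ℤ), ml E b n)) [T])) =
          monomial (ex n (ml E T n)) ((dig M k (o + T) : ℕ) : ℤ) := by
        simp only [List.map_cons, List.map_nil, val_cons, mon_eq, C_mul_monomial, mul_one]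
        simp [val]
      refine ⟨?_, ?_, ?_⟩
      · intro e' he'
        rw [List.range_succ, List.map_append, val_append, coeff_add, e, coeff_monomial,
          h0 e' (fun b hb => he' b (by omega)), if_neg (he' T (by omega)), add_zero]
      · intro e'
        rw [List.range_succ, List.map_append, val_append, coeff_add, e, coeff_monomial]
        by_cases h : ex n (ml E T n) = e'
        · rw [if_pos h, h0 e' (fun b hb h3 => by
            have := ml_inj hE (show b < E ^ n by omega) (show T < E ^ n by omega) (h3.trans h.symm)
            omega), zero_add]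
          have := dig_le M k (o + T)
          rw [abs_of_nonneg (by positivity)]
          exact_mod_cast this
        · rw [if_neg h, add_zero]
          exact h1 e'
      · intro i
        rw [List.range_succ, List.map_append, val_append, e]
        refine (degreeOf_add_le _ _ _).trans (max_le (h2 i) ?_)
        rcases Nat.eq_zero_or_pos (dig M k (o + T)) with h | h
        · rw [h, Nat.cast_zero, monomial_zero, degreeOf_zero]
          exact Nat.zero_le _
        · rw [degreeOf_monomial_eq _ _ (by exact_mod_cast h.ne'), ex_ml, if_pos i.2]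
          have := Nat.mod_lt (T / E ^ (i : ℕ)) (show E > 0 by omega)
          omega
  obtain ⟨_, h1, h2⟩ := key (E ^ n) le_rfl
  exact ⟨h1, h2⟩

end Pool.Agent.Q324.SC.Idl
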