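import Mathlib
import Pool.Agent.Q324.SC.Ideals
import Pool.Agent.Q324.SC.IntOps

/-!
# Self correction for questions on ideals given by generators: the vote
-/

set_option autoImplicit false

namespace Pool.Agent.Q324.SC.Idl

open Pool.Agent.Q324.SC MvPolynomial

/-- The ideal over `ℚ` generated by the polynomials in the list. -/
noncomputable def J (n : ℕ) (c : List Poly) : Ideal (MvPolynomial (Fin n) ℚ) :=
  Ideal.span {f | ∃ p ∈ c, f = MvPolynomial.map (Int.castRingHom ℚ) (val n p)}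

/-- The system with the code `k`: the multiples of the first equation by `s` polynomials are
added. -/
def desc (n : ℕ) (c : List Poly) (E s M k : ℕ) : List Poly :=
  c ++ (List.range s).map fun j => mul (mult n E M k (j * E ^ n)) (c.getD 0 [])

/-- sum of the norms -/
def nrmT (c : List Poly) : ℕ := (c.map nrm).sum

/-- sum of the degrees -/
def dgrT (c : List Poly) : ℕ := (c.map dgr).sum

lemma le_nrmT {c : List Poly} {p : Poly} (h : p ∈ c) : nrm p ≤ nrmT c :=
  List.le_sum_of_mem (List.mem_map.2 ⟨p, h, rfl⟩)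

lemma le_dgrT {c : List Poly} {p : Poly} (h : p ∈ c) : dgr p ≤ dgrT c :=
  List.le_sum_of_mem (List.mem_map.2 ⟨p, h, rfl⟩)

lemma head_mem {c : List Poly} (h : c ≠ []) : c.getD 0 [] ∈ c := by
  rw [List.getD_eq_getElem _ _ (List.length_pos_iff.2 h)]
  exact List.getElem_mem _

lemma ne_nil {n : ℕ} {c : List Poly} (h : val n (c.getD 0 []) ≠ 0) : c ≠ [] := by
  rintro rfl
  exact h (by simp [val])

lemma J_desc {n : ℕ} {c : List Poly} (hc : val n (c.getD 0 []) ≠ 0) (E s M k : ℕ) :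
    J n (desc n c E s M k) = J n c := by
  refine le_antisymm ?_ ?_
  · refine Ideal.span_le.2 ?_
    rintro _ ⟨p, hp, rfl⟩
    rcases List.mem_append.1 hp with h | h
    · exact Ideal.subset_span ⟨p, h, rfl⟩
    · obtain ⟨j, _, rfl⟩ := List.mem_map.1 h
      show MvPolynomial.map (Int.castRingHom ℚ) (val n (mul _ _)) ∈ J n c
      rw [val_mul, map_mul]
      exact Ideal.mul_mem_left _ _ (Ideal.subset_span ⟨_, head_mem (ne_nil hc), rfl⟩)
  · refine Ideal.span_mono ?_
    rintro _ ⟨p, hp, rfl⟩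
    exact ⟨p, List.mem_append_left _ hp, rfl⟩

lemma head_desc {n : ℕ} {c : List Poly} (hc : c ≠ []) (E s M k : ℕ) :
    (desc n c E s M k).getD 0 [] = c.getD 0 [] := by
  obtain ⟨a, l, rfl⟩ := List.exists_cons_of_ne_nil hc
  rfl

lemma desc_length (n : ℕ) (c : List Poly) (E s M k : ℕ) :
    (desc n c E s M k).length = c.length + s := by simp [desc]

lemma desc_bounds {n : ℕ} {c : List Poly} (hc : c ≠ []) {E s M k : ℕ} (hE : 1 ≤ E) :
    ∀ p ∈ desc n c E s M k, (∀ i, degreeOf i (val n p) < E + (dgrT c + 1)) ∧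
      ∀ e, |coeff e (val n p)| ≤ ((nrmT c * (M + 1) : ℕ) : ℤ) := by
  intro p hp
  rcases List.mem_append.1 hp with h | h
  · refine ⟨fun i => ?_, fun e => ?_⟩
    · have := degreeOf_val n p i
      have := le_dgrT h
      omega
    · refine (coeff_val n p e).trans ?_
      have h1 := le_nrmT h
      have : nrm p ≤ nrmT c * (M + 1) := by nlinarith
      exact_mod_cast this
  · obtain ⟨j, _, rfl⟩ := List.mem_map.1 h
    obtain ⟨b1, b2⟩ := mult_bounds (n := n) (E := E) (M := M) (k := k) (o := j * E ^ n) hE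
    refine ⟨fun i => ?_, fun e => ?_⟩
    · show degreeOf i (val n (mul _ _)) < _
      rw [val_mul]
      have h1 := degreeOf_mul_le i (val n (mult n E M k (j * E ^ n))) (val n (c.getD 0 []))
      have h2 := b2 i
      have h3 := degreeOf_val n (c.getD 0 []) i
      have h4 := le_dgrT (head_mem hc)
      omega
    · show |coeff e (val n (mul _ _))| ≤ _
      rw [val_mul]
      refine (coeff_mul_val _ M b1 _ e).trans ?_
      have h4 := le_nrmT (head_mem hc)
      have : nrm (c.getD 0 []) * M ≤ nrmT c * (M + 1) := Nat.mul_le_mul h4 (Nat.le_succ M)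
      exact_mod_cast this

lemma desc_inj {n : ℕ} {c : List Poly} (hc : val n (c.getD 0 []) ≠ 0) {E s M k k' : ℕ}
    (hE : 1 ≤ E) (hk : k < (M + 1) ^ (s * E ^ n)) (hk' : k' < (M + 1) ^ (s * E ^ n))
    (h : (desc n c E s M k).map (val n) = (desc n c E s M k').map (val n)) : k = k' := by
  unfold desc at h
  rw [List.map_append, List.map_append, List.append_cancel_left_eq, List.map_map, List.map_map,
    List.map_inj_left] at h
  rw [eq_sum_dig M _ k hk, eq_sum_dig M _ k' hk']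
  refine Finset.sum_congr rfl fun t ht => ?_
  congr 1
  rw [Finset.mem_range] at ht
  have hpos : 0 < E ^ n := by positivity
  have h1 := h (t / E ^ n) (List.mem_range.2 (Nat.div_lt_of_lt_mul (by rwa [Nat.mul_comm] at ht)))
  simp only [Function.comp, val_mul] at h1
  have h2 := mul_right_cancel₀ hc h1
  have h3 := congrArg (coeff (ex n (ml E (t % E ^ n) n))) h2
  rw [coeff_val_mult hE (Nat.mod_lt _ hpos), coeff_val_mult hE (Nat.mod_lt _ hpos),
    Nat.mul_comm, Nat.div_add_mod] at h3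
  exact_mod_cast h3

/-! ### numbers -/

lemma pow_bound (n E d : ℕ) : (E + d) ^ n ≤ E ^ n + n * d * (E + d) ^ (n - 1) := by
  induction n with
  | zero => simp
  | succ n ih =>
    rcases Nat.eq_zero_or_pos n with h | h
    · subst h
      simp
    · have e : (E + d) ^ n = (E + d) * (E + d) ^ (n - 1) := by
        rw [← pow_succ']
        congr 1
        omega
      have e2 : n + 1 - 1 = n := rfl
      rw [e2]
      calc (E + d) ^ (n + 1) = (E + d) ^ n * E + d * (E + d) ^ n := by ring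
        _ ≤ (E ^ n + n * d * (E + d) ^ (n - 1)) * E + d * (E + d) ^ n :=
            Nat.add_le_add_right (Nat.mul_le_mul_right _ ih) _
        _ = E ^ (n + 1) + n * d * (E * (E + d) ^ (n - 1)) + d * (E + d) ^ n := by ring
        _ ≤ E ^ (n + 1) + n * d * ((E + d) * (E + d) ^ (n - 1)) + d * (E + d) ^ n := by
            refine Nat.add_le_add_right (Nat.add_le_add_left (Nat.mul_le_mul_left _
              (Nat.mul_le_mul_right _ (Nat.le_add_right _ _))) _) _
        _ = E ^ (n + 1) + (n + 1) * d * (E + d) ^ n := by rw [← e]; ring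

/-- the number of the new equations -/
def ss (r m : ℕ) : ℕ := 2 * (r + 1) * (m + 1)

/-- the degree of the multipliers -/
def EE (r n d : ℕ) : ℕ := 4 * (r + 1) * n * d + 1

lemma num (r n m d : ℕ) : r * (m + ss r m) * (EE r n d + d) ^ n + 1
    ≤ (r + 1) * ss r m * (EE r n d) ^ n := by
  obtain ⟨E, hE⟩ : ∃ E, E = EE r n d := ⟨_, rfl⟩
  obtain ⟨s, hs⟩ : ∃ s, s = ss r m := ⟨_, rfl⟩
  obtain ⟨Z, hZ⟩ : ∃ Z, Z = (E + d) ^ n := ⟨_, rfl⟩
  have hE1 : 1 ≤ E := by rw [hE]; unfold EE; omega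
  have h1 : (4 * r + 3) * Z ≤ 4 * (r + 1) * E ^ n := by
    have h2 := pow_bound n E d
    rw [← hZ] at h2
    rcases Nat.eq_zero_or_pos n with hn | hn
    · subst hn
      rw [hZ, pow_zero, pow_zero]
      omega
    · have h3 : Z = (E + d) * (E + d) ^ (n - 1) := by
        rw [hZ, ← pow_succ']
        congr 1
        omega
      have h4 : 4 * (r + 1) * (n * d * (E + d) ^ (n - 1)) ≤ Z := by
        rw [h3]
        calc 4 * (r + 1) * (n * d * (E + d) ^ (n - 1))
            = (4 * (r + 1) * n * d) * (E + d) ^ (n - 1) := by ring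
          _ ≤ (E + d) * (E + d) ^ (n - 1) := by
              refine Nat.mul_le_mul_right _ ?_
              rw [hE]
              unfold EE
              omega
      have h5 := Nat.mul_le_mul_left (4 * (r + 1)) h2
      rw [mul_add] at h5
      have h6 : 4 * (r + 1) * Z = (4 * r + 3) * Z + Z := by ring
      linarith
  have hZ1 : 1 ≤ Z := by rw [hZ]; exact Nat.one_le_iff_ne_zero.2 (by positivity)
  rw [← hE, ← hs, ← hZ]
  have h7 : 4 * (r + 1) * (r * (m + s)) + 1 ≤ (r + 1) * s * (4 * r + 3) := by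
    rw [hs]
    unfold ss
    nlinarith [Nat.zero_le (r * m), Nat.zero_le (r * r), Nat.zero_le (r * r * m),
      Nat.zero_le (r * r * r), Nat.zero_le (r * r * r * m)]
  have h8 : 4 * (r + 1) * (r * (m + s) * Z) + Z ≤ 4 * (r + 1) * ((r + 1) * s * E ^ n) := by
    calc 4 * (r + 1) * (r * (m + s) * Z) + Z = (4 * (r + 1) * (r * (m + s)) + 1) * Z := by ring
      _ ≤ ((r + 1) * s * (4 * r + 3)) * Z := Nat.mul_le_mul_right _ h7
      _ = (r + 1) * s * ((4 * r + 3) * Z) := by ring
      _ ≤ (r + 1) * s * (4 * (r + 1) * E ^ n) := Nat.mul_le_mul_left _ h1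
      _ = _ := by ring
  by_contra hc
  push Not at hc
  have h9 : (r + 1) * s * E ^ n ≤ r * (m + s) * Z := by omega
  have h10 := Nat.mul_le_mul_left (4 * (r + 1)) h9
  omega

/-! ### the vote -/

/-- The lists of `m` polynomials in `n` variables of degree less than `D` in each variable, with
coefficients in `[-H, H]`, the first one not zero, which generate an ideal over `ℚ` with the
property `Pr` and for which, in some presentation, `A` does not give the answer to `Q`. -/
def Bad (A : ℕ × List Poly → Bool) (Pr Q : (n : ℕ) → Ideal (MvPolynomial (Fin n) ℚ) → Prop)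
    (n m D H : ℕ) : Set (List (MvPolynomial (Fin n) ℤ)) :=
  {F | F.length = m ∧ (∀ f ∈ F, (∀ i, degreeOf i f < D) ∧ ∀ e, |coeff e f| ≤ (H : ℤ)) ∧
    ∃ c : List Poly, c.map (val n) = F ∧ val n (c.getD 0 []) ≠ 0 ∧ Pr n (J n c) ∧
      ¬ (A (n, c) = true ↔ Q n (J n c))}

/-- The bound for the coefficients of the multipliers. -/
def MM (r K n : ℕ) (c : List Poly) : ℕ :=
  2 ^ (r + 1) * K * (nrmT c + 1) ^ (r * (c.length + ss r c.length)
    * (EE r n (dgrT c + 1) + (dgrT c + 1)) ^ n)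

lemma vote {A : ℕ × List Poly → Bool} {Pr Q : (n : ℕ) → Ideal (MvPolynomial (Fin n) ℚ) → Prop}
    {n : ℕ} {c : List Poly} (hc : val n (c.getD 0 []) ≠ 0) (hP : Pr n (J n c)) (r K : ℕ)
    {E s M : ℕ} (hE : E = EE r n (dgrT c + 1)) (hs : s = ss r c.length) (hM : M = MM r K n c)
    (h : ∀ H, (Bad A Pr Q n (c.length + s) (E + (dgrT c + 1)) H).encard ^ (r + 1)
      ≤ ((K * (H + 1) ^ (r * (c.length + s) * (E + (dgrT c + 1)) ^ n) : ℕ) : ℕ∞)) :
    ((M + 1) ^ (s * E ^ n) < 2 * cnt (fun k => A (n, desc n c E s M k)) ((M + 1) ^ (s * E ^ n)))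
      ↔ Q n (J n c) := by
  classical
  have hE1 : 1 ≤ E := by rw [hE]; unfold EE; omega
  obtain ⟨W, hW⟩ : ∃ W, W = (Finset.range ((M + 1) ^ (s * E ^ n))).filter
    (fun k => A (n, desc n c E s M k) ≠ decide (Q n (J n c))) := ⟨_, rfl⟩
  obtain ⟨X, hX⟩ : ∃ X, X = r * (c.length + s) * (E + (dgrT c + 1)) ^ n := ⟨_, rfl⟩
  have g1 : (W.card : ℕ∞) ≤
      (Bad A Pr Q n (c.length + s) (E + (dgrT c + 1)) (nrmT c * (M + 1))).encard := by
    rw [← Set.encard_coe_eq_coe_finsetCard]
    have h3 : Set.InjOn (fun k => (desc n c E s M k).map (val n)) (W : Set ℕ) := by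
      intro k hk k' hk' hkk
      rw [hW, Finset.mem_coe, Finset.mem_filter, Finset.mem_range] at hk hk'
      exact desc_inj hc hE1 hk.1 hk'.1 hkk
    rw [← h3.encard_image]
    refine Set.encard_le_encard ?_
    rintro _ ⟨k, hk, rfl⟩
    rw [hW, Finset.mem_coe, Finset.mem_filter, Finset.mem_range] at hk
    refine ⟨?_, ?_, desc n c E s M k, rfl, ?_, ?_, ?_⟩
    · show ((desc n c E s M k).map (val n)).length = _
      rw [List.length_map, desc_length]
    · intro f hf
      obtain ⟨p, hp, rfl⟩ := List.mem_map.1 hf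
      exact desc_bounds (ne_nil hc) hE1 p hp
    · rw [head_desc (ne_nil hc)]
      exact hc
    · rw [J_desc hc]
      exact hP
    · intro h6
      rw [J_desc hc] at h6
      apply hk.2
      rw [Bool.eq_iff_iff, decide_eq_true_eq]
      exact h6
  have g2 : W.card ^ (r + 1) ≤ K * (nrmT c * (M + 1) + 1) ^ X := by
    have := (pow_le_pow_left' g1 (r + 1)).trans (h (nrmT c * (M + 1)))
    rw [← hX] at this
    exact_mod_cast this
  have g3 : 2 * W.card < (M + 1) ^ (s * E ^ n) := by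
    have hM' : M = 2 ^ (r + 1) * K * (nrmT c + 1) ^ X := by
      rw [hM, hX, hs, hE]
      rfl
    have b1 : X + 1 ≤ (r + 1) * (s * E ^ n) := by
      have := num r n c.length (dgrT c + 1)
      rw [← hE, ← hs, ← hX, mul_assoc (r + 1)] at this
      exact this
    have b2 : (2 * W.card) ^ (r + 1) ≤ M * (M + 1) ^ X := by
      rw [mul_pow]
      calc 2 ^ (r + 1) * W.card ^ (r + 1) ≤ 2 ^ (r + 1) * (K * (nrmT c * (M + 1) + 1) ^ X) :=
            Nat.mul_le_mul_left _ g2
        _ ≤ 2 ^ (r + 1) * (K * ((nrmT c + 1) * (M + 1)) ^ X) := by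
            refine Nat.mul_le_mul_left _ (Nat.mul_le_mul_left _ (Nat.pow_le_pow_left ?_ _))
            nlinarith
        _ = (2 ^ (r + 1) * K * (nrmT c + 1) ^ X) * (M + 1) ^ X := by rw [mul_pow]; ring
        _ = M * (M + 1) ^ X := by rw [← hM']
    by_contra hc'
    push Not at hc'
    have b3 : (M + 1) ^ (X + 1) ≤ M * (M + 1) ^ X := by
      calc (M + 1) ^ (X + 1) ≤ (M + 1) ^ ((r + 1) * (s * E ^ n)) :=
            Nat.pow_le_pow_right (Nat.succ_pos _) b1
        _ = ((M + 1) ^ (s * E ^ n)) ^ (r + 1) := by rw [← pow_mul, Nat.mul_comm]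
        _ ≤ (2 * W.card) ^ (r + 1) := Nat.pow_le_pow_left hc' _
        _ ≤ M * (M + 1) ^ X := b2
    rw [pow_succ] at b3
    have b4 : 0 < (M + 1) ^ X := by positivity
    nlinarith
  rw [hW] at g3
  exact (majority le_rfl g3).trans (by simp)

/-! ### computability -/

theorem ml_primrec : Primrec (fun x : ℕ × ℕ × ℕ => ml x.1 x.2.1 x.2.2) := by
  unfold ml
  refine pflatMap (by fun_prop) ?_
  refine pmap (by fun_prop) ?_
  fun_prop

theorem mult_primrec : Primrec (fun x : ℕ × ℕ × ℕ × ℕ × ℕ =>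
    mult x.1 x.2.1 x.2.2.1 x.2.2.2.1 x.2.2.2.2) := by
  unfold mult dig
  refine pmap (by fun_prop) ?_
  refine ppair (by fun_prop) ?_
  exact ml_primrec.comp (g := fun z : (ℕ × ℕ × ℕ × ℕ × ℕ) × ℕ => (z.1.2.1, z.2, z.1.1))
    (by fun_prop)

theorem mul_primrec : Primrec (fun x : Poly × Poly => mul x.1 x.2) := by
  unfold mul
  refine pflatMap (by fun_prop) ?_
  refine pmap (by fun_prop) ?_
  fun_prop

theorem desc_primrec : Primrec (fun x : (ℕ × List Poly) × ℕ × ℕ × ℕ × ℕ =>
    desc x.1.1 x.1.2 x.2.1 x.2.2.1 x.2.2.2.1 x.2.2.2.2) := by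
  unfold desc
  refine pappend (by fun_prop) (pmap (by fun_prop) ?_)
  have h1 : Primrec (fun z : ((ℕ × List Poly) × ℕ × ℕ × ℕ × ℕ) × ℕ => z.1.1.2.getD 0 []) :=
    (Primrec.list_getD ([] : Poly)).comp (by fun_prop) (by fun_prop)
  have h2 : Primrec (fun z : ((ℕ × List Poly) × ℕ × ℕ × ℕ × ℕ) × ℕ =>
      mult z.1.1.1 z.1.2.1 z.1.2.2.2.1 z.1.2.2.2.2 (z.2 * z.1.2.1 ^ z.1.1.1)) :=
    mult_primrec.comp (g := fun z : ((ℕ × List Poly) × ℕ × ℕ × ℕ × ℕ) × ℕ =>
      (z.1.1.1, z.1.2.1, z.1.2.2.2.1, z.1.2.2.2.2, z.2 * z.1.2.1 ^ z.1.1.1)) (by fun_prop)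
  exact mul_primrec.comp (ppair h2 h1)

theorem nrmT_primrec : Primrec nrmT := by
  unfold nrmT nrm
  exact psum (pmap (by fun_prop) (psum (pmap (by fun_prop) (by fun_prop))))

theorem dgrT_primrec : Primrec dgrT := by
  unfold dgrT dgr
  exact psum (pmap (by fun_prop) (psum (pmap (by fun_prop) (by fun_prop))))

theorem EEp (r : ℕ) : Primrec (fun x : ℕ × List Poly => EE r x.1 (dgrT x.2 + 1)) := by
  unfold EE
  have h1 : Primrec (fun x : ℕ × List Poly => dgrT x.2) := dgrT_primrec.comp (by fun_prop)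
  exact padd (pmul (pmul (by fun_prop) (by fun_prop)) (padd h1 (by fun_prop))) (by fun_prop)

theorem ssp (r : ℕ) : Primrec (fun x : ℕ × List Poly => ss r x.2.length) := by
  unfold ss
  fun_prop

theorem MMp (r : ℕ) : Primrec (fun x : ℕ × ℕ × List Poly => MM r x.1 x.2.1 x.2.2) := by
  unfold MM
  have h1 : Primrec (fun x : ℕ × ℕ × List Poly => nrmT x.2.2) := nrmT_primrec.comp (by fun_prop)
  have h2 : Primrec (fun x : ℕ × ℕ × List Poly => dgrT x.2.2) := dgrT_primrec.comp (by fun_prop)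
  have h3 : Primrec (fun x : ℕ × ℕ × List Poly => EE r x.2.1 (dgrT x.2.2 + 1)) :=
    (EEp r).comp (by fun_prop)
  have h4 : Primrec (fun x : ℕ × ℕ × List Poly => ss r x.2.2.length) := (ssp r).comp (by fun_prop)
  exact pmul (pmul (by fun_prop) (by fun_prop)) (ppow (padd h1 (by fun_prop))
    (pmul (pmul (by fun_prop) (padd (by fun_prop) h4))
      (ppow (padd h3 (padd h2 (by fun_prop))) (by fun_prop))))

attribute [local irreducible] desc cnt EE ss MM

set_option maxHeartbeats 400000 in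
/-- **Self correction for questions on ideals.** -/
theorem correct {A : ℕ × List Poly → Bool} {K : ℕ × ℕ × ℕ → ℕ} (r : ℕ)
    (hA : Computable A) (hK : Computable K)
    {Pr Q : (n : ℕ) → Ideal (MvPolynomial (Fin n) ℚ) → Prop}
    (h : ∀ n m D H, (Bad A Pr Q n m D H).encard ^ (r + 1)
      ≤ ((K (n, m, D) * (H + 1) ^ (r * m * D ^ n) : ℕ) : ℕ∞)) :
    ∃ f : ℕ × List Poly → Bool, Computable f ∧
      ∀ n c, val n (c.getD 0 []) ≠ 0 → Pr n (J n c) → (f (n, c) = true ↔ Q n (J n c)) := by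
  have cE := EEp r
  have cs := ssp r
  have cd : Primrec (fun x : ℕ × List Poly => dgrT x.2) := dgrT_primrec.comp (by fun_prop)
  obtain ⟨K', hK'⟩ : ∃ K' : ℕ × List Poly → ℕ, K' = fun x =>
    K (x.1, x.2.length + ss r x.2.length, EE r x.1 (dgrT x.2 + 1) + (dgrT x.2 + 1)) := ⟨_, rfl⟩
  have cK : Computable K' := by
    rw [hK']
    refine Computable.comp (f := K) (g := fun x : ℕ × List Poly =>
      (x.1, x.2.length + ss r x.2.length, EE r x.1 (dgrT x.2 + 1) + (dgrT x.2 + 1))) hK ?_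
    exact (ppair (by fun_prop) (ppair (padd (by fun_prop) cs)
      (padd cE (padd cd (by fun_prop))))).to_comp
  obtain ⟨T, hT⟩ : ∃ T : ℕ × List Poly → ℕ, T = fun x => MM r (K' x) x.1 x.2 := ⟨_, rfl⟩
  have cT : Computable T := by
    rw [hT]
    exact Computable.comp (f := fun x : ℕ × ℕ × List Poly => MM r x.1 x.2.1 x.2.2)
      (g := fun x : ℕ × List Poly => (K' x, x.1, x.2)) (MMp r).to_comp
      (cK.pair (Computable.fst.pair Computable.snd))
  have c2 : Computable (fun x : ℕ × List Poly =>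
      (T x + 1) ^ (ss r x.2.length * (EE r x.1 (dgrT x.2 + 1)) ^ x.1)) := by
    have h1 : Primrec (fun x : ℕ × ℕ × ℕ × ℕ => (x.1 + 1) ^ (x.2.1 * x.2.2.1 ^ x.2.2.2)) := by
      fun_prop
    exact Computable.comp (f := fun x : ℕ × ℕ × ℕ × ℕ => (x.1 + 1) ^ (x.2.1 * x.2.2.1 ^ x.2.2.2))
      (g := fun x : ℕ × List Poly => (T x, ss r x.2.length, EE r x.1 (dgrT x.2 + 1), x.1))
      h1.to_comp (cT.pair (cs.to_comp.pair (cE.to_comp.pair Computable.fst)))
  have c3 : Computable (fun z : (ℕ × List Poly) × ℕ =>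
      A (z.1.1, desc z.1.1 z.1.2 (EE r z.1.1 (dgrT z.1.2 + 1)) (ss r z.1.2.length) (T z.1) z.2)) := by
    refine hA.comp (Computable.pair (Computable.fst.comp Computable.fst) ?_)
    exact Computable.comp (f := fun x : (ℕ × List Poly) × ℕ × ℕ × ℕ × ℕ =>
        desc x.1.1 x.1.2 x.2.1 x.2.2.1 x.2.2.2.1 x.2.2.2.2)
      (g := fun z : (ℕ × List Poly) × ℕ =>
        (z.1, EE r z.1.1 (dgrT z.1.2 + 1), ss r z.1.2.length, T z.1, z.2)) desc_primrec.to_comp
      (Computable.fst.pair ((cE.to_comp.comp Computable.fst).pair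
        ((cs.to_comp.comp Computable.fst).pair ((cT.comp Computable.fst).pair Computable.snd))))
  have c4 : Computable (fun x : ℕ × List Poly => cnt (fun k =>
      A (x.1, desc x.1 x.2 (EE r x.1 (dgrT x.2 + 1)) (ss r x.2.length) (T x) k))
      ((T x + 1) ^ (ss r x.2.length * (EE r x.1 (dgrT x.2 + 1)) ^ x.1))) :=
    cnt_comp (f := fun (x : ℕ × List Poly) k =>
      A (x.1, desc x.1 x.2 (EE r x.1 (dgrT x.2 + 1)) (ss r x.2.length) (T x) k)) c3 c2
  have h2 : Primrec (fun x : ℕ × ℕ => decide (x.1 + 1 ≤ 2 * x.2)) := by fun_prop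
  refine ⟨fun x => decide ((T x + 1) ^ (ss r x.2.length * (EE r x.1 (dgrT x.2 + 1)) ^ x.1)
      < 2 * cnt (fun k =>
      A (x.1, desc x.1 x.2 (EE r x.1 (dgrT x.2 + 1)) (ss r x.2.length) (T x) k))
      ((T x + 1) ^ (ss r x.2.length * (EE r x.1 (dgrT x.2 + 1)) ^ x.1))),
    (h2.to_comp.comp (c2.pair c4)).of_eq fun x => rfl, ?_⟩
  intro n c hc hP
  rw [decide_eq_true_eq]
  refine vote hc hP r (K' (n, c)) rfl rfl ?_ ?_
  · rw [hT]
  · intro H
    rw [hK']
    exact h n _ _ H

end Pool.Agent.Q324.SC.Idl
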