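import Pool.Agent.Q324.SC.IntOps
import Pool.Agent.Q324.SC.PlaneMain

set_option autoImplicit false

/-!
Self correction for the Skolem problem: the same sequence satisfies many recurrences.
-/

namespace Pool.Agent.Q324.SC

/-- the value predicted by the recurrence `c` for the list `l` of the last terms, newest first -/
def nxt (c l : List ℤ) : ℤ := ((List.range c.length).map (fun j => c.getD j 0 * l.getD j 0)).sum

/-- `m` more terms, newest first -/
def ext (c l : List ℤ) (m : ℕ) : List ℤ := Nat.rec (motive := fun _ => List ℤ) l (fun _ t => nxt c t :: t) m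

/-- `u` is the sequence with recurrence `c` and initial values `a` -/
def IsSeq (c a : List ℤ) (u : ℕ → ℤ) : Prop :=
  (∀ i, i < c.length → u i = a.getD i 0) ∧
  ∀ n : ℕ, u (n + c.length) = ∑ j ∈ Finset.range c.length, c.getD j 0 * u (n + c.length - 1 - j)

lemma ext_succ (c l : List ℤ) (m : ℕ) : ext c l (m + 1) = nxt c (ext c l m) :: ext c l m := rfl

lemma ext_length (c l : List ℤ) (m : ℕ) : (ext c l m).length = l.length + m := by
  induction m with
  | zero => rfl
  | succ m ih => rw [ext_succ, List.length_cons, ih]; omega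

lemma ext_getD {c a : List ℤ} {u : ℕ → ℤ} (hl : c.length = a.length) (hu : IsSeq c a u) (m : ℕ) :
    ∀ i < a.length + m, (ext c a.reverse m).getD i 0 = u (a.length + m - 1 - i) := by
  induction m with
  | zero =>
    intro i hi
    change a.reverse.getD i 0 = _
    rw [hu.1 _ (by omega)]
    rw [List.getD_eq_getElem _ _ (by simp; omega), List.getElem_reverse,
      List.getD_eq_getElem _ _ (by omega)]
    rfl
  | succ m ih =>
    intro i hi
    rw [ext_succ]
    rcases i with _ | i
    · change nxt c (ext c a.reverse m) = _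
      have e1 : a.length + (m + 1) - 1 - 0 = m + c.length := by omega
      rw [e1, hu.2 m]
      unfold nxt
      rw [sum_range_list]
      refine Finset.sum_congr rfl fun j hj => ?_
      rw [Finset.mem_range] at hj
      rw [ih j (by omega)]
      have e2 : a.length + m - 1 - j = m + c.length - 1 - j := by omega
      rw [e2]
    · change (ext c a.reverse m).getD i 0 = _
      rw [ih i (by omega)]
      have e2 : a.length + m - 1 - i = a.length + (m + 1) - 1 - (i + 1) := by omega
      rw [e2]

/-- the multipliers -/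
def rr (m M k s : ℕ) : ℕ := bif decide (s + 1 ≤ m) then dig M k s + 1 else 0

/-- the new recurrence: `(1 - C) (1 + R)` -/
def cc (c : List ℤ) (m M k : ℕ) : List ℤ := (List.range (c.length + m)).map (fun i =>
  c.getD i 0 - (rr m M k i : ℤ)
    + ((List.range i).map (fun j => c.getD j 0 * (rr m M k (i - 1 - j) : ℤ))).sum)

/-- the new initial values -/
def aa (c a : List ℤ) (m : ℕ) : List ℤ := (ext c a.reverse m).reverse

lemma cc_length (c : List ℤ) (m M k : ℕ) : (cc c m M k).length = c.length + m := by
  simp [cc]

lemma aa_length (c a : List ℤ) (m : ℕ) : (aa c a m).length = a.length + m := by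
  simp [aa, ext_length]

lemma cc_getD {c : List ℤ} {m M k i : ℕ} (hi : i < c.length + m) :
    (cc c m M k).getD i 0 = c.getD i 0 - (rr m M k i : ℤ)
      + ∑ j ∈ Finset.range i, c.getD j 0 * (rr m M k (i - 1 - j) : ℤ) := by
  unfold cc
  rw [List.getD_eq_getElem _ _ (by simpa using hi)]
  simp only [List.getElem_map, List.getElem_range]
  rw [sum_range_list]

lemma getD_zero {c : List ℤ} {i : ℕ} (h : c.length ≤ i) : c.getD i 0 = 0 := by
  rw [List.getD_eq_default _ _ h]

lemma rr_zero {m M k s : ℕ} (h : m ≤ s) : rr m M k s = 0 := by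
  unfold rr
  have : decide (s + 1 ≤ m) = false := by rw [decide_eq_false_iff_not]; omega
  rw [this]
  rfl

lemma rr_pos {m M k s : ℕ} (h : s < m) : rr m M k s = dig M k s + 1 := by
  unfold rr
  have : decide (s + 1 ≤ m) = true := by rw [decide_eq_true_eq]; omega
  rw [this]
  rfl

lemma rr_le (m M k s : ℕ) : rr m M k s ≤ M + 1 := by
  rcases Nat.lt_or_ge s m with h | h
  · rw [rr_pos h]
    have := dig_le M k s
    omega
  · rw [rr_zero h]
    omega

lemma conv_sum (n : ℕ) (F : ℕ → ℕ → ℤ) :
    ∑ i ∈ Finset.range n, ∑ j ∈ Finset.range i, F j (i - 1 - j)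
      = ∑ s ∈ Finset.range n, ∑ j ∈ Finset.range n, if s + j + 1 < n then F j s else 0 := by
  rw [← Finset.sum_product', ← Finset.sum_filter, Finset.sum_sigma']
  refine Finset.sum_nbij' (fun p => (p.1 - 1 - p.2, p.2)) (fun p => ⟨p.1 + p.2 + 1, p.2⟩) ?_ ?_ ?_ ?_ ?_
  · rintro ⟨i, j⟩ h
    simp only [Finset.mem_sigma, Finset.mem_range, Finset.mem_filter, Finset.mem_product] at h ⊢
    omega
  · rintro ⟨s, j⟩ h
    simp only [Finset.mem_sigma, Finset.mem_range, Finset.mem_filter, Finset.mem_product] at h ⊢
    omega
  · rintro ⟨i, j⟩ h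
    simp only [Finset.mem_sigma, Finset.mem_range] at h
    have : i - 1 - j + j + 1 = i := by omega
    simp [this]
  · rintro ⟨s, j⟩ h
    have : s + j + 1 - 1 - j = s := by omega
    simp [this]
  · rintro ⟨i, j⟩ _
    rfl

/-- the sequence satisfies the new recurrence -/
lemma isSeq_new {c a : List ℤ} {u : ℕ → ℤ} (hl : c.length = a.length) (hc : 1 ≤ c.length)
    (hu : IsSeq c a u) (m M k : ℕ) : IsSeq (cc c m M k) (aa c a m) u := by
  refine ⟨fun i hi => ?_, fun N => ?_⟩
  · rw [cc_length] at hi
    unfold aa
    have h1 : (ext c a.reverse m).length = a.length + m := by simp [ext_length]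
    rw [List.getD_eq_getElem _ _ (by rw [List.length_reverse, h1]; omega), List.getElem_reverse,
      ← List.getD_eq_getElem _ (0 : ℤ), ext_getD hl hu m _ (by omega)]
    congr 1
    omega
  · rw [cc_length]
    obtain ⟨n, hn⟩ : ∃ n, n = c.length + m := ⟨_, rfl⟩
    rw [← hn]
    have h1 : ∀ i ∈ Finset.range n, (cc c m M k).getD i 0 * u (N + n - 1 - i)
        = c.getD i 0 * u (N + n - 1 - i) - (rr m M k i : ℤ) * u (N + n - 1 - i)
          + ∑ j ∈ Finset.range i, c.getD j 0 * (rr m M k (i - 1 - j) : ℤ)
            * u (N + n - 1 - ((i - 1 - j) + j + 1)) := by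
      intro i hi
      rw [Finset.mem_range] at hi
      rw [cc_getD (by omega), add_mul, sub_mul, Finset.sum_mul]
      congr 1
      refine Finset.sum_congr rfl fun j hj => ?_
      rw [Finset.mem_range] at hj
      have : i - 1 - j + j + 1 = i := by omega
      rw [this]
    rw [Finset.sum_congr rfl h1, Finset.sum_add_distrib, Finset.sum_sub_distrib,
      conv_sum n (fun j s => c.getD j 0 * (rr m M k s : ℤ) * u (N + n - 1 - (s + j + 1)))]
    have h2 : ∑ i ∈ Finset.range n, c.getD i 0 * u (N + n - 1 - i) = u (N + n) := by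
      have e : N + n = (N + m) + c.length := by omega
      rw [e, hu.2 (N + m)]
      symm
      refine Finset.sum_subset ?_ ?_
      · intro i hi
        rw [Finset.mem_range] at *
        omega
      · intro i _ hi
        rw [Finset.mem_range] at hi
        rw [getD_zero (by omega), zero_mul]
    have h3 : ∀ s ∈ Finset.range n, (∑ j ∈ Finset.range n, if s + j + 1 < n then
        c.getD j 0 * (rr m M k s : ℤ) * u (N + n - 1 - (s + j + 1)) else 0)
        = (rr m M k s : ℤ) * u (N + n - 1 - s) := by
      intro s hs
      rcases Nat.lt_or_ge s m with h | h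
      · have e : N + n - 1 - s = (N + m - 1 - s) + c.length := by omega
        rw [e, hu.2, Finset.mul_sum]
        symm
        have h4 : ∀ j ∈ Finset.range c.length,
            (rr m M k s : ℤ) * (c.getD j 0 * u (N + m - 1 - s + c.length - 1 - j))
            = if s + j + 1 < n then c.getD j 0 * (rr m M k s : ℤ) * u (N + n - 1 - (s + j + 1)) else 0 := by
          intro j hj
          rw [Finset.mem_range] at hj
          rw [if_pos (by omega)]
          have e2 : N + m - 1 - s + c.length - 1 - j = N + n - 1 - (s + j + 1) := by omega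
          rw [e2]
          ring
        rw [Finset.sum_congr rfl h4]
        refine Finset.sum_subset ?_ ?_
        · intro i hi
          rw [Finset.mem_range] at *
          omega
        · intro i _ hi
          rw [Finset.mem_range] at hi
          rw [getD_zero (by omega)]
          simp
      · rw [rr_zero h]
        simp
    rw [Finset.sum_congr rfl h3, h2]
    ring

lemma cc_inj {c : List ℤ} {m M k k' : ℕ} (hk : k < (M + 1) ^ m) (hk' : k' < (M + 1) ^ m)
    (h : cc c m M k = cc c m M k') : k = k' := by
  have h1 : ∀ s, rr m M k s = rr m M k' s := by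
    intro s
    induction s using Nat.strong_induction_on with
    | _ s ih =>
      rcases Nat.lt_or_ge s m with hs | hs
      · have h2 : (cc c m M k).getD s 0 = (cc c m M k').getD s 0 := by rw [h]
        rw [cc_getD (by omega), cc_getD (by omega)] at h2
        have h3 : ∑ j ∈ Finset.range s, c.getD j 0 * (rr m M k (s - 1 - j) : ℤ)
            = ∑ j ∈ Finset.range s, c.getD j 0 * (rr m M k' (s - 1 - j) : ℤ) := by
          refine Finset.sum_congr rfl fun j hj => ?_
          rw [Finset.mem_range] at hj
          rw [ih (s - 1 - j) (by omega)]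
        rw [h3] at h2
        omega
      · rw [rr_zero hs, rr_zero hs]
  rw [eq_sum_dig M m k hk, eq_sum_dig M m k' hk']
  refine Finset.sum_congr rfl fun s hs => ?_
  rw [Finset.mem_range] at hs
  have := h1 s
  rw [rr_pos hs, rr_pos hs] at this
  have h4 : dig M k s = dig M k' s := by omega
  rw [h4]

/-- sum of absolute values -/
def sa (l : List ℤ) : ℕ := (l.map Int.natAbs).sum

lemma natAbs_list_sum (l : List ℤ) : l.sum.natAbs ≤ (l.map Int.natAbs).sum := by
  induction l with
  | nil => simp
  | cons a l ih =>
    simp only [List.sum_cons, List.map_cons]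
    exact (Int.natAbs_add_le _ _).trans (Nat.add_le_add_left ih _)

lemma getD_le_sa (l : List ℤ) (i : ℕ) : (l.getD i 0).natAbs ≤ sa l := by
  rcases Nat.lt_or_ge i l.length with h | h
  · rw [List.getD_eq_getElem _ _ h]
    exact List.le_sum_of_mem (List.mem_map.2 ⟨_, List.getElem_mem h, rfl⟩)
  · rw [getD_zero h]
    simp

lemma sum_getD_le (l : List ℤ) (i : ℕ) : ∑ j ∈ Finset.range i, (l.getD j 0).natAbs ≤ sa l := by
  induction l generalizing i with
  | nil => simp [sa]
  | cons a l ih =>
    rcases i with _ | i
    · simp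
    · rw [Finset.sum_range_succ']
      have h1 := ih i
      have h2 : sa (a :: l) = a.natAbs + sa l := by simp [sa]
      rw [h2]
      simp only [List.getD_cons_succ, List.getD_cons_zero]
      omega

lemma cc_bound {c : List ℤ} {m M k : ℕ} {z : ℤ} (hz : z ∈ cc c m M k) :
    z.natAbs ≤ sa c + (sa c + 1) * (M + 1) := by
  obtain ⟨i, hi, rfl⟩ := List.mem_iff_getElem.1 hz
  rw [← List.getD_eq_getElem _ (0 : ℤ)]
  rw [cc_length] at hi
  rw [cc_getD hi]
  have h1 : (∑ j ∈ Finset.range i, c.getD j 0 * (rr m M k (i - 1 - j) : ℤ)).natAbs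
      ≤ sa c * (M + 1) := by
    refine (Int.natAbs_sum_le _ _).trans ?_
    calc ∑ j ∈ Finset.range i, (c.getD j 0 * (rr m M k (i - 1 - j) : ℤ)).natAbs
        ≤ ∑ j ∈ Finset.range i, (c.getD j 0).natAbs * (M + 1) := by
          refine Finset.sum_le_sum fun j _ => ?_
          rw [Int.natAbs_mul, Int.natAbs_natCast]
          exact Nat.mul_le_mul_left _ (rr_le _ _ _ _)
      _ ≤ sa c * (M + 1) := by
          rw [← Finset.sum_mul]
          exact Nat.mul_le_mul_right _ (sum_getD_le _ _)
  have h2 := getD_le_sa c i
  have h3 := rr_le m M k i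
  have h4 : (c.getD i 0 - (rr m M k i : ℤ)
      + ∑ j ∈ Finset.range i, c.getD j 0 * (rr m M k (i - 1 - j) : ℤ)).natAbs
      ≤ (c.getD i 0).natAbs + rr m M k i
        + (∑ j ∈ Finset.range i, c.getD j 0 * (rr m M k (i - 1 - j) : ℤ)).natAbs := by omega
  refine h4.trans ?_
  rw [add_mul, one_mul]
  omega

lemma cc_last {c : List ℤ} {m M k : ℕ} (hc : 1 ≤ c.length) (hl : c.getD (c.length - 1) 0 ≠ 0) :
    (cc c m M k).getD ((cc c m M k).length - 1) 0 ≠ 0 := by
  rw [cc_length, cc_getD (by omega)]
  rcases Nat.eq_zero_or_pos m with h0 | h0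
  · subst h0
    have h1 : ∑ j ∈ Finset.range (c.length + 0 - 1), c.getD j 0 * (rr 0 M k (c.length + 0 - 1 - 1 - j) : ℤ) = 0 := by
      refine Finset.sum_eq_zero fun j _ => ?_
      rw [rr_zero (Nat.zero_le _)]
      simp
    rw [h1, rr_zero (Nat.zero_le _)]
    simpa using hl
  · rw [getD_zero (by omega), rr_zero (by omega)]
    rw [Finset.sum_eq_single (c.length - 1)]
    · have e : c.length + m - 1 - 1 - (c.length - 1) = m - 1 := by omega
      rw [e, rr_pos (by omega)]
      simp only [Nat.cast_zero, sub_zero, zero_add]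
      refine mul_ne_zero hl ?_
      push_cast
      positivity
    · intro j hj hne
      rw [Finset.mem_range] at hj
      rcases Nat.lt_or_ge j c.length with h | h
      · rw [rr_zero (by omega)]
        simp
      · rw [getD_zero h, zero_mul]
    · intro h
      rw [Finset.mem_range] at h
      omega

end Pool.Agent.Q324.SC
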