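import Pool.Agent.Q324.SC.Skolem

set_option autoImplicit false

namespace Pool.Agent.Q324.SC

/-- An input: coefficients and initial values, the same number `n ≥ 1` of them, last coefficient
not zero. -/
def Valid (p : List ℤ × List ℤ) : Prop :=
  p.1.length = p.2.length ∧ 1 ≤ p.1.length ∧ p.1.getD (p.1.length - 1) 0 ≠ 0

/-- The Skolem problem, as in the frozen statement. -/
def Zero (p : List ℤ × List ℤ) : Prop :=
  p.1.length = p.2.length ∧ 1 ≤ p.1.length ∧ p.1.getD (p.1.length - 1) 0 ≠ 0 ∧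
    ∃ u : ℕ → ℤ, (∀ i, i < p.1.length → u i = p.2.getD i 0) ∧
      (∀ n : ℕ, u (n + p.1.length) =
        ∑ j ∈ Finset.range p.1.length, p.1.getD j 0 * u (n + p.1.length - 1 - j)) ∧
      ∃ n : ℕ, u n = 0

/-- inputs of order `n` with entries in `[-H, H]` -/
def Inputs (n H : ℕ) : Set (List ℤ × List ℤ) :=
  {p | Valid p ∧ p.1.length = n ∧ (∀ z ∈ p.1, z.natAbs ≤ H) ∧ ∀ z ∈ p.2, z.natAbs ≤ H}

/-- `A` errs on `p`. -/
def Errs (A : List ℤ × List ℤ → Bool) (p : List ℤ × List ℤ) : Prop := ¬ (A p = true ↔ Zero p)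

lemma seq_unique {c a : List ℤ} {u v : ℕ → ℤ} (hu : IsSeq c a u) (hv : IsSeq c a v) : u = v := by
  funext n
  induction n using Nat.strong_induction_on with
  | _ n ih =>
    rcases Nat.lt_or_ge n c.length with h | h
    · rw [hu.1 n h, hv.1 n h]
    · obtain ⟨m, rfl⟩ : ∃ m, n = m + c.length := ⟨n - c.length, by omega⟩
      rw [hu.2, hv.2]
      refine Finset.sum_congr rfl fun j hj => ?_
      rw [Finset.mem_range] at hj
      rw [ih (m + c.length - 1 - j) (by omega)]

lemma exists_seq {c a : List ℤ} (hl : c.length = a.length) (hc : 1 ≤ c.length) :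
    ∃ u, IsSeq c a u := by
  refine ⟨fun n => (ext c a.reverse (n + 1)).getD a.length 0, ?_, ?_⟩
  · -- initial values
    have key : ∀ m i, (ext c a.reverse m).getD (i + m) 0 = a.reverse.getD i 0 := by
      intro m
      induction m with
      | zero => intro i; rfl
      | succ m ih => intro i; rw [ext_succ]; exact ih i
    intro i hi
    have h1 := key (i + 1) (a.length - 1 - i)
    have e : a.length - 1 - i + (i + 1) = a.length := by omega
    rw [e] at h1
    change (ext c a.reverse (i + 1)).getD a.length 0 = _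
    rw [h1, List.getD_eq_getElem _ _ (by rw [List.length_reverse]; omega), List.getElem_reverse,
      ← List.getD_eq_getElem _ (0 : ℤ)]
    congr 1
    omega
  · -- recurrence
    have key : ∀ m m' i, (ext c a.reverse (m + m')).getD (i + m') 0 = (ext c a.reverse m).getD i 0 := by
      intro m m'
      induction m' with
      | zero => intro i; rfl
      | succ m' ih => intro i; exact ih i
    intro n
    change (ext c a.reverse (n + c.length + 1)).getD a.length 0
      = ∑ j ∈ Finset.range c.length, c.getD j 0 * (ext c a.reverse (n + c.length - 1 - j + 1)).getD a.length 0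
    have h1 : (ext c a.reverse (n + c.length + 1)).getD a.length 0 = (ext c a.reverse (n + 1)).getD 0 0 := by
      have := key (n + 1) a.length 0
      rw [Nat.zero_add] at this
      rw [← this, hl]
      congr 2
      omega
    rw [h1, ext_succ]
    change nxt c (ext c a.reverse n) = _
    unfold nxt
    rw [sum_range_list]
    refine Finset.sum_congr rfl fun j hj => ?_
    rw [Finset.mem_range] at hj
    congr 1
    have := key n (c.length - j) j
    have e1 : j + (c.length - j) = a.length := by omega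
    have e2 : n + (c.length - j) = n + c.length - 1 - j + 1 := by omega
    rw [e1, e2] at this
    exact this.symm

lemma zero_iff {c a : List ℤ} {u : ℕ → ℤ} (hv : Valid (c, a)) (hu : IsSeq c a u) :
    Zero (c, a) ↔ ∃ n, u n = 0 := by
  constructor
  · rintro ⟨_, _, _, v, h1, h2, n, hn⟩
    have : u = v := seq_unique hu ⟨h1, h2⟩
    exact ⟨n, by rw [this]; exact hn⟩
  · rintro ⟨n, hn⟩
    exact ⟨hv.1, hv.2.1, hv.2.2, u, hu.1, hu.2, n, hn⟩

/-- the modified input -/
def inp (p : List ℤ × List ℤ) (m M k : ℕ) : List ℤ × List ℤ := (cc p.1 m M k, aa p.1 p.2 m)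

lemma inp_valid {p : List ℤ × List ℤ} (hv : Valid p) (m M k : ℕ) : Valid (inp p m M k) := by
  refine ⟨?_, ?_, ?_⟩
  · change (cc p.1 m M k).length = (aa p.1 p.2 m).length
    rw [cc_length, aa_length, hv.1]
  · change 1 ≤ (cc p.1 m M k).length
    rw [cc_length]
    exact hv.2.1.trans (Nat.le_add_right _ _)
  · exact cc_last hv.2.1 hv.2.2

lemma inp_zero {p : List ℤ × List ℤ} (hv : Valid p) (m M k : ℕ) : Zero (inp p m M k) ↔ Zero p := by
  obtain ⟨u, hu⟩ := exists_seq hv.1 hv.2.1
  have h1 : Zero p ↔ ∃ n, u n = 0 := zero_iff (c := p.1) (a := p.2) hv hu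
  have h2 : Zero (inp p m M k) ↔ ∃ n, u n = 0 :=
    zero_iff (c := cc p.1 m M k) (a := aa p.1 p.2 m) (inp_valid hv m M k)
      (isSeq_new hv.1 hv.2.1 hu m M k)
  rw [h1, h2]

lemma mem_le_sa {l : List ℤ} {z : ℤ} (h : z ∈ l) : z.natAbs ≤ sa l :=
  List.le_sum_of_mem (List.mem_map.2 ⟨z, h, rfl⟩)

/-- size of the input -/
def big (p : List ℤ × List ℤ) (m : ℕ) : ℕ := 2 * (sa p.1 + sa (aa p.1 p.2 m) + 1)

lemma inp_mem {p : List ℤ × List ℤ} (hv : Valid p) (m M k : ℕ) :
    inp p m M k ∈ Inputs (p.1.length + m) (big p m * (M + 1)) := by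
  refine ⟨inp_valid hv m M k, cc_length _ _ _ _, ?_, ?_⟩
  · intro z hz
    refine (cc_bound hz).trans ?_
    unfold big
    nlinarith
  · intro z hz
    refine (mem_le_sa hz).trans ?_
    change sa (aa p.1 p.2 m) ≤ _
    unfold big
    nlinarith

/-- number of multipliers -/
def mm (p : List ℤ × List ℤ) (m K : ℕ) : ℕ := 2 * K * (2 * big p m) ^ m

lemma vote {A : List ℤ × List ℤ → Bool} {p : List ℤ × List ℤ} (hv : Valid p) {m K : ℕ} (hm : 1 ≤ m)
    (h : ∀ H : ℕ, {p' | p' ∈ Inputs (p.1.length + m) H ∧ Errs A p'}.encard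
      ≤ ((K * (H + 1) ^ (m - 1) : ℕ) : ℕ∞)) :
    ((mm p m K + 1) ^ m < 2 * cnt (fun k => A (inp p m (mm p m K) k)) ((mm p m K + 1) ^ m)) ↔ Zero p := by
  classical
  obtain ⟨M, hM⟩ : ∃ M, M = mm p m K := ⟨_, rfl⟩
  rw [← hM]
  obtain ⟨W, hW⟩ : ∃ W, W = (Finset.range ((M + 1) ^ m)).filter
    (fun k => A (inp p m M k) ≠ decide (Zero p)) := ⟨_, rfl⟩
  have h1 : (W.card : ℕ∞) ≤ ((K * (big p m * (M + 1) + 1) ^ (m - 1) : ℕ) : ℕ∞) := by
    refine le_trans ?_ (h (big p m * (M + 1)))
    rw [← Set.encard_coe_eq_coe_finsetCard]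
    have h3 : Set.InjOn (fun k => inp p m M k) (W : Set ℕ) := by
      intro k hk k' hk' hkk
      rw [hW, Finset.mem_coe, Finset.mem_filter, Finset.mem_range] at hk hk'
      exact cc_inj hk.1 hk'.1 (congrArg Prod.fst hkk)
    rw [← h3.encard_image]
    refine Set.encard_le_encard ?_
    rintro _ ⟨k, hk, rfl⟩
    rw [hW, Finset.mem_coe, Finset.mem_filter, Finset.mem_range] at hk
    refine ⟨inp_mem hv m M k, ?_⟩
    intro h4
    rw [inp_zero hv] at h4
    apply hk.2
    rw [Bool.eq_iff_iff, decide_eq_true_eq]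
    exact h4
  have h2 : W.card ≤ K * (big p m * (M + 1) + 1) ^ (m - 1) := by exact_mod_cast h1
  have hb : 1 ≤ big p m := by unfold big; omega
  have h3 : big p m * (M + 1) + 1 ≤ 2 * big p m * (M + 1) := by nlinarith
  have h4 : W.card ≤ K * (2 * big p m) ^ (m - 1) * (M + 1) ^ (m - 1) := by
    refine h2.trans ?_
    rw [mul_assoc, ← mul_pow]
    exact Nat.mul_le_mul_left _ (Nat.pow_le_pow_left h3 _)
  have h5 : 2 * (K * (2 * big p m) ^ (m - 1) * (M + 1) ^ (m - 1)) < (M + 1) ^ m := by
    have e1 : (M + 1) ^ m = (M + 1) * (M + 1) ^ (m - 1) := by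
      rw [← pow_succ']
      congr 1
      omega
    rw [e1, ← mul_assoc]
    refine Nat.mul_lt_mul_of_pos_right ?_ (by positivity)
    have e2 : 2 * (K * (2 * big p m) ^ (m - 1)) ≤ M := by
      rw [hM]
      unfold mm
      rw [← mul_assoc]
      exact Nat.mul_le_mul_left _ (Nat.pow_le_pow_right (by omega) (by omega))
    omega
  rw [hW] at h4
  exact (majority h4 h5).trans (by simp)

/-! ### computability -/

theorem nxt_primrec : Primrec (fun x : List ℤ × List ℤ => nxt x.1 x.2) := by
  unfold nxt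
  exact pisum (pmap (by fun_prop) (by fun_prop))

theorem ext_primrec : Primrec (fun x : (List ℤ × List ℤ) × ℕ => ext x.1.1 x.1.2 x.2) := by
  unfold ext
  refine Primrec.nat_rec' (f := fun x : (List ℤ × List ℤ) × ℕ => x.2) (g := fun x => x.1.2)
    (h := fun x p => nxt x.1.1 p.2 :: p.2) (by fun_prop) (by fun_prop) ?_
  have h1 : Primrec (fun x : ((List ℤ × List ℤ) × ℕ) × ℕ × List ℤ => (x.1.1.1, x.2.2)) := by
    fun_prop
  have h2 := nxt_primrec.comp h1
  have h3 : Primrec (fun x : ((List ℤ × List ℤ) × ℕ) × ℕ × List ℤ => x.2.2) := by fun_prop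
  exact pcons h2 h3

theorem aa_primrec : Primrec (fun x : (List ℤ × List ℤ) × ℕ => aa x.1.1 x.1.2 x.2) := by
  unfold aa
  have h1 : Primrec (fun x : (List ℤ × List ℤ) × ℕ => ((x.1.1, x.1.2.reverse), x.2)) := by fun_prop
  exact preverse (ext_primrec.comp h1)

theorem sa_primrec : Primrec sa := by
  unfold sa
  exact psum (pmap (by fun_prop) (by fun_prop))

theorem big_primrec : Primrec (fun x : (List ℤ × List ℤ) × ℕ => big x.1 x.2) := by
  unfold big
  have h1 : Primrec (fun x : (List ℤ × List ℤ) × ℕ => sa x.1.1) :=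
    sa_primrec.comp (by fun_prop)
  have h2 : Primrec (fun x : (List ℤ × List ℤ) × ℕ => sa (aa x.1.1 x.1.2 x.2)) :=
    sa_primrec.comp aa_primrec
  exact pmul (pconst 2) (padd (padd h1 h2) (pconst 1))

theorem mm_primrec : Primrec (fun x : (List ℤ × List ℤ) × ℕ × ℕ => mm x.1 x.2.1 x.2.2) := by
  unfold mm
  have h1 : Primrec (fun x : (List ℤ × List ℤ) × ℕ × ℕ => big x.1 x.2.1) :=
    big_primrec.comp (g := fun x : (List ℤ × List ℤ) × ℕ × ℕ => (x.1, x.2.1)) (by fun_prop)
  have h2 : Primrec (fun x : (List ℤ × List ℤ) × ℕ × ℕ => 2 * x.2.2) := by fun_prop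
  have h3 : Primrec (fun x : (List ℤ × List ℤ) × ℕ × ℕ => x.2.1) := by fun_prop
  exact pmul h2 (ppow (pmul (pconst 2) h1) h3)

theorem cc_primrec : Primrec (fun x : List ℤ × ℕ × ℕ × ℕ => cc x.1 x.2.1 x.2.2.1 x.2.2.2) := by
  unfold cc
  have h1 : Primrec (fun x : (ℕ × ℕ × ℕ) × ℕ => rr x.1.1 x.1.2.1 x.1.2.2 x.2) := by
    unfold rr dig
    fun_prop
  refine pmap (by fun_prop) ?_
  have h2 : Primrec (fun x : (List ℤ × ℕ × ℕ × ℕ) × ℕ => x.1.1.getD x.2 0) := by fun_prop
  have h3 : Primrec (fun x : (List ℤ × ℕ × ℕ × ℕ) × ℕ =>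
      ((rr x.1.2.1 x.1.2.2.1 x.1.2.2.2 x.2 : ℕ) : ℤ)) :=
    picast (h1.comp (g := fun x : (List ℤ × ℕ × ℕ × ℕ) × ℕ => (x.1.2, x.2)) (by fun_prop))
  have h4 : Primrec (fun x : (List ℤ × ℕ × ℕ × ℕ) × ℕ => ((List.range x.2).map (fun j =>
      x.1.1.getD j 0 * (rr x.1.2.1 x.1.2.2.1 x.1.2.2.2 (x.2 - 1 - j) : ℤ))).sum) := by
    refine pisum (pmap (by fun_prop) ?_)
    have h5 : Primrec (fun x : ((List ℤ × ℕ × ℕ × ℕ) × ℕ) × ℕ => x.1.1.1.getD x.2 0) := by fun_prop
    have h6 : Primrec (fun x : ((List ℤ × ℕ × ℕ × ℕ) × ℕ) × ℕ =>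
        ((rr x.1.1.2.1 x.1.1.2.2.1 x.1.1.2.2.2 (x.1.2 - 1 - x.2) : ℕ) : ℤ)) :=
      picast (h1.comp (g := fun x : ((List ℤ × ℕ × ℕ × ℕ) × ℕ) × ℕ => (x.1.1.2, x.1.2 - 1 - x.2))
        (by fun_prop))
    exact pimul h5 h6
  exact piadd (pisub h2 h3) h4

set_option maxHeartbeats 400000 in
theorem cc_comp {α : Type*} [Primcodable α] {c : α → List ℤ} {m M k : α → ℕ}
    (hc : Computable c) (hm : Computable m) (hM : Computable M) (hk : Computable k) :
    Computable (fun a => cc (c a) (m a) (M a) (k a)) := by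
  have h1 : Computable (fun a => (c a, m a, M a, k a)) := hc.pair (hm.pair (hM.pair hk))
  exact Computable.comp (f := fun x : List ℤ × ℕ × ℕ × ℕ => cc x.1 x.2.1 x.2.2.1 x.2.2.2)
    (g := fun a => (c a, m a, M a, k a)) cc_primrec.to_comp h1

set_option maxHeartbeats 400000 in
theorem aa_comp {α : Type*} [Primcodable α] {c l : α → List ℤ} {m : α → ℕ}
    (hc : Computable c) (hl : Computable l) (hm : Computable m) :
    Computable (fun a => aa (c a) (l a) (m a)) := by
  have h1 : Computable (fun a => ((c a, l a), m a)) := (hc.pair hl).pair hm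
  exact Computable.comp (f := fun x : (List ℤ × List ℤ) × ℕ => aa x.1.1 x.1.2 x.2)
    (g := fun a => ((c a, l a), m a)) aa_primrec.to_comp h1

attribute [local irreducible] cc aa

set_option maxHeartbeats 400000 in
theorem inp_comp {α : Type*} [Primcodable α] {p : α → List ℤ × List ℤ} {m M k : α → ℕ}
    (hp : Computable p) (hm : Computable m) (hM : Computable M) (hk : Computable k) :
    Computable (fun a => inp (p a) (m a) (M a) (k a)) := by
  have h3 : Computable (fun a => cc (p a).1 (m a) (M a) (k a)) :=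
    cc_comp (Computable.fst.comp hp) hm hM hk
  have h4 : Computable (fun a => aa (p a).1 (p a).2 (m a)) :=
    aa_comp (Computable.fst.comp hp) (Computable.snd.comp hp) hm
  exact h3.pair h4

theorem valid_primrec : PrimrecPred Valid := by
  unfold Valid
  have h1 : PrimrecPred (fun p : List ℤ × List ℤ => p.1.length = p.2.length) :=
    Primrec.eq.comp (plength (by fun_prop)) (plength (by fun_prop))
  have h2 : PrimrecPred (fun p : List ℤ × List ℤ => 1 ≤ p.1.length) :=
    Primrec.nat_le.comp (by fun_prop) (by fun_prop)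
  have h3 : PrimrecPred (fun p : List ℤ × List ℤ => p.1.getD (p.1.length - 1) 0 = 0) :=
    Primrec.eq.comp (by fun_prop) (by fun_prop)
  exact h1.and (h2.and h3.not)

attribute [local irreducible] inp mm cnt

set_option maxHeartbeats 400000 in
/-- **Self correction for the Skolem problem.** -/
theorem skolem_correct {A : List ℤ × List ℤ → Bool} {e K : ℕ → ℕ} (hA : Computable A)
    (he : Computable e) (hK : Computable K) (he1 : ∀ d, 1 ≤ e d)
    (h : ∀ d H : ℕ, {p | p ∈ Inputs (d + e d) H ∧ Errs A p}.encard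
      ≤ ((K d * (H + 1) ^ (e d - 1) : ℕ) : ℕ∞)) : ComputablePred Zero := by
  classical
  have c1 : Computable (fun p : List ℤ × List ℤ => e p.1.length) :=
    he.comp (by
      have : Primrec (fun p : List ℤ × List ℤ => p.1.length) := by fun_prop
      exact this.to_comp)
  have c2 : Computable (fun p : List ℤ × List ℤ => K p.1.length) :=
    hK.comp (by
      have : Primrec (fun p : List ℤ × List ℤ => p.1.length) := by fun_prop
      exact this.to_comp)
  have c3 : Computable (fun p : List ℤ × List ℤ => mm p (e p.1.length) (K p.1.length)) :=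
    Computable.comp (f := fun x : (List ℤ × List ℤ) × ℕ × ℕ => mm x.1 x.2.1 x.2.2)
      mm_primrec.to_comp (Computable.id.pair (c1.pair c2))
  have c4 : Computable (fun p : List ℤ × List ℤ =>
      (mm p (e p.1.length) (K p.1.length) + 1) ^ e p.1.length) := by
    have h1 : Primrec (fun p : ℕ × ℕ => (p.1 + 1) ^ p.2) := by fun_prop
    exact h1.to_comp.comp (c3.pair c1)
  have c5 : Computable (fun x : (List ℤ × List ℤ) × ℕ =>
      A (inp x.1 (e x.1.1.length) (mm x.1 (e x.1.1.length) (K x.1.1.length)) x.2)) :=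
    hA.comp (inp_comp (p := fun x : (List ℤ × List ℤ) × ℕ => x.1) Computable.fst
      (c1.comp Computable.fst) (c3.comp Computable.fst) Computable.snd)
  have c6 : Computable (fun p : List ℤ × List ℤ =>
      cnt (fun k => A (inp p (e p.1.length) (mm p (e p.1.length) (K p.1.length)) k))
        ((mm p (e p.1.length) (K p.1.length) + 1) ^ e p.1.length)) :=
    cnt_comp (f := fun p k => A (inp p (e p.1.length) (mm p (e p.1.length) (K p.1.length)) k)) c5 c4
  have c7 : Computable (fun p : List ℤ × List ℤ => decide (Valid p) && decide (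
      (mm p (e p.1.length) (K p.1.length) + 1) ^ e p.1.length <
      2 * cnt (fun k => A (inp p (e p.1.length) (mm p (e p.1.length) (K p.1.length)) k))
        ((mm p (e p.1.length) (K p.1.length) + 1) ^ e p.1.length))) := by
    have h1 : Computable (fun p : List ℤ × List ℤ => decide (Valid p)) := by
      have := valid_primrec.decide.to_comp
      exact this.of_eq fun p => by simp
    have h2 : Primrec (fun x : ℕ × ℕ => decide (x.1 + 1 ≤ 2 * x.2)) := by fun_prop
    have h3 := h2.to_comp.comp (c4.pair c6)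
    exact Primrec.and.to_comp.comp h1 (h3.of_eq fun p => by rfl)
  refine ⟨inferInstance, ?_⟩
  refine c7.of_eq fun p => ?_
  rw [Bool.eq_iff_iff, Bool.and_eq_true, decide_eq_true_eq, decide_eq_true_eq, decide_eq_true_eq]
  constructor
  · rintro ⟨hv, hp⟩
    exact (vote hv (he1 _) (fun H => h p.1.length H)).1 hp
  · intro hp
    have hv : Valid p := ⟨hp.1, hp.2.1, hp.2.2.1⟩
    exact ⟨hv, (vote hv (he1 _) (fun H => h p.1.length H)).2 hp⟩

end Pool.Agent.Q324.SC
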