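import Mathlib
import Pool.Agent.Q324.SC.TietzeVote

/-!
# Self correction for questions on pairs of finite presentations
-/

set_option autoImplicit false

namespace Pool.Agent.Q324.SC.Tz

open Pool.Agent.Q324.SC

lemma num_aux (r n m : ℕ) (hn : 1 ≤ n) {L K : ℕ}
    (hL : r + 1 + K + (2 * (n + ss r m)) ^ (r * (m + ss r m)) + 1 ≤ L) :
    2 ^ (r + 1) * K * (2 * (n + ss r m)) ^ (r * (m + ss r m) * (L + 1))
      < (Pn n L (ss r m)) ^ (r + 1) := by
  obtain ⟨Y, hY⟩ : ∃ Y, Y = (2 * (n + ss r m)) ^ (r * (m + ss r m)) := ⟨_, rfl⟩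
  rw [← hY] at hL
  rw [pow_mul, ← hY]
  have hY1 : 1 ≤ Y := by rw [hY]; exact Nat.one_le_iff_ne_zero.2 (by positivity)
  have hk := key_num r n m hn
  rw [← hY] at hk
  have h3 : 2 ^ (r + 1) * K * Y < 2 ^ L := by
    have a1 : K < 2 ^ K := Nat.lt_two_pow_self
    have a2 : Y < 2 ^ Y := Nat.lt_two_pow_self
    calc 2 ^ (r + 1) * K * Y ≤ 2 ^ (r + 1) * 2 ^ K * 2 ^ Y :=
          Nat.mul_le_mul (Nat.mul_le_mul_left _ a1.le) a2.le
      _ = 2 ^ (r + 1 + K + Y) := by rw [← pow_add, ← pow_add]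
      _ < 2 ^ L := Nat.pow_lt_pow_right (by norm_num) (by omega)
  calc 2 ^ (r + 1) * K * Y ^ (L + 1) = 2 ^ (r + 1) * K * Y * Y ^ L := by rw [pow_succ]; ring
    _ < 2 ^ L * Y ^ L := Nat.mul_lt_mul_of_pos_right h3 (by positivity)
    _ = (2 * Y) ^ L := (mul_pow _ _ _).symm
    _ ≤ ((Pn n 1 (ss r m)) ^ (r + 1)) ^ L := Nat.pow_le_pow_left hk _
    _ = (Pn n L (ss r m)) ^ (r + 1) := by
        rw [Pn_eq n L, ← pow_mul, ← pow_mul, Nat.mul_comm]

/-- The pairs of presentations of the given sizes with the property `Pr` for which `A` does not give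
the answer to the question `Q`. -/
def Bad2 (A : Pres × Pres → Bool) (Pr Q : Pres → Pres → Prop) (n m L n' m' L' : ℕ) :
    Set (Pres × Pres) :=
  {x | x.1 ∈ Box n m L ∧ x.2 ∈ Box n' m' L' ∧ Pr x.1 x.2 ∧ ¬ (A x = true ↔ Q x.1 x.2)}

/-- The code `j` gives a code for each of the two presentations. -/
def pick (p p' : Pres) (L L' s s' j : ℕ) : Pres × Pres :=
  ((desc p L s (j % Pn p.1 L s)).1, (desc p' L' s' (j / Pn p.1 L s)).1)

lemma vote2 {A : Pres × Pres → Bool} {Pr Q : Pres → Pres → Prop}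
    (hPr : ∀ p q p' q' : Pres, Nonempty (Grp p ≃* Grp q) → Nonempty (Grp p' ≃* Grp q') →
      Pr q q' → Pr p p')
    (hQ : ∀ p q p' q' : Pres, Nonempty (Grp p ≃* Grp q) → Nonempty (Grp p' ≃* Grp q') →
      (Q p p' ↔ Q q q'))
    {p p' : Pres} (hp : Ok p) (hp' : Ok p') (hP : Pr p p') (r K L L' s s' : ℕ)
    (hs : s = ss r p.2.length) (hs' : s' = ss r p'.2.length)
    (hL : L = LL r K p) (hL' : L' = LL r 1 p')
    (h : ∀ L L', (Bad2 A Pr Q (p.1 + s) (p.2.length + s) L (p'.1 + s') (p'.2.length + s')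
        L').encard ^ (r + 1)
      ≤ ((K * (2 * (p.1 + s)) ^ (r * (p.2.length + s) * L)
        * (2 * (p'.1 + s')) ^ (r * (p'.2.length + s') * L') : ℕ) : ℕ∞)) :
    (Pn p.1 L s * Pn p'.1 L' s'
      < 2 * cnt (fun j => A (pick p p' L L' s s' j)) (Pn p.1 L s * Pn p'.1 L' s')) ↔ Q p p' := by
  classical
  have hL2 : ∀ w ∈ p.2, w.length ≤ L + 1 := by
    intro w hw
    have := le_tot hw
    rw [hL]
    unfold LL
    omega
  have hL2' : ∀ w ∈ p'.2, w.length ≤ L' + 1 := by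
    intro w hw
    have := le_tot hw
    rw [hL']
    unfold LL
    omega
  obtain ⟨W, hW⟩ : ∃ W, W = (Finset.range (Pn p.1 L s * Pn p'.1 L' s')).filter
    (fun j => A (pick p p' L L' s s' j) ≠ decide (Q p p')) := ⟨_, rfl⟩
  have g1 : (W.card : ℕ∞) ≤ (Bad2 A Pr Q (p.1 + s) (p.2.length + s) (L + 1) (p'.1 + s')
      (p'.2.length + s') (L' + 1)).encard := by
    rw [← Set.encard_coe_eq_coe_finsetCard]
    have h3 : Set.InjOn (fun j => pick p p' L L' s s' j) (W : Set ℕ) := by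
      intro j hj j' hj' hjj
      rw [hW, Finset.mem_coe, Finset.mem_filter, Finset.mem_range] at hj hj'
      have e0 : pick p p' L L' s s' j = pick p p' L L' s s' j' := hjj
      have e1 : (pick p p' L L' s s' j).1 = (pick p p' L L' s s' j').1 := by rw [e0]
      have e2 : (pick p p' L L' s s' j).2 = (pick p p' L L' s s' j').2 := by rw [e0]
      unfold pick at e1 e2
      have f1 := desc_inj hp hL2 s _ _ e1
      have f2 := desc_inj hp' hL2' s' _ _ e2
      rw [Nat.mod_mod, Nat.mod_mod] at f1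
      rw [Nat.mod_eq_of_lt (Nat.div_lt_of_lt_mul hj.1),
        Nat.mod_eq_of_lt (Nat.div_lt_of_lt_mul hj'.1)] at f2
      rw [← Nat.div_add_mod j (Pn p.1 L s), ← Nat.div_add_mod j' (Pn p.1 L s), f1, f2]
    rw [← h3.encard_image]
    refine Set.encard_le_encard ?_
    rintro _ ⟨j, hj, rfl⟩
    rw [hW, Finset.mem_coe, Finset.mem_filter, Finset.mem_range] at hj
    obtain ⟨h4, h5, _⟩ := desc_basic hp hL2 s (j % Pn p.1 L s)
    obtain ⟨h4', h5', _⟩ := desc_basic hp' hL2' s' (j / Pn p.1 L s)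
    refine ⟨h4, h4', hPr _ _ _ _ h5 h5' hP, ?_⟩
    intro h6
    have h7 := hQ _ _ _ _ h5 h5'
    apply hj.2
    rw [Bool.eq_iff_iff, decide_eq_true_eq]
    exact h6.trans h7
  have g2 : W.card ^ (r + 1) ≤ K * (2 * (p.1 + s)) ^ (r * (p.2.length + s) * (L + 1))
        * (2 * (p'.1 + s')) ^ (r * (p'.2.length + s') * (L' + 1)) := by
    have := (pow_le_pow_left' g1 (r + 1)).trans (h (L + 1) (L' + 1))
    exact_mod_cast this
  have g3 : 2 * W.card < Pn p.1 L s * Pn p'.1 L' s' := by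
    have b1 : 2 ^ (r + 1) * K * (2 * (p.1 + s)) ^ (r * (p.2.length + s) * (L + 1))
        < (Pn p.1 L s) ^ (r + 1) := by
      rw [hs]
      refine num_aux r p.1 p.2.length hp.1 ?_
      rw [hL]
      unfold LL
      omega
    have b2 : (2 * (p'.1 + s')) ^ (r * (p'.2.length + s') * (L' + 1))
        ≤ (Pn p'.1 L' s') ^ (r + 1) := by
      rw [hs']
      refine le_trans ?_ (num_aux r p'.1 p'.2.length hp'.1 (K := 1) ?_).le
      · rw [mul_one]
        exact Nat.le_mul_of_pos_left _ (by positivity)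
      · rw [hL']
        unfold LL
        omega
    by_contra hc
    push Not at hc
    have b3 : (Pn p.1 L s * Pn p'.1 L' s') ^ (r + 1) ≤ (2 * W.card) ^ (r + 1) :=
      Nat.pow_le_pow_left hc _
    have b4 : (2 * W.card) ^ (r + 1) ≤ 2 ^ (r + 1) * K *
        (2 * (p.1 + s)) ^ (r * (p.2.length + s) * (L + 1)) * (Pn p'.1 L' s') ^ (r + 1) := by
      rw [mul_pow]
      calc 2 ^ (r + 1) * W.card ^ (r + 1)
          ≤ 2 ^ (r + 1) * (K * (2 * (p.1 + s)) ^ (r * (p.2.length + s) * (L + 1))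
            * (2 * (p'.1 + s')) ^ (r * (p'.2.length + s') * (L' + 1))) :=
            Nat.mul_le_mul_left _ g2
        _ = 2 ^ (r + 1) * K * (2 * (p.1 + s)) ^ (r * (p.2.length + s) * (L + 1))
            * (2 * (p'.1 + s')) ^ (r * (p'.2.length + s') * (L' + 1)) := by ring
        _ ≤ _ := Nat.mul_le_mul_left _ b2
    have b5 : 2 ^ (r + 1) * K *
        (2 * (p.1 + s)) ^ (r * (p.2.length + s) * (L + 1)) * (Pn p'.1 L' s') ^ (r + 1)
        < (Pn p.1 L s) ^ (r + 1) * (Pn p'.1 L' s') ^ (r + 1) := by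
      have := Pn_pos hp'.1 L' s'
      exact Nat.mul_lt_mul_of_pos_right b1 (by positivity)
    rw [← mul_pow] at b5
    omega
  rw [hW] at g3
  exact (majority le_rfl g3).trans (by simp)

theorem pick_primrec : Primrec (fun x : Pres × Pres × ℕ × ℕ × ℕ × ℕ × ℕ =>
    pick x.1 x.2.1 x.2.2.1 x.2.2.2.1 x.2.2.2.2.1 x.2.2.2.2.2.1 x.2.2.2.2.2.2) := by
  unfold pick
  have h3 : Primrec (fun x : Pres × Pres × ℕ × ℕ × ℕ × ℕ × ℕ => Pn x.1.1 x.2.2.1 x.2.2.2.2.1) :=
    Pn_primrec.comp (g := fun x : Pres × Pres × ℕ × ℕ × ℕ × ℕ × ℕ =>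
      (x.1.1, x.2.2.1, x.2.2.2.2.1)) (by fun_prop)
  refine ppair ?_ ?_
  · exact desc_primrec.comp (g := fun x : Pres × Pres × ℕ × ℕ × ℕ × ℕ × ℕ =>
      (x.1, x.2.2.1, x.2.2.2.2.1, x.2.2.2.2.2.2 % Pn x.1.1 x.2.2.1 x.2.2.2.2.1))
      (ppair (by fun_prop) (ppair (by fun_prop) (ppair (by fun_prop) (pmod (by fun_prop) h3))))
  · exact desc_primrec.comp (g := fun x : Pres × Pres × ℕ × ℕ × ℕ × ℕ × ℕ =>
      (x.2.1, x.2.2.2.1, x.2.2.2.2.2.1, x.2.2.2.2.2.2 / Pn x.1.1 x.2.2.1 x.2.2.2.2.1))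
      (ppair (by fun_prop) (ppair (by fun_prop) (ppair (by fun_prop) (pdiv (by fun_prop) h3))))

attribute [local irreducible] desc Pn cnt LL ss pick

set_option maxHeartbeats 400000 in
/-- Self correction for questions on pairs of groups. -/
theorem correct2 {A : Pres × Pres → Bool} {K : (ℕ × ℕ) × (ℕ × ℕ) → ℕ} (r : ℕ)
    (hA : Computable A) (hK : Computable K) {Pr Q : Pres → Pres → Prop}
    (hPr : ∀ p q p' q' : Pres, Nonempty (Grp p ≃* Grp q) → Nonempty (Grp p' ≃* Grp q') →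
      Pr q q' → Pr p p')
    (hQ : ∀ p q p' q' : Pres, Nonempty (Grp p ≃* Grp q) → Nonempty (Grp p' ≃* Grp q') →
      (Q p p' ↔ Q q q'))
    (h : ∀ n m L n' m' L', (Bad2 A Pr Q n m L n' m' L').encard ^ (r + 1)
      ≤ ((K ((n, m), (n', m')) * (2 * n) ^ (r * m * L) * (2 * n') ^ (r * m' * L') : ℕ) : ℕ∞)) :
    ∃ D : Pres × Pres → Bool, Computable D ∧
      ∀ p p', Ok p → Ok p' → Pr p p' → (D (p, p') = true ↔ Q p p') := by
  have p1 : Primrec (fun x : Pres × Pres => ss r x.1.2.length) :=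
    (ss_primrec r).comp (by fun_prop)
  have p2 : Primrec (fun x : Pres × Pres => ss r x.2.2.length) :=
    (ss_primrec r).comp (by fun_prop)
  obtain ⟨K', hK'⟩ : ∃ K' : Pres × Pres → ℕ,
    K' = fun x => K ((x.1.1 + ss r x.1.2.length, x.1.2.length + ss r x.1.2.length),
      (x.2.1 + ss r x.2.2.length, x.2.2.length + ss r x.2.2.length)) := ⟨_, rfl⟩
  have cK : Computable K' := by
    rw [hK']
    refine Computable.comp (f := K) (g := fun x : Pres × Pres =>
      ((x.1.1 + ss r x.1.2.length, x.1.2.length + ss r x.1.2.length),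
      (x.2.1 + ss r x.2.2.length, x.2.2.length + ss r x.2.2.length))) hK ?_
    refine Primrec.to_comp ?_
    exact ppair (ppair (padd (by fun_prop) p1) (padd (by fun_prop) p1))
      (ppair (padd (by fun_prop) p2) (padd (by fun_prop) p2))
  obtain ⟨T, hT⟩ : ∃ T : Pres × Pres → ℕ, T = fun x => LL r (K' x) x.1 := ⟨_, rfl⟩
  have cT : Computable T := by
    rw [hT]
    exact Computable.comp (f := fun x : ℕ × Pres => LL r x.1 x.2)
      (g := fun x : Pres × Pres => (K' x, x.1)) (LL_primrec r).to_comp (cK.pair Computable.fst)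
  obtain ⟨T', hT'⟩ : ∃ T' : Pres × Pres → ℕ, T' = fun x => LL r 1 x.2 := ⟨_, rfl⟩
  have cT' : Computable T' := by
    rw [hT']
    exact Computable.comp (f := fun x : ℕ × Pres => LL r x.1 x.2)
      (g := fun x : Pres × Pres => (1, x.2)) (LL_primrec r).to_comp
      ((Computable.const 1).pair Computable.snd)
  have c1 : Computable (fun x : Pres × Pres => Pn x.1.1 (T x) (ss r x.1.2.length)) :=
    Computable.comp (f := fun x : ℕ × ℕ × ℕ => Pn x.1 x.2.1 x.2.2)
      (g := fun x : Pres × Pres => (x.1.1, T x, ss r x.1.2.length)) Pn_primrec.to_comp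
      ((Computable.fst.comp Computable.fst).pair (cT.pair p1.to_comp))
  have c1' : Computable (fun x : Pres × Pres => Pn x.2.1 (T' x) (ss r x.2.2.length)) :=
    Computable.comp (f := fun x : ℕ × ℕ × ℕ => Pn x.1 x.2.1 x.2.2)
      (g := fun x : Pres × Pres => (x.2.1, T' x, ss r x.2.2.length)) Pn_primrec.to_comp
      ((Computable.fst.comp Computable.snd).pair (cT'.pair p2.to_comp))
  obtain ⟨F, hF⟩ : ∃ F : Pres × Pres → ℕ, F = fun x =>
    Pn x.1.1 (T x) (ss r x.1.2.length) * Pn x.2.1 (T' x) (ss r x.2.2.length) := ⟨_, rfl⟩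
  have c2 : Computable F := by
    rw [hF]
    exact Primrec.nat_mul.to_comp.comp c1 c1'
  obtain ⟨G, hG⟩ : ∃ G : (Pres × Pres) → ℕ → Pres × Pres, G = fun x j =>
    pick x.1 x.2 (T x) (T' x) (ss r x.1.2.length) (ss r x.2.2.length) j := ⟨_, rfl⟩
  have c3 : Computable (fun z : (Pres × Pres) × ℕ => A (G z.1 z.2)) := by
    rw [hG]
    refine hA.comp ?_
    exact Computable.comp (f := fun x : Pres × Pres × ℕ × ℕ × ℕ × ℕ × ℕ =>
        pick x.1 x.2.1 x.2.2.1 x.2.2.2.1 x.2.2.2.2.1 x.2.2.2.2.2.1 x.2.2.2.2.2.2)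
      (g := fun z : (Pres × Pres) × ℕ => (z.1.1, z.1.2, T z.1, T' z.1, ss r z.1.1.2.length,
        ss r z.1.2.2.length, z.2)) pick_primrec.to_comp
      ((Computable.fst.comp Computable.fst).pair ((Computable.snd.comp Computable.fst).pair
        ((cT.comp Computable.fst).pair ((cT'.comp Computable.fst).pair
          ((p1.to_comp.comp Computable.fst).pair
            ((p2.to_comp.comp Computable.fst).pair Computable.snd))))))
  have c4 : Computable (fun x : Pres × Pres => cnt (fun j => A (G x j)) (F x)) :=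
    cnt_comp (f := fun (x : Pres × Pres) j => A (G x j)) c3 c2
  have h2 : Primrec (fun x : ℕ × ℕ => decide (x.1 + 1 ≤ 2 * x.2)) := by fun_prop
  refine ⟨fun x => decide (F x < 2 * cnt (fun j => A (G x j)) (F x)),
    (h2.to_comp.comp (c2.pair c4)).of_eq fun x => rfl, ?_⟩
  intro p p' hp hp' hP
  rw [decide_eq_true_eq, hF, hG]
  refine vote2 hPr hQ hp hp' hP r (K' (p, p')) (T (p, p')) (T' (p, p')) _ _ rfl rfl ?_ ?_ ?_
  · rw [hT]
  · rw [hT']
  · intro L L'
    rw [hK']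
    exact h _ _ _ _ _ _

end Pool.Agent.Q324.SC.Tz
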